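import Pool.Agent.Lib.SHG.SpecN

/-! MP_9a4459_nt, SHG, module NV: the Cramér-Granville model exists for every nondecreasing
`T k ≤ (log k)^B`. -/

set_option autoImplicit false

namespace Pool.Agent.Lib.SHG

open Finset Filter Topology MeasureTheory
open Pool.Agent.Lib.MP_3ef1ab_nt Pool.Agent.Results.MP_9a4459_nt
open Pool.Agent.Lib.SHR hiding ShanksLaw
open scoped Classical

namespace NVM

/-- the law of the `k`-th coordinate -/
noncomputable def lawB (r : ℝ) : Measure ℕ :=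
  ENNReal.ofReal r • Measure.dirac 1 + ENNReal.ofReal (1 - r) • Measure.dirac 0

theorem lawB_prob (r : ℝ) (h0 : 0 ≤ r) (h1 : r ≤ 1) : IsProbabilityMeasure (lawB r) := by
  refine ⟨?_⟩
  unfold lawB
  rw [Measure.add_apply, Measure.smul_apply, Measure.smul_apply, measure_univ, measure_univ,
    smul_eq_mul, smul_eq_mul, mul_one, mul_one, ← ENNReal.ofReal_add h0 (by linarith)]
  norm_num

theorem lawB_one (r : ℝ) : lawB r {1} = ENNReal.ofReal r := by
  unfold lawB
  rw [Measure.add_apply, Measure.smul_apply, Measure.smul_apply, Measure.dirac_apply,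
    Measure.dirac_apply]
  simp

/-- independent events with given probabilities -/
theorem model (r : ℕ → ℝ) (F : ℕ → Prop) (hr : ∀ k, 0 ≤ r k ∧ r k ≤ 1) :
    ∃ (Ω : Type) (m0 : MeasurableSpace Ω) (P : Measure Ω) (ℱ : Filtration ℕ m0) (A : ℕ → Set Ω),
      IsProbabilityMeasure P ∧ (∀ k, MeasurableSet[ℱ k] (A k)) ∧ (∀ k, ¬ F k → A k = ∅) ∧
      ∀ k, F (k + 1) → (P[(A (k + 1)).indicator (fun _ => (1 : ℝ)) | ℱ k]) =ᵐ[P]
        fun _ => r (k + 1) := by
  have hpr : ∀ k : ℕ, IsProbabilityMeasure (lawB (r k)) := fun k => lawB_prob _ (hr k).1 (hr k).2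
  obtain ⟨Ω, mΩ, P, X, h1, h2, h3, h4⟩ := ProbabilityTheory.exists_hasLaw_indepFun
    (fun _ : ℕ => ℕ) (fun k : ℕ => lawB (r k))
  let S : ℕ → Set ℕ := fun k => if F k then {1} else ∅
  let A : ℕ → Set Ω := fun k => X k ⁻¹' S k
  have hSm : ∀ k, MeasurableSet (S k) := fun k => MeasurableSet.of_discrete
  have hA : ∀ k, MeasurableSet (A k) := fun k => (h1 k) (hSm k)
  have hind : ProbabilityTheory.iIndepSet A P := by
    rw [ProbabilityTheory.iIndepSet_iff_meas_biInter hA]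
    intro s
    exact h3.measure_inter_preimage_eq_mul s (sets := S) (fun i _ => hSm i)
  refine ⟨Ω, mΩ, P, filtrationOfSet hA, A, h4, fun k => measurableSet_filtrationOfSet' hA k,
    ?_, ?_⟩
  · intro k hk
    show X k ⁻¹' (if F k then {1} else ∅) = ∅
    rw [if_neg hk]
    exact Set.preimage_empty
  · intro k hk
    have h5 := hind.condExp_indicator_filtrationOfSet_ae_eq hA (Nat.lt_succ_self k)
    refine h5.trans ?_
    have h6 : P (A (k + 1)) = ENNReal.ofReal (r (k + 1)) := by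
      show P (X (k + 1) ⁻¹' (if F (k + 1) then {1} else ∅)) = _
      rw [if_pos hk, ← Measure.map_apply (h1 (k + 1)) (measurableSet_singleton 1),
        (h2 (k + 1)).map_eq, lawB_one]
    have h7 : P.real (A (k + 1)) = r (k + 1) := by
      rw [Measure.real, h6, ENNReal.toReal_ofReal (hr (k + 1)).1]
    exact Eventually.of_forall fun _ => h7

/-- growth of the inverse of the product -/
theorem growth (C : ℝ) (hC : 0 < C) (B : ℕ) :
    ∀ᶠ u : ℝ in atTop, C * (1 + Real.log (u ^ B + 1)) ≤ u := by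
  have h1 := Real.isLittleO_log_id_atTop.bound (show (0 : ℝ) < 1 / (2 * (C * B + 1)) by positivity)
  filter_upwards [h1, eventually_ge_atTop 1, eventually_ge_atTop (2 * (C * (1 + Real.log 2)))]
    with u h2 h3 h4
  have hu : 0 < u := by linarith
  have h5 : Real.log (u ^ B + 1) ≤ Real.log 2 + B * Real.log u := by
    have h6 : u ^ B + 1 ≤ 2 * u ^ B := by
      have : 1 ≤ u ^ B := one_le_pow₀ h3
      linarith
    have h7 : Real.log (u ^ B + 1) ≤ Real.log (2 * u ^ B) := Real.log_le_log (by positivity) h6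
    rw [Real.log_mul (by norm_num) (by positivity), Real.log_pow] at h7
    exact h7
  have h8 : Real.log u ≤ 1 / (2 * (C * B + 1)) * u := by
    have h9 : Real.log u ≤ ‖Real.log u‖ := le_abs_self _
    have h10 : ‖id u‖ = u := by
      show |u| = u
      exact abs_of_pos hu
    rw [h10] at h2
    linarith
  have h11 : C * (B * Real.log u) ≤ u / 2 := by
    have h12 : C * (B * Real.log u) ≤ C * (B * (1 / (2 * (C * B + 1)) * u)) := by
      have hB : (0 : ℝ) ≤ B := Nat.cast_nonneg B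
      exact mul_le_mul_of_nonneg_left (mul_le_mul_of_nonneg_left h8 hB) hC.le
    refine h12.trans ?_
    have h13 : 0 < C * B + 1 := by positivity
    have h14 : C * (B * (1 / (2 * (C * B + 1)) * u)) = (C * B) / (C * B + 1) * (u / 2) := by
      field_simp
    rw [h14]
    have h15 : (C * B) / (C * B + 1) ≤ 1 := by
      rw [div_le_one h13]; linarith
    exact mul_le_of_le_one_left (by linarith) h15
  have h16 : C * (1 + Real.log (u ^ B + 1)) ≤ C * (1 + (Real.log 2 + B * Real.log u)) :=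
    mul_le_mul_of_nonneg_left (by linarith) hC.le
  calc C * (1 + Real.log (u ^ B + 1)) ≤ C * (1 + (Real.log 2 + B * Real.log u)) := h16
    _ = C * (1 + Real.log 2) + C * (B * Real.log u) := by ring
    _ ≤ u := by linarith

end NVM

theorem tNV (h1 : S_VB) (h2 : MerStmt) : S_NV := by
  intro T hT hTB
  obtain ⟨B, hB⟩ := hTB
  obtain ⟨-, C, hC, hV⟩ := h1 h2
  have hlog : Tendsto (fun k : ℕ => Real.log (k : ℝ)) atTop atTop :=
    Real.tendsto_log_atTop.comp tendsto_natCast_atTop_atTop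
  have hsm : ∀ᶠ k : ℕ in atTop, (VV (T k))⁻¹ ≤ Real.log k := by
    filter_upwards [hB, hlog.eventually (NVM.growth C hC B)] with k h3 h4
    refine (hV (T k)).trans (le_trans ?_ h4)
    have h5 : Real.log ((T k : ℝ) + 1) ≤ Real.log (Real.log k ^ B + 1) :=
      Real.log_le_log (by positivity) (by linarith)
    exact mul_le_mul_of_nonneg_left (by linarith) hC.le
  let r : ℕ → ℝ := fun k =>
    if (VV (T k))⁻¹ ≤ Real.log k ∧ 2 ≤ k then (VV (T k))⁻¹ / Real.log k else 0
  have hr : ∀ k, 0 ≤ r k ∧ r k ≤ 1 := by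
    intro k
    show 0 ≤ (if (VV (T k))⁻¹ ≤ Real.log k ∧ 2 ≤ k then (VV (T k))⁻¹ / Real.log k else 0) ∧
      (if (VV (T k))⁻¹ ≤ Real.log k ∧ 2 ≤ k then (VV (T k))⁻¹ / Real.log k else 0) ≤ 1
    split_ifs with h
    · have h3 : 0 < (VV (T k))⁻¹ := inv_pos.2 (VV_pos _)
      have h4 : 0 < Real.log k := lt_of_lt_of_le h3 h.1
      exact ⟨(div_pos h3 h4).le, (div_le_one h4).2 h.1⟩
    · exact ⟨le_rfl, zero_le_one⟩
  obtain ⟨Ω, m0, P, ℱ, A, hP, hmeas, hfree, hcond⟩ :=
    NVM.model r (fun k => SieveFree (T k) k) hr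
  refine ⟨Ω, m0, P, ℱ, A, hP, ⟨hT, hmeas, hfree, ?_⟩⟩
  have hae : ∀ᵐ ω ∂P, ∀ k : ℕ, SieveFree (T (k + 1)) (k + 1) →
      (P[(A (k + 1)).indicator (fun _ => (1 : ℝ)) | ℱ k]) ω = r (k + 1) := by
    rw [ae_all_iff]
    intro k
    by_cases hk : SieveFree (T (k + 1)) (k + 1)
    · filter_upwards [hcond k hk] with ω hω _
      exact hω
    · exact Eventually.of_forall fun ω h => absurd h hk
  filter_upwards [hae] with ω hω
  intro ε hε
  have h3 : ∀ᶠ k : ℕ in atTop, (VV (T (k + 1)))⁻¹ ≤ Real.log ((k + 1 : ℕ) : ℝ) :=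
    (tendsto_add_atTop_nat 1).eventually hsm
  filter_upwards [h3, eventually_ge_atTop 1] with k h4 h5 h6
  rw [hω k h6]
  have h7 : r (k + 1) = (VV (T (k + 1)))⁻¹ / Real.log ((k + 1 : ℕ) : ℝ) :=
    if_pos ⟨h4, by omega⟩
  have h8 : 0 < VV (T (k + 1)) := VV_pos _
  have h9 : 0 < Real.log ((k + 1 : ℕ) : ℝ) := lt_of_lt_of_le (inv_pos.2 h8) h4
  have h10 : VV (T (k + 1)) * Real.log ((k + 1 : ℕ) : ℝ) * r (k + 1) = 1 := by
    rw [h7]
    field_simp
  show |VV (T (k + 1)) * Real.log ((k + 1 : ℕ) : ℝ) * r (k + 1) - 1| ≤ ε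
  rw [h10, sub_self, abs_zero]
  exact hε.le

end Pool.Agent.Lib.SHG
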