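import Pool.Agent.Lib.SHG.Spec

/-! MP_9a4459_nt, directory SHG, module WC: windows for (R3). -/

set_option autoImplicit false

namespace Pool.Agent.Lib.SHG

open Finset Filter Topology MeasureTheory
open Pool.Agent.Lib.MP_3ef1ab_nt Pool.Agent.Results.MP_9a4459_nt
open Pool.Agent.Lib.SHR hiding ShanksLaw
open Pool.Agent.Lib.SHK (pr mem_pr Vk pr_union pr_disjoint)
open scoped Classical

namespace WCM

theorem start (m b D : ℕ) (hD : 0 < D) :
    ∃ n0 : ℕ, m < n0 ∧ n0 ≤ m + D ∧ n0 ≡ b [MOD D] := by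
  have h1 : m + 1 ≤ D * (m + 1) := Nat.le_mul_of_pos_left _ hD
  refine ⟨m + 1 + (b + D * (m + 1) - (m + 1)) % D, by omega, ?_, ?_⟩
  · have := Nat.mod_lt (b + D * (m + 1) - (m + 1)) hD
    omega
  · have h2 : m + 1 + (b + D * (m + 1) - (m + 1)) % D ≡
        m + 1 + (b + D * (m + 1) - (m + 1)) [MOD D] :=
      Nat.ModEq.add_left _ (Nat.mod_modEq _ _)
    have h3 : m + 1 + (b + D * (m + 1) - (m + 1)) = b + D * (m + 1) := by omega
    rw [h3] at h2
    refine h2.trans ?_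
    simp

theorem VV_eq (z : ℕ) : VV z = Vk 1 0 z := by
  unfold VV Vk
  refine prod_congr ?_ (fun p _ => by simp)
  ext p
  rw [mem_filter, mem_Icc, mem_pr]
  constructor
  · rintro ⟨⟨h1, h2⟩, h3⟩
    exact ⟨by omega, h2, h3⟩
  · rintro ⟨h1, h2, h3⟩
    exact ⟨⟨by omega, h2⟩, h3⟩

theorem Vk_mul {y w : ℕ} (h : y ≤ w) : VV w = VV y * Vk 1 y w := by
  rw [VV_eq, VV_eq]
  unfold Vk
  rw [← prod_union (pr_disjoint 0 y w), pr_union (Nat.zero_le y) h]

theorem Vk_pos (x y : ℕ) : 0 < Vk 1 x y := by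
  refine prod_pos fun p hp => ?_
  have h1 : 2 ≤ p := (mem_pr.1 hp).2.2.two_le
  have h0 : (2 : ℝ) ≤ p := by exact_mod_cast h1
  have h2 : (0 : ℝ) < p := by linarith
  have h3 : ((1 : ℕ) : ℝ) / p < 1 := by
    rw [div_lt_one h2]
    push_cast
    linarith
  linarith

/-- Mertens for large `y` -/
theorem mert (h : Pool.Agent.Lib.SHK.MtcStmt) (ε : ℝ) (hε : 0 < ε) :
    ∃ y1 : ℕ, ∀ y : ℕ, y1 ≤ y →
      (VV y)⁻¹ ≤ (1 + ε) * (Real.exp Real.eulerMascheroniConstant * Real.log y) := by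
  have h1 : Real.exp (-Real.eulerMascheroniConstant) / (1 + ε) <
      Real.exp (-Real.eulerMascheroniConstant) := by
    rw [div_lt_iff₀ (by linarith)]
    have := Real.exp_pos (-Real.eulerMascheroniConstant)
    nlinarith
  have h2 := (h.eventually (lt_mem_nhds h1))
  obtain ⟨y1, hy1⟩ := eventually_atTop.1 h2
  refine ⟨y1, fun y hy => ?_⟩
  have h3 := hy1 y hy
  rw [VV_eq, inv_le_iff_one_le_mul₀ (Vk_pos 0 y)]
  rw [Real.exp_neg, div_lt_iff₀ (by linarith)] at h3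
  have h4 := Real.exp_pos Real.eulerMascheroniConstant
  have h5 := mul_le_mul_of_nonneg_left h3.le h4.le
  rw [mul_inv_cancel₀ h4.ne'] at h5
  refine h5.trans (le_of_eq ?_)
  ring

/-- `log (g^5 + 1)` is small against the square root -/
theorem small (C δ : ℝ) (hC : 0 < C) (hδ : 0 < δ) :
    ∀ᶠ g : ℕ in atTop, C * (1 + Real.log ((g : ℝ) ^ 5 + 1)) ≤ δ * √(g : ℝ) := by
  have h1 : Tendsto (fun g : ℕ => (g : ℝ)) atTop atTop := tendsto_natCast_atTop_atTop
  have h2 : (fun x : ℝ => Real.log x) =o[atTop] (fun x : ℝ => x ^ ((1 : ℝ) / 2)) :=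
    isLittleO_log_rpow_atTop (by norm_num)
  have h3 := (h2.comp_tendsto h1).bound (show (0 : ℝ) < δ / (20 * C) by positivity)
  have h4 : Tendsto (fun g : ℕ => √(g : ℝ)) atTop atTop :=
    Real.tendsto_sqrt_atTop.comp h1
  filter_upwards [h3, h4.eventually_ge_atTop (4 * C / δ), eventually_ge_atTop 2] with g a1 a2 a3
  have hg2 : (2 : ℝ) ≤ g := by exact_mod_cast a3
  have hg0 : (0 : ℝ) < g := by linarith
  simp only [Function.comp] at a1
  rw [Real.norm_of_nonneg (Real.log_nonneg (by linarith)), ← Real.sqrt_eq_rpow,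
    Real.norm_of_nonneg (Real.sqrt_nonneg _)] at a1
  have h5 : (g : ℝ) ^ 5 + 1 ≤ (g : ℝ) ^ 6 := by
    have : (1 : ℝ) ≤ (g : ℝ) ^ 5 := one_le_pow₀ (by linarith)
    nlinarith
  have h6 : Real.log ((g : ℝ) ^ 5 + 1) ≤ 6 * Real.log g := by
    have := Real.log_le_log (by positivity) h5
    rwa [Real.log_pow] at this
  have h7 : 4 * C ≤ δ * √(g : ℝ) := by
    rw [div_le_iff₀ hδ] at a2
    linarith
  have h8 : C * (6 * Real.log g) ≤ 6 * (δ / 20 * √(g : ℝ)) := by
    have : C * Real.log g ≤ C * (δ / (20 * C) * √(g : ℝ)) := mul_le_mul_of_nonneg_left a1 hC.le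
    have e : C * (δ / (20 * C) * √(g : ℝ)) = δ / 20 * √(g : ℝ) := by
      field_simp
    linarith
  have h9 : C * Real.log ((g : ℝ) ^ 5 + 1) ≤ C * (6 * Real.log g) :=
    mul_le_mul_of_nonneg_left h6 hC.le
  have h10 : (0 : ℝ) ≤ δ * √(g : ℝ) := by positivity
  nlinarith

end WCM

open WCM in
theorem tWC (h1 : S_CB) (h2 : S_VB) (h3 : S_NM3) : S_WC := by
  intro hSml hMed hMtc hMer T hT hG c hc hc1
  obtain ⟨a, ha, hGr⟩ := hG
  obtain ⟨c0, c1, ε, η, hc0, hc01, hc1c, hε, hε2, hη, hη10, hηa, hnum⟩ := h3 a c ha hc hc1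
  obtain ⟨g1, hsml⟩ := hSml ε (max 1 (2 / η ^ 2)) hε (by linarith) (le_max_left _ _)
  obtain ⟨c', hc', R0, y0, hmed⟩ := hMed ε hε (by linarith)
  obtain ⟨y1, hmert⟩ := mert hMtc ε hε
  obtain ⟨hVB, C, hC, hVC⟩ := h2 hMer
  obtain ⟨K0, hK0⟩ := eventually_atTop.1 hGr
  refine ⟨ε, hε, by linarith, ?_⟩
  have hcpos : 0 < c := by linarith
  have hc0pos : 0 < c0 := by linarith
  have hsq : Tendsto (fun g : ℕ => √(g : ℝ)) atTop atTop :=
    Real.tendsto_sqrt_atTop.comp tendsto_natCast_atTop_atTop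
  filter_upwards [hnum c' R0 (max y0 y1) hc', eventually_ge_atTop g1,
    small ((1 + ε) * C) (ε / (1 + ε) * c0) (by positivity) (by positivity),
    small C c hC hcpos, hsq.eventually_ge_atTop ((K0 : ℝ) / c0)] with g hn hg1 hs1 hs2 hsK hev
  obtain ⟨n1, n2, n3, n4, n5, n6, n7, n8, n9, n10, n11, n12⟩ := hn
  have hg100 : (100 : ℝ) ≤ g := by exact_mod_cast n1
  have hg0 : (0 : ℝ) < g := by linarith
  have hsg : 0 < √(g : ℝ) := Real.sqrt_pos.2 hg0
  have hsg1 : 1 ≤ √(g : ℝ) := by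
    rw [Real.one_le_sqrt]
    linarith
  generalize hv : ⌊Real.exp (c1 * √(g : ℝ))⌋₊ = v at *
  have hyle : ((⌊η * √(g : ℝ)⌋₊ : ℕ) : ℝ) ≤ η * √(g : ℝ) := Nat.floor_le (by positivity)
  generalize hy : ⌊η * √(g : ℝ)⌋₊ = y at *
  generalize hD : primorial y = D at *
  have hDpos : 0 < D := by
    rw [← hD]
    exact primorial_pos y
  -- v is large
  have hlogv : 0 < Real.log (v : ℝ) := lt_of_lt_of_le (by positivity) n8
  have hvpos : (0 : ℝ) < v := by
    rcases Nat.eq_zero_or_pos v with h | h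
    · rw [h] at hlogv
      simp at hlogv
    · exact_mod_cast h
  have hKv : K0 ≤ v := by
    have e1 : Real.log (v : ℝ) ≤ v := by
      have := Real.log_le_sub_one_of_pos hvpos
      linarith
    rw [div_le_iff₀ hc0pos] at hsK
    have : (K0 : ℝ) ≤ v := by nlinarith
    exact_mod_cast this
  -- M
  obtain ⟨M, hM⟩ : ∃ M, M = T (2 * v) := ⟨_, rfl⟩
  have hMg : M ≤ g ^ 5 := by
    have e1 := (hK0 (2 * v) (by omega)).2
    rw [← hM] at e1
    push_cast at e1
    have e2 : Real.log (2 * (v : ℝ)) ^ 10 ≤ (√(g : ℝ)) ^ 10 := by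
      have e3 : 0 ≤ Real.log (2 * (v : ℝ)) := by
        refine Real.log_nonneg ?_
        have : (1 : ℝ) ≤ v := by exact_mod_cast (by exact_mod_cast hvpos : 0 < v)
        linarith
      refine pow_le_pow_left₀ e3 (n9.trans ?_) 10
      nlinarith
    have e4 : (√(g : ℝ)) ^ 10 = (g : ℝ) ^ 5 := by
      rw [show (10 : ℕ) = 2 * 5 from rfl, pow_mul, Real.sq_sqrt hg0.le]
    have : (M : ℝ) ≤ (g : ℝ) ^ 5 := by
      rw [← e4]
      exact e1.trans e2
    exact_mod_cast this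
  obtain ⟨l, hl⟩ : ∃ l, l = v / (M + 1) := ⟨_, rfl⟩
  have hl1 : (M + 1) * l ≤ v := by
    rw [hl]
    exact Nat.mul_div_le _ _
  have hlv : l ≤ v := by
    rw [hl]
    exact Nat.div_le_self _ _
  obtain ⟨i, hiM, hconst⟩ := h1 T hT v l M (by
    rw [hM]
    rw [hM] at hl1
    exact hT (by omega))
  obtain ⟨u, hu⟩ : ∃ u, u = v + i * l := ⟨_, rfl⟩
  have hu2 : v + (i + 1) * l = u + l := by
    rw [hu]
    ring
  rw [hu2, ← hu] at hconst
  have hul : u + l ≤ 2 * v := by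
    have e1 : (i + 1) * l ≤ (M + 1) * l := Nat.mul_le_mul_right _ (by omega)
    omega
  have hvu : v ≤ u := by omega
  obtain ⟨w, hw⟩ : ∃ w, w = T u := ⟨_, rfl⟩
  rw [← hw] at hconst
  have hlogu : c0 * √(g : ℝ) ≤ Real.log u := n8.trans (Real.log_le_log hvpos (by exact_mod_cast hvu))
  have hyw : y ≤ w := by
    have e1 := (hK0 u (by omega)).1
    rw [← hw] at e1
    have e2 : η * √(g : ℝ) ≤ a * (c0 * √(g : ℝ)) := by nlinarith
    have e3 : a * (c0 * √(g : ℝ)) ≤ a * Real.log u := mul_le_mul_of_nonneg_left hlogu ha.le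
    have : (y : ℝ) ≤ w := by linarith
    exact_mod_cast this
  have hwg : w ≤ g ^ 5 := by
    have : w ≤ M := by
      rw [hw, hM]
      exact hT (by omega)
    omega
  -- N
  obtain ⟨N, hN⟩ : ∃ N, N = (l - 2 * D - g) / D := ⟨_, rfl⟩
  have n10' : Real.exp ((c1 - 2 * η) * √(g : ℝ)) ≤ (N : ℝ) := by
    have := n10 M hMg
    rw [← hl, ← hN] at this
    exact this
  have hNpos : 0 < N := by
    have : (0 : ℝ) < N := lt_of_lt_of_le (Real.exp_pos _) n10'
    exact_mod_cast this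
  have hDN : D * N ≤ l - 2 * D - g := by
    rw [hN]
    exact Nat.mul_div_le _ _
  have hDN1 : D ≤ D * N := Nat.le_mul_of_pos_right _ hNpos
  have hwN : w ^ R0 ≤ N := by
    have e1 : (w : ℝ) ^ R0 ≤ ((g : ℝ) ^ 5) ^ R0 :=
      pow_le_pow_left₀ (by positivity) (by exact_mod_cast hwg) _
    have : (w : ℝ) ^ R0 ≤ N := e1.trans (n11.trans n10')
    exact_mod_cast this
  -- small primes
  have hgC : (g : ℝ) ≤ max 1 (2 / η ^ 2) * (y : ℝ) ^ 2 :=
    n4.trans (mul_le_mul_of_nonneg_right (le_max_right _ _) (by positivity))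
  obtain ⟨b, S0, hS0, hS0c, hb⟩ := hsml g y (fun _ => 0) hg1 hev n3 hgC
    (fun p hp => (mem_pr.1 hp).2.2.pos)
  rw [hD] at hb
  obtain ⟨A0, hA1, hA2, hA3⟩ := start u b D hDpos
  have hy0 : y0 ≤ y := (le_max_left _ _).trans n2
  have hy1 : y1 ≤ y := (le_max_right _ _).trans n2
  have hmed' := hmed y w g N A0 D (fun _ => 0) S0 hy0 hyw (hwg.trans n6) (by omega) n5 hwN hS0 (by
    intro p hp
    obtain ⟨hpy, hpw, hpp⟩ := mem_pr.1 hp
    refine ⟨?_, hpp.pos⟩
    rw [Nat.Prime.coprime_iff_not_dvd hpp, ← hD, hpp.dvd_primorial_iff]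
    exact not_le.2 hpy)
  set S : Finset ℕ := (range N).filter (fun t =>
      (∀ p ∈ pr y w, (A0 + D * t) % p ≠ 0 ∧ (A0 + D * t + g) % p ≠ 0) ∧
      ((S0.filter (fun j => ∀ p ∈ pr y w, (A0 + D * t + j) % p ≠ 0)).card : ℝ) ≤
        (1 + ε) * (S0.card * Vk 1 y w)) with hS
  -- the position of the window
  have hend : A0 + D * N + g ≤ u + l := by omega
  have hVw : 0 < VV w := VV_pos w
  have hVinv : 1 ≤ (VV w)⁻¹ := (hVB w).1
  have hrC : (VV w)⁻¹ ≤ C * (1 + Real.log ((g : ℝ) ^ 5 + 1)) := by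
    refine (hVC w).trans ?_
    refine mul_le_mul_of_nonneg_left ?_ hC.le
    have : Real.log ((w : ℝ) + 1) ≤ Real.log ((g : ℝ) ^ 5 + 1) := by
      refine Real.log_le_log (by positivity) ?_
      have : (w : ℝ) ≤ (g : ℝ) ^ 5 := by exact_mod_cast hwg
      linarith
    linarith
  have hrho : ∀ k, u ≤ k → k ≤ u + l → rho T k = if SieveFree w k then (VV w)⁻¹ else 0 := by
    intro k hk1 hk2
    unfold rho
    rw [hconst k hk1 hk2]
  have hrho_le : ∀ k, u ≤ k → k ≤ u + l → rho T k ≤ (VV w)⁻¹ := by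
    intro k hk1 hk2
    rw [hrho k hk1 hk2]
    split_ifs
    · exact le_rfl
    · positivity
  have hlogk : ∀ k : ℕ, u ≤ k → k ≤ u + l →
      c0 * √(g : ℝ) ≤ Real.log k ∧ Real.log k ≤ c * √(g : ℝ) := by
    intro k hk1 hk2
    have hk0 : (0 : ℝ) < k := lt_of_lt_of_le hvpos (by exact_mod_cast hvu.trans hk1)
    refine ⟨n8.trans (Real.log_le_log hvpos (by exact_mod_cast hvu.trans hk1)), ?_⟩
    refine le_trans (Real.log_le_log hk0 ?_) n9
    have : k ≤ 2 * v := by omega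
    exact_mod_cast this
  have hfree : ∀ n : ℕ, (∀ p ∈ pr 0 y, n % p ≠ 0) → (∀ p ∈ pr y w, n % p ≠ 0) →
      SieveFree w n := by
    intro n e1 e2 p hp hpw hpn
    have e3 : n % p = 0 := Nat.mod_eq_zero_of_dvd hpn
    rcases le_or_gt p y with h | h
    · exact e1 p (mem_pr.2 ⟨hp.pos, h, hp⟩) e3
    · exact e2 p (mem_pr.2 ⟨h, hpw, hp⟩) e3
  have hDt : ∀ t ∈ S, D * t + D ≤ D * N := by
    intro t ht
    have e1 : t < N := mem_range.1 (mem_filter.1 ht).1
    have e2 : D * (t + 1) ≤ D * N := Nat.mul_le_mul_left D e1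
    have e3 : D * (t + 1) = D * t + D := by ring
    omega
  have hmod : ∀ t, A0 + D * t ≡ b [MOD D] := by
    intro t
    have h6 : A0 + D * t ≡ A0 + 0 [MOD D] :=
      Nat.ModEq.add_left _ ((Nat.modEq_zero_iff_dvd).2 (dvd_mul_right _ _))
    exact h6.trans hA3
  have hlogg : 0 < Real.log (g : ℝ) := Real.log_pos (by linarith)
  have hVy : (VV y)⁻¹ ≤ (1 + ε) * (Real.exp Real.eulerMascheroniConstant *
      (Real.log g / 2)) := by
    refine (hmert y hy1).trans ?_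
    have e1 : Real.log (y : ℝ) ≤ Real.log g / 2 := by
      rcases Nat.eq_zero_or_pos y with h | h
      · rw [h]
        simp only [Nat.cast_zero, Real.log_zero]
        positivity
      · have hy0' : (0 : ℝ) < y := by exact_mod_cast h
        have e2 : (y : ℝ) ≤ √(g : ℝ) := by nlinarith
        have e3 := Real.log_le_log hy0' e2
        rwa [Real.log_sqrt hg0.le] at e3
    refine mul_le_mul_of_nonneg_left ?_ (by linarith)
    exact mul_le_mul_of_nonneg_left e1 (Real.exp_pos _).le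
  have hcard : c' * Real.exp ((c1 - 2 * η) * √(g : ℝ)) ≤ (S.card : ℝ) :=
    (mul_le_mul_of_nonneg_left n10' hc'.le).trans hmed'
  refine ⟨A0, D, N, S, (VV w)⁻¹, (1 + ε) ^ 3 * (Real.exp Real.eulerMascheroniConstant / 2) * g,
    c0 * √(g : ℝ), c * √(g : ℝ), ?_, by omega, filter_subset _ _, by positivity, by positivity,
    ?_, ?_, ?_, ?_, ?_⟩
  · have : Nat.sqrt g ≤ g := Nat.sqrt_le_self g
    omega
  · intro t ht
    have ht' := hDt t ht
    have htS := (mem_filter.1 ht).2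
    obtain ⟨hb1, hb2⟩ := hb (A0 + D * t) (hmod t)
    refine ⟨?_, ?_, ?_⟩
    · rw [hrho _ (by omega) (by omega), if_pos]
      exact hfree _ (fun p hp => (hb1 p hp).1) (fun p hp => (htS.1 p hp).1)
    · rw [hrho _ (by omega) (by omega), if_pos]
      exact hfree _ (fun p hp => (hb1 p hp).2) (fun p hp => (htS.1 p hp).2)
    · have e1 : ∑ i ∈ Ioo 0 g, rho T (A0 + D * t + i) =
          ∑ i ∈ Ioo 0 g, if SieveFree w (A0 + D * t + i) then (VV w)⁻¹ else 0 := by
        refine sum_congr rfl fun i hi => ?_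
        have := mem_Ioo.1 hi
        exact hrho _ (by omega) (by omega)
      rw [e1, ← sum_filter, sum_const, nsmul_eq_mul]
      have e2 : (Ioo 0 g).filter (fun i => SieveFree w (A0 + D * t + i)) ⊆
          S0.filter (fun j => ∀ p ∈ pr y w, (A0 + D * t + j) % p ≠ 0) := by
        intro i hi
        obtain ⟨hi1, hi2⟩ := mem_filter.1 hi
        rw [mem_filter]
        refine ⟨?_, ?_⟩
        · by_contra hiS
          obtain ⟨p, hp, hpe⟩ := hb2 i hi1 hiS
          obtain ⟨hp0, hpy, hpp⟩ := mem_pr.1 hp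
          exact hi2 p hpp (hpy.trans hyw) (Nat.dvd_of_mod_eq_zero hpe)
        · intro p hp hpe
          obtain ⟨hp0, hpw, hpp⟩ := mem_pr.1 hp
          exact hi2 p hpp hpw (Nat.dvd_of_mod_eq_zero hpe)
      have e3 : (((Ioo 0 g).filter (fun i => SieveFree w (A0 + D * t + i))).card : ℝ) ≤
          (1 + ε) * (S0.card * Vk 1 y w) :=
        le_trans (by exact_mod_cast card_le_card e2) htS.2
      have e4 : (1 + ε) * (S0.card * Vk 1 y w) ≤
          (1 + ε) * (((1 + ε) * (g / Real.log g)) * Vk 1 y w) := by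
        refine mul_le_mul_of_nonneg_left ?_ (by linarith)
        exact mul_le_mul_of_nonneg_right hS0c (Vk_pos y w).le
      have e5 : (1 + ε) * (((1 + ε) * (g / Real.log g)) * Vk 1 y w) * (VV w)⁻¹ =
          (1 + ε) ^ 2 * (g / Real.log g) * (VV y)⁻¹ := by
        rw [Vk_mul hyw]
        have := (Vk_pos y w).ne'
        have := (VV_pos y).ne'
        field_simp
      calc (((Ioo 0 g).filter (fun i => SieveFree w (A0 + D * t + i))).card : ℝ) * (VV w)⁻¹
          ≤ (1 + ε) * (((1 + ε) * (g / Real.log g)) * Vk 1 y w) * (VV w)⁻¹ :=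
            mul_le_mul_of_nonneg_right (e3.trans e4) (by positivity)
        _ = (1 + ε) ^ 2 * (g / Real.log g) * (VV y)⁻¹ := e5
        _ ≤ (1 + ε) ^ 2 * (g / Real.log g) *
            ((1 + ε) * (Real.exp Real.eulerMascheroniConstant * (Real.log g / 2))) :=
            mul_le_mul_of_nonneg_left hVy (by positivity)
        _ = (1 + ε) ^ 3 * (Real.exp Real.eulerMascheroniConstant / 2) * g := by
            have := hlogg.ne'
            field_simp
  · intro k hk1 hk2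
    have hk3 : u ≤ k := by omega
    have hk4 : k ≤ u + l := by omega
    obtain ⟨e1, e2⟩ := hlogk k hk3 hk4
    refine ⟨e1, e2, ?_⟩
    have e3 := (hrho_le k hk3 hk4).trans hrC
    have e4 : (1 + ε) * rho T k ≤ (1 + ε) * C * (1 + Real.log ((g : ℝ) ^ 5 + 1)) := by
      have := mul_le_mul_of_nonneg_left e3 (show (0 : ℝ) ≤ 1 + ε by linarith)
      linarith
    refine e4.trans (hs1.trans (le_of_eq ?_))
    ring
  · have e1 : (1 - ε) * (VV w)⁻¹ ≤ (VV w)⁻¹ := by nlinarith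
    exact e1.trans (hrC.trans hs2)
  · refine n12.trans ?_
    have e1 : (1 - ε) / √(g : ℝ) ≤ (1 - ε) * (VV w)⁻¹ / (c * √(g : ℝ)) := by
      rw [div_le_div_iff₀ hsg (by positivity)]
      have e0 : 0 < 1 - ε := by linarith
      have e2 : c ≤ (VV w)⁻¹ := hc1.trans hVinv
      have e3 : (1 - ε) * √(g : ℝ) * c ≤ (1 - ε) * √(g : ℝ) * (VV w)⁻¹ :=
        mul_le_mul_of_nonneg_left e2 (by positivity)
      nlinarith
    have e2 : ((1 - ε) / √(g : ℝ)) ^ 2 ≤ ((1 - ε) * (VV w)⁻¹ / (c * √(g : ℝ))) ^ 2 := by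
      refine pow_le_pow_left₀ ?_ e1 2
      have e0 : 0 < 1 - ε := by linarith
      positivity
    have e3 : (1 + ε) ^ 2 * ((1 + ε) ^ 3 * (Real.exp Real.eulerMascheroniConstant / 2) * g) /
        (c0 * √(g : ℝ)) = (1 + ε) ^ 5 * (Real.exp Real.eulerMascheroniConstant / 2) * g /
        (c0 * √(g : ℝ)) := by
      ring
    rw [e3]
    refine mul_le_mul hcard ?_ (by positivity) (by positivity)
    exact mul_le_mul_of_nonneg_right e2 (Real.exp_pos _).le
  · exact (hlogk _ (by omega) hend).2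

end Pool.Agent.Lib.SHG
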