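import Pool.Agent.Lib.SHG.Spec

/-! MP_9a4459_nt, directory Lib/SHG, module FNC: the theorem (R3), sieving limit of size `log k`. -/

set_option autoImplicit false

namespace Pool.Agent.Lib.SHG

open Finset Filter Topology MeasureTheory
open Pool.Agent.Lib.MP_3ef1ab_nt Pool.Agent.Results.MP_9a4459_nt
open Pool.Agent.Lib.SHR hiding ShanksLaw
open scoped Classical

namespace FNCM

theorem kappa : √(Real.exp Real.eulerMascheroniConstant / 2) < 1 := by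
  have h1 : Real.exp Real.eulerMascheroniConstant < Real.exp (2 / 3) :=
    Real.exp_lt_exp.2 Real.eulerMascheroniConstant_lt_two_thirds
  have h2 : Real.exp (2 / 3) ^ 3 < 2 ^ 3 := by
    rw [← Real.exp_nat_mul]
    have h3 : ((3 : ℕ) : ℝ) * (2 / 3) = ((2 : ℕ) : ℝ) * 1 := by norm_num
    rw [h3, Real.exp_nat_mul]
    have h4 := Real.exp_one_lt_d9
    have h5 := Real.exp_pos 1
    nlinarith
  have h3 : Real.exp (2 / 3) < 2 := lt_of_pow_lt_pow_left₀ 3 (by norm_num) h2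
  rw [Real.sqrt_lt' one_pos]
  rw [one_pow, div_lt_one two_pos]
  linarith

theorem rho_nonneg (T : ℕ → ℕ) (k : ℕ) : 0 ≤ rho T k := by
  unfold rho
  split_ifs
  · exact inv_nonneg.2 (VV_pos _).le
  · exact le_rfl

/-- the first gap of size `g` -/
theorem first (Q : ℕ → Prop) (m g : ℕ) (h : Consec Q m (m + g)) :
    ∃ p : ℕ, p ≤ m ∧ Consec Q p (p + g) ∧ ∀ q' : ℕ, q' < p + g → Q q' →
      ¬ ∃ p' : ℕ, Q p' ∧ p' + g = q' ∧ ∀ k : ℕ, p' < k → k < q' → ¬ Q k := by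
  have hex : ∃ p, Consec Q p (p + g) := ⟨m, h⟩
  refine ⟨Nat.find hex, Nat.find_min' hex h, Nat.find_spec hex, ?_⟩
  rintro q' h1 h2 ⟨p', h3, h4, h5⟩
  have h6 := Nat.find_spec hex
  have h7 : p' < Nat.find hex := by omega
  refine Nat.find_min hex h7 ⟨h3, by rw [h4]; exact h2, ?_, ?_⟩
  · have := h6.2.2.1
    omega
  · rw [h4]
    exact h5

end FNCM

open FNCM in
theorem tFNC.{u} (hM : S_MDL.{u}) (hU : S_UP2.{u}) (h3 : S_WC)
    (h4 : Pool.Agent.Lib.SHK.SmlStmt) (h5 : Pool.Agent.Lib.SHK.MedStmt)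
    (h6 : Pool.Agent.Lib.SHK.MtcStmt) (h7 : MerStmt) : S_FNC.{u} := by
  intro Ω m0 P _ ℱ A T hA hT
  have hW := h3 h4 h5 h6 h7
  obtain ⟨hm, hq⟩ := hM Ω m0 P ℱ A T hA
  set κ := √(Real.exp Real.eulerMascheroniConstant / 2) with hκ
  have hκ0 : 0 ≤ κ := Real.sqrt_nonneg _
  have hκ1 : κ < 1 := kappa
  have hall : ∀ᵐ ω ∂P, ∀ j : ℕ, ∀ᶠ g : ℕ in atTop, Even g → ∃ m : ℕ, Xi A m ω = 1 ∧
      (∀ k : ℕ, m < k → k < m + g → Xi A k ω = 0) ∧ Xi A (m + g) ω = 1 ∧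
      Real.log ((m : ℝ) + g) ≤ (κ + (1 - κ) * (1 / ((j : ℝ) + 1))) * √(g : ℝ) := by
    refine ae_all_iff.2 fun j => ?_
    have h3 : 1 / ((j : ℝ) + 1) ≤ 1 := by
      rw [div_le_one (by positivity)]
      have : (0 : ℝ) ≤ j := Nat.cast_nonneg j
      linarith
    have h4 : (1 - κ) * (1 / ((j : ℝ) + 1)) ≤ (1 - κ) * 1 :=
      mul_le_mul_of_nonneg_left h3 (by linarith)
    have h5 : 0 < (1 - κ) * (1 / ((j : ℝ) + 1)) := mul_pos (by linarith) (by positivity)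
    obtain ⟨ε, hε0, hε1, hw⟩ := hW T hA.mono hT (κ + (1 - κ) * (1 / ((j : ℝ) + 1)))
      (by linarith) (by linarith)
    exact hU Ω m0 P ℱ (Xi A) (Qc P ℱ A) hm (rho T) ε _ (fun g => Even g) (rho_nonneg T) hε0 hε1
      (hq ε hε0) hw
  filter_upwards [hall] with ω hω
  have hX : ∀ k, ω ∈ A k ↔ Xi A k ω = 1 := by
    intro k
    unfold Xi
    by_cases h : ω ∈ A k
    · simp [h]
    · simp [h]
  have hX0 : ∀ k, Xi A k ω = 0 ↔ ω ∉ A k := by
    intro k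
    rw [hX k]
    rcases Xi_01 A k ω with h | h <;> rw [h] <;> norm_num
  have hmain : ∀ c : ℝ, κ < c → ∃ G : ℕ, ∀ g : ℕ, G ≤ g → Even g →
      ∃ m : ℕ, Consec (fun k => ω ∈ A k) m (m + g) ∧ Real.log ((m : ℝ) + g) < c * √(g : ℝ) := by
    intro c hc
    obtain ⟨j, hj⟩ := exists_nat_one_div_lt (show 0 < c - κ by linarith)
    obtain ⟨G, hG⟩ := eventually_atTop.1 (hω j)
    refine ⟨max G 1, fun g hg hev => ?_⟩
    obtain ⟨m, m1, m2, m3, m4⟩ := hG g ((le_max_left _ _).trans hg) hev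
    have hg1 : 1 ≤ g := (le_max_right _ _).trans hg
    refine ⟨m, ⟨(hX m).2 m1, (hX _).2 m3, by omega, fun k a1 a2 => (hX0 k).1 (m2 k a1 a2)⟩,
      lt_of_le_of_lt m4 ?_⟩
    have hs : 0 < √(g : ℝ) := Real.sqrt_pos.2 (by exact_mod_cast hg1)
    refine mul_lt_mul_of_pos_right ?_ hs
    have h5 : (1 - κ) * (1 / ((j : ℝ) + 1)) ≤ 1 * (1 / ((j : ℝ) + 1)) :=
      mul_le_mul_of_nonneg_right (by linarith) (by positivity)
    linarith
  refine ⟨hmain, fun hS => ?_⟩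
  obtain ⟨G1, hG1⟩ := hmain ((κ + 1) / 2) (by linarith)
  obtain ⟨G2, hG2⟩ := hS ((1 - κ) / 4) (by linarith)
  obtain ⟨g, hgdef⟩ : ∃ g : ℕ, g = 2 * (G1 + G2 + 1) := ⟨_, rfl⟩
  have hgev : Even g := by
    rw [hgdef]
    exact even_two_mul _
  obtain ⟨m, hm1, hm2⟩ := hG1 g (by omega) hgev
  obtain ⟨p, hp1, hp2, hp3⟩ := first _ m g hm1
  have h6 := hG2 g (p + g) (by omega) hp2.2.1 ⟨p, hp2.1, rfl, hp2.2.2.2⟩ hp3
  have hg0 : (0 : ℝ) < g := by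
    have : 0 < g := by omega
    exact_mod_cast this
  have hs : 0 < √(g : ℝ) := Real.sqrt_pos.2 hg0
  have hpg : (0 : ℝ) < ((p + g : ℕ) : ℝ) := by
    have : 0 < p + g := by omega
    exact_mod_cast this
  have hle : ((p + g : ℕ) : ℝ) ≤ (m : ℝ) + g := by
    push_cast
    have : (p : ℝ) ≤ m := by exact_mod_cast hp1
    linarith
  have h7 : Real.log ((p + g : ℕ) : ℝ) < (κ + 1) / 2 * √(g : ℝ) :=
    lt_of_le_of_lt (Real.log_le_log hpg hle) hm2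
  have h8 : Real.log ((p + g : ℕ) : ℝ) / √(g : ℝ) < (κ + 1) / 2 := by
    rw [div_lt_iff₀ hs]
    exact h7
  have h9 := (abs_lt.1 h6).1
  linarith

end Pool.Agent.Lib.SHG
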