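import Pool.Agent.Lib.SHG.Spec

/-! MP_9a4459_nt, project SHG, module FLW: rough numbers in intervals, relative form. -/

set_option autoImplicit false

namespace Pool.Agent.Lib.SHG

open Finset Filter Topology MeasureTheory
open Pool.Agent.Lib.MP_3ef1ab_nt Pool.Agent.Results.MP_9a4459_nt
open Pool.Agent.Lib.SHR hiding ShanksLaw
open scoped Classical

namespace FLWM

theorem free_iff (z n : ℕ) : SieveFree z n ↔ Pool.Agent.Lib.BV.Rough z n := by
  unfold SieveFree Pool.Agent.Lib.BV.Rough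
  constructor
  · intro h p hp hpn
    by_contra hz
    exact h p hp (by omega) hpn
  · intro h p hp hpz hpn
    have := h p hp hpn
    omega

theorem card_eq (z N Y : ℕ) :
    ((range Y).filter (fun i => SieveFree z (N + i + 1))).card = rg z N Y := by
  unfold rg
  refine Finset.card_nbij' (fun i => N + i + 1) (fun n => n - N - 1) ?_ ?_ ?_ ?_
  · intro i hi
    have hi' := Finset.mem_filter.1 hi
    have h1 := Finset.mem_range.1 hi'.1
    show N + i + 1 ∈ _
    refine Finset.mem_filter.2 ⟨Finset.mem_Ioc.2 ⟨by omega, by omega⟩, (free_iff _ _).1 hi'.2⟩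
  · intro n hn
    have hn' := Finset.mem_filter.1 hn
    have h1 := Finset.mem_Ioc.1 hn'.1
    show n - N - 1 ∈ _
    refine Finset.mem_filter.2 ⟨Finset.mem_range.2 (by omega), ?_⟩
    have h2 : N + (n - N - 1) + 1 = n := by omega
    rw [h2]
    exact (free_iff _ _).2 hn'.2
  · intro i hi
    show N + i + 1 - N - 1 = i
    omega
  · intro n hn
    have hn' := Finset.mem_filter.1 hn
    have h1 := Finset.mem_Ioc.1 hn'.1
    show N + (n - N - 1) + 1 = n
    omega

theorem sum_eq (z N Y : ℕ) (v : ℝ) :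
    ∑ i ∈ range Y, (if SieveFree z (N + i + 1) then v else 0) = (rg z N Y : ℝ) * v := by
  rw [← card_eq, ← Finset.sum_filter, Finset.sum_const, nsmul_eq_mul]

theorem small (z N Y : ℕ) (hz : z ≤ 1) :
    ∑ i ∈ range Y, (if SieveFree z (N + i + 1) then (VV z)⁻¹ else 0) = (Y : ℝ) := by
  have h1 : VV z = 1 := by
    unfold VV
    refine Finset.prod_eq_one fun p hp => ?_
    have h2 := Finset.mem_filter.1 hp
    have h3 := (Finset.mem_Icc.1 h2.1).2
    have h4 := h2.2.two_le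
    omega
  have h2 : ∀ n : ℕ, SieveFree z n := by
    intro n p hp hpz
    have := hp.two_le
    omega
  have h3 : ∀ i ∈ range Y, (if SieveFree z (N + i + 1) then (VV z)⁻¹ else 0) = (1 : ℝ) := by
    intro i _
    rw [if_pos (h2 _), h1, inv_one]
  rw [Finset.sum_congr rfl h3]
  simp

theorem log_bd (z : ℕ) (hz : 2 ≤ z) : 1 + Real.log ((z : ℝ) + 1) ≤ 4 * Real.log z := by
  have hz2 : (2 : ℝ) ≤ z := by exact_mod_cast hz
  have h1 : Real.log ((z : ℝ) + 1) ≤ 2 * Real.log z := by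
    have h2 : Real.log ((z : ℝ) + 1) ≤ Real.log ((z : ℝ) ^ 2) :=
      Real.log_le_log (by linarith) (by nlinarith)
    rw [Real.log_pow] at h2
    exact_mod_cast h2
  have h3 : Real.log 2 ≤ Real.log z := Real.log_le_log (by norm_num) hz2
  have h4 : (0.6931471803 : ℝ) < Real.log 2 := Real.log_two_gt_d9
  linarith

end FLWM

open FLWM in
theorem tFLW (h1 : S_VB) : S_FLW := by
  intro hFl hM
  obtain ⟨C, hC, hFl⟩ := hFl
  obtain ⟨hV, C', hC', hV'⟩ := h1 hM
  intro ε hε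
  obtain ⟨b, hb1, hb⟩ : ∃ b : ℕ, 1 ≤ b ∧ 4 * C' * C * Real.exp (-(b : ℝ)) ≤ ε := by
    refine ⟨⌈4 * C' * C / ε⌉₊ + 1, by omega, ?_⟩
    have e1 : 4 * C' * C / ε ≤ (⌈4 * C' * C / ε⌉₊ : ℝ) := Nat.le_ceil _
    set m : ℕ := ⌈4 * C' * C / ε⌉₊ with hm
    have e2 : ((m + 1 : ℕ) : ℝ) + 1 ≤ Real.exp ((m + 1 : ℕ) : ℝ) := Real.add_one_le_exp _
    have e3 : 4 * C' * C / ε ≤ Real.exp ((m + 1 : ℕ) : ℝ) := by
      push_cast at e2 ⊢
      linarith
    have e4 : 4 * C' * C ≤ ε * Real.exp ((m + 1 : ℕ) : ℝ) := by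
      rw [div_le_iff₀ hε] at e3
      linarith
    rw [Real.exp_neg, ← div_eq_mul_inv, div_le_iff₀ (Real.exp_pos _)]
    exact e4
  refine ⟨16 * b + 1, ?_⟩
  intro z N Y
  rcases Nat.lt_or_ge 1 z with hz | hz
  · have hz2 : (2 : ℝ) ≤ z := by exact_mod_cast hz
    have hlog : 0 < Real.log z := Real.log_pos (by linarith)
    have hVp : 0 < VV z := VV_pos z
    have hVi : 0 < (VV z)⁻¹ := inv_pos.2 hVp
    rw [sum_eq]
    have e0 : (rg z N Y : ℝ) * (VV z)⁻¹ - Y = (VV z)⁻¹ * ((rg z N Y : ℝ) - Y * VV z) := by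
      field_simp
    rw [e0, abs_mul, abs_of_pos hVi]
    have e1 := hFl z b N Y hz hb1
    have e2 : (VV z)⁻¹ * |(rg z N Y : ℝ) - Y * VV z| ≤
        (VV z)⁻¹ * (C * (Real.exp (-(b : ℝ)) / Real.log z) * Y + (z : ℝ) ^ (16 * b)) :=
      mul_le_mul_of_nonneg_left e1 hVi.le
    refine e2.trans ?_
    have e3 : (VV z)⁻¹ ≤ 4 * C' * Real.log z := by
      have e5 := hV' z
      have e6 := mul_le_mul_of_nonneg_left (log_bd z hz) hC'.le
      linarith
    have hY : (0 : ℝ) ≤ Y := Nat.cast_nonneg Y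
    have e4 : (VV z)⁻¹ * (C * (Real.exp (-(b : ℝ)) / Real.log z) * Y) ≤ ε * Y := by
      have e5 : 0 ≤ C * (Real.exp (-(b : ℝ)) / Real.log z) * Y := by positivity
      have e6 := mul_le_mul_of_nonneg_right e3 e5
      have e7 : 4 * C' * Real.log z * (C * (Real.exp (-(b : ℝ)) / Real.log z) * Y) =
          4 * C' * C * Real.exp (-(b : ℝ)) * Y := by
        field_simp
      have e8 := mul_le_mul_of_nonneg_right hb hY
      linarith
    have e9 : (VV z)⁻¹ * (z : ℝ) ^ (16 * b) ≤ ((z : ℝ) + 1) ^ (16 * b + 1) := by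
      have f1 : (z : ℝ) ^ (16 * b) ≤ ((z : ℝ) + 1) ^ (16 * b) :=
        pow_le_pow_left₀ (by linarith) (by linarith) _
      have f2 : (VV z)⁻¹ * (z : ℝ) ^ (16 * b) ≤ ((z : ℝ) + 1) * ((z : ℝ) + 1) ^ (16 * b) :=
        mul_le_mul (hV z).2 f1 (by positivity) (by linarith)
      rw [pow_succ, mul_comm]
      linarith [mul_comm ((z : ℝ) + 1) (((z : ℝ) + 1) ^ (16 * b)),
        mul_comm ((z : ℝ) ^ (16 * b)) (VV z)⁻¹]
    rw [mul_add]
    linarith
  · rw [small z N Y hz, sub_self, abs_zero]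
    positivity

end Pool.Agent.Lib.SHG
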