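import Pool.Agent.Lib.SHG.Spec

/-! MP_9a4459_nt, part SHG, module FNA: Shanks's law for slowly growing sieving limits. -/

set_option autoImplicit false

namespace Pool.Agent.Lib.SHG

open Finset Filter Topology MeasureTheory
open Pool.Agent.Lib.MP_3ef1ab_nt Pool.Agent.Results.MP_9a4459_nt
open Pool.Agent.Lib.SHR hiding ShanksLaw
open scoped Classical

namespace FNAM

theorem exists_up (c : ℝ) (hc : 1 < c) : ∃ ε : ℝ, 0 < ε ∧ ε < 1 ∧ (1 + ε) ^ 3 < c := by
  refine ⟨min (1 / 2) ((c - 1) / 8), lt_min (by norm_num) (by linarith),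
    lt_of_le_of_lt (min_le_left _ _) (by norm_num), ?_⟩
  set e := min (1 / 2 : ℝ) ((c - 1) / 8) with he
  have h0 : 0 < e := lt_min (by norm_num) (by linarith)
  have h1 : e ≤ 1 / 2 := min_le_left _ _
  have h2 : e ≤ (c - 1) / 8 := min_le_right _ _
  have h3 : e * e ≤ e * (1 / 2) := mul_le_mul_of_nonneg_left h1 h0.le
  have h4 : e * e * e ≤ e * (1 / 2) * (1 / 2) := by
    have := mul_le_mul h3 h1 h0.le (by positivity)
    linarith
  nlinarith

theorem exists_low (c : ℝ) (hc0 : 0 < c) (hc : c < 1) :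
    ∃ ε : ℝ, 0 < ε ∧ ε < 1 ∧ c ^ 2 < (1 - ε) ^ 3 := by
  refine ⟨(1 - c) / 3, by linarith, by linarith, ?_⟩
  set e := (1 - c) / 3 with he
  have h1 : c = 1 - 3 * e := by rw [he]; ring
  have h2 : 0 < e := by rw [he]; linarith
  have h3 : e < 1 / 3 := by rw [he]; linarith
  rw [h1]
  nlinarith [mul_pos h2 h2, mul_pos (mul_pos h2 h2) h2]

theorem not_free_two {z n : ℕ} (hz : 2 ≤ z) (hn : Even n) : ¬ SieveFree z n := by
  intro h
  exact h 2 Nat.prime_two hz hn.two_dvd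

end FNAM

theorem tFNA.{u} (h1 : S_MDL.{u}) (h2 : S_UP2.{u}) (h3 : S_LOWP.{u}) (h4 : S_LD2) (h5 : S_LB)
    (h6 : S_WA) (h7 : FLWStmt) (h8 : MerStmt) : S_FNA.{u} := by
  intro Ω m0 P _ ℱ A T hCG hT
  obtain ⟨hM, hdens⟩ := h1 Ω m0 P ℱ A T hCG
  have hρ : ∀ k, 0 ≤ rho T k := by
    intro k
    unfold rho
    split_ifs
    · exact (inv_pos.2 (VV_pos _)).le
    · exact le_rfl
  have hup : ∀ᵐ ω ∂P, ∀ j : ℕ, ∀ᶠ g : ℕ in atTop, (Even g ∨ ∀ k, T k ≤ 1) →
      ∃ m : ℕ, Xi A m ω = 1 ∧ (∀ k : ℕ, m < k → k < m + g → Xi A k ω = 0) ∧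
        Xi A (m + g) ω = 1 ∧ Real.log ((m : ℝ) + g) ≤ (1 + 1 / ((j : ℝ) + 1)) * √(g : ℝ) := by
    refine ae_all_iff.2 fun j => ?_
    have hj : (0 : ℝ) < 1 / ((j : ℝ) + 1) := by positivity
    obtain ⟨ε, e0, e1, e2⟩ := FNAM.exists_up (1 + 1 / ((j : ℝ) + 1)) (by linarith)
    exact h2 Ω m0 P ℱ (Xi A) (Qc P ℱ A) hM (rho T) ε _ (fun g => Even g ∨ ∀ k, T k ≤ 1) hρ e0 e1
      (hdens ε e0) (h6 h7 h8 T hCG.mono hT ε _ e0 e1 e2)
  have hlow : ∀ᵐ ω ∂P, ∀ j : ℕ, ∀ᶠ g : ℕ in atTop, ∀ m : ℕ,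
      (∀ k : ℕ, m < k → k < m + g → Xi A k ω = 0) →
      (1 - 1 / ((j : ℝ) + 2)) * √(g : ℝ) < Real.log ((m : ℝ) + g) := by
    refine ae_all_iff.2 fun j => ?_
    have hj0 : (0 : ℝ) < 1 / ((j : ℝ) + 2) := by positivity
    have hj : (1 : ℝ) / ((j : ℝ) + 2) < 1 := by
      rw [div_lt_one (by positivity)]
      have : (0 : ℝ) ≤ j := Nat.cast_nonneg j
      linarith
    obtain ⟨ε, e0, e1, e2⟩ := FNAM.exists_low (1 - 1 / ((j : ℝ) + 2)) (by linarith) (by linarith)
    filter_upwards [hdens ε e0, h3 Ω m0 P ℱ (Xi A) (Qc P ℱ A) hM (Real.log ε)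
      (1 - 1 / ((j : ℝ) + 2)) (by linarith)] with ω k1 k2
    refine h4 (rho T) (fun k => Xi A k ω) (fun k => Qc P ℱ A k ω) ε _ hρ
      (fun k => (hM.q01 k ω).1) e0 e1 (by linarith) e2 (k1.mono fun k hk => hk.1)
      (h5 h7 T hCG.mono hT ε _ e0 e1 (by linarith)) ?_
    filter_upwards [k2] with g hg s hs
    have h9 := hg s hs
    unfold Sx at h9
    rw [Real.exp_log e0] at h9
    exact h9
  filter_upwards [hup, hlow] with ω k1 k4
  have hX : ∀ k, ω ∈ A k ↔ Xi A k ω = 1 := by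
    intro k
    unfold Xi
    by_cases h : ω ∈ A k
    · simp [h]
    · simp [h]
  have hX0 : ∀ k, Xi A k ω = 0 ↔ ω ∉ A k := by
    intro k
    rw [hX k]
    rcases Xi_01 A k ω with h | h <;> rw [h] <;> norm_num
  have hfree : ∀ k, ω ∈ A k → SieveFree (T k) k := by
    intro k hk
    by_contra hcon
    rw [hCG.free k hcon] at hk
    exact hk
  constructor
  · intro ε hε
    obtain ⟨j, hj⟩ := exists_nat_one_div_lt hε
    -- odd gaps
    have hodd : ∃ G1 : ℕ, ∀ g p : ℕ, G1 ≤ g → ω ∈ A p → ω ∈ A (p + g) →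
        (∀ m : ℕ, p < m → m < p + g → ω ∉ A m) → Even g ∨ ∀ k, T k ≤ 1 := by
      by_cases hall : ∀ k, T k ≤ 1
      · exact ⟨0, fun g p _ _ _ _ => Or.inr hall⟩
      · push Not at hall
        obtain ⟨k0, hk0⟩ := hall
        have hsq : Tendsto (fun g : ℕ => √(g : ℝ)) atTop atTop :=
          Real.tendsto_sqrt_atTop.comp tendsto_natCast_atTop_atTop
        have e1 : ∀ᶠ g : ℕ in atTop, Real.log ((k0 : ℝ) + g) ≤ 1 / 2 * √(g : ℝ) := by
          have e2 := (isLittleO_log_rpow_atTop (show (0 : ℝ) < 1 / 2 by norm_num)).bound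
            (show (0 : ℝ) < 1 / 4 by norm_num)
          have e3 : Tendsto (fun g : ℕ => (k0 : ℝ) + g) atTop atTop :=
            tendsto_atTop_add_const_left _ _ tendsto_natCast_atTop_atTop
          filter_upwards [e3.eventually e2, eventually_ge_atTop (k0 + 1)] with g a1 a2
          have a3 : ((k0 : ℝ) + 1) ≤ g := by exact_mod_cast a2
          have hk00 : (0 : ℝ) ≤ k0 := Nat.cast_nonneg k0
          have a4 : √((k0 : ℝ) + g) ≤ 2 * √(g : ℝ) := by
            have : √((k0 : ℝ) + g) ≤ √(2 ^ 2 * (g : ℝ)) := Real.sqrt_le_sqrt (by linarith)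
            rw [Real.sqrt_mul (by norm_num), Real.sqrt_sq (by norm_num)] at this
            exact this
          rw [Real.norm_eq_abs, Real.norm_eq_abs, ← Real.sqrt_eq_rpow,
            abs_of_nonneg (Real.sqrt_nonneg _)] at a1
          have a5 := (le_abs_self _).trans a1
          linarith
        obtain ⟨G1, hG1⟩ := eventually_atTop.1 (e1.and (k4 0))
        refine ⟨G1, fun g p hg hp hq hno => ?_⟩
        obtain ⟨u1, u2⟩ := hG1 g hg
        left
        by_contra hcon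
        have hpk : p < k0 := by
          by_contra hpk
          rw [not_lt] at hpk
          have t1 : 2 ≤ T p := (Nat.succ_le_of_lt hk0).trans (hCG.mono hpk)
          have t2 : 2 ≤ T (p + g) := t1.trans (hCG.mono (Nat.le_add_right _ _))
          have t3 : ¬ Even p := fun h => FNAM.not_free_two t1 h (hfree p hp)
          have t4 : ¬ Even (p + g) := fun h => FNAM.not_free_two t2 h (hfree _ hq)
          rw [Nat.even_add] at t4
          tauto
        have u3 := u2 p fun k a1 a2 => (hX0 k).2 (hno k a1 a2)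
        have u4 : Real.log ((p : ℝ) + g) ≤ Real.log ((k0 : ℝ) + g) := by
          apply Real.log_le_log
          · have : 0 < p + g := by
              rcases Nat.eq_zero_or_pos g with h9 | h9
              · exact absurd (by rw [h9]; exact Even.zero) hcon
              · omega
            exact_mod_cast this
          · have : (p : ℝ) ≤ k0 := by exact_mod_cast hpk.le
            linarith
        have u5 : (1 - 1 / (((0 : ℕ) : ℝ) + 2)) = (1 / 2 : ℝ) := by norm_num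
        rw [u5] at u3
        linarith
    obtain ⟨G1, hG1⟩ := hodd
    obtain ⟨G, hG⟩ := eventually_atTop.1 ((k1 j).and ((k4 j).and (eventually_ge_atTop (max G1 1))))
    refine ⟨G, fun g q hg hq hp hfirst => ?_⟩
    obtain ⟨p, hp1, hp2, hp3⟩ := hp
    obtain ⟨u1, u2, u3⟩ := hG g hg
    have u4 : 1 ≤ g := (le_max_right _ _).trans u3
    have u5 : G1 ≤ g := (le_max_left _ _).trans u3
    have hg0 : (0 : ℝ) < g := by exact_mod_cast u4
    have ht0 : 0 < √(g : ℝ) := Real.sqrt_pos.2 hg0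
    subst hp2
    obtain ⟨m, m1, m2, m3, m4⟩ := u1 (hG1 g p u5 hp1 hq hp3)
    have hle : p + g ≤ m + g := by
      by_contra hcon
      rw [not_le] at hcon
      apply hfirst (m + g) hcon ((hX _).2 m3)
      exact ⟨m, (hX m).2 m1, rfl, fun k a1 a2 => (hX0 k).1 (m2 k a1 a2)⟩
    have hler : ((p + g : ℕ) : ℝ) ≤ (m : ℝ) + g := by exact_mod_cast hle
    have hpg : (0 : ℝ) < ((p + g : ℕ) : ℝ) := by
      have : 0 < p + g := by omega
      exact_mod_cast this
    have v1 : Real.log ((p + g : ℕ) : ℝ) ≤ (1 + 1 / ((j : ℝ) + 1)) * √(g : ℝ) :=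
      (Real.log_le_log hpg hler).trans m4
    have v2 := u2 p fun k a1 a2 => (hX0 k).2 (hp3 k a1 a2)
    have v3 : (p : ℝ) + g = ((p + g : ℕ) : ℝ) := by push_cast; ring
    rw [v3] at v2
    have v4 : (1 : ℝ) / ((j : ℝ) + 2) ≤ 1 / ((j : ℝ) + 1) := by
      apply one_div_le_one_div_of_le (by positivity)
      linarith
    rw [abs_lt]
    constructor
    · have : 1 - 1 / ((j : ℝ) + 2) < Real.log ((p + g : ℕ) : ℝ) / √(g : ℝ) := by
        rw [lt_div_iff₀ ht0]
        exact v2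
      linarith
    · have : Real.log ((p + g : ℕ) : ℝ) / √(g : ℝ) ≤ 1 + 1 / ((j : ℝ) + 1) := by
        rw [div_le_iff₀ ht0]
        exact v1
      linarith
  · obtain ⟨G, hG⟩ := eventually_atTop.1 ((k1 0).and (eventually_ge_atTop 1))
    refine ⟨G, fun g hg ha => ?_⟩
    obtain ⟨u1, u3⟩ := hG g hg
    obtain ⟨m, m1, m2, m3, -⟩ := u1 ha
    refine ⟨m, (hX m).2 m1, (hX _).2 m3, by omega, fun k a1 a2 => (hX0 k).1 (m2 k a1 a2)⟩

end Pool.Agent.Lib.SHG
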