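import Pool.Agent.Lib.SHG.Spec
import Pool.Agent.Lib.SHR.Upp

/-! MP_9a4459_nt, part SHG, module GW: one gap size. -/

set_option autoImplicit false

namespace Pool.Agent.Lib.SHG

open Finset Filter Topology MeasureTheory
open Pool.Agent.Lib.MP_3ef1ab_nt Pool.Agent.Results.MP_9a4459_nt
open Pool.Agent.Lib.SHR hiding ShanksLaw
open scoped Classical

theorem tGW.{u} (h1 : S_WNB.{u}) : S_GW.{u} := by
  intro Ω m0 P _ ℱ X q h ρ ε g a D J S r R l0 l1 hρ hε0 hε1 hg ha hgD hS hr hl0 hwin hrange hrl hnum
  set m : ℕ → ℕ := fun j => a + D * j with hm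
  set n : ℕ → ℕ := fun j => m j - 1 with hn
  have hma : ∀ j, a ≤ m j := fun j => Nat.le_add_right _ _
  have hnm : ∀ j, n j + 1 = m j := by
    intro j
    have := hma j
    simp only [hn]
    omega
  set B : ℕ → Set Ω := fun k => {ω | (1 - ε) * ρ (k + 1) ≤
    Real.log ((k + 1 : ℕ) : ℝ) * q (k + 1) ω ∧
    Real.log ((k + 1 : ℕ) : ℝ) * q (k + 1) ω ≤ (1 + ε) * ρ (k + 1)} with hB
  have hBm : ∀ k, MeasurableSet[ℱ k] (B k) := by
    intro k
    have hf : StronglyMeasurable[ℱ k] (fun ω => Real.log ((k + 1 : ℕ) : ℝ) * q (k + 1) ω) :=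
      (h.mq k).const_mul _
    have e : B k = (fun ω => Real.log ((k + 1 : ℕ) : ℝ) * q (k + 1) ω) ⁻¹'
        Set.Icc ((1 - ε) * ρ (k + 1)) ((1 + ε) * ρ (k + 1)) := by
      ext ω
      simp only [hB, Set.mem_setOf_eq, Set.mem_preimage, Set.mem_Icc]
    rw [e]
    exact hf.measurable measurableSet_Icc
  set τ : ℕ → Bool := fun i => decide (i = 0 ∨ i = g) with hτ
  set b : ℕ → ℕ → ℝ := fun j i => if j ∈ S then (if i = 0 ∨ i = g then (1 - ε) * r / l1 else
    Real.exp (-((1 + ε) ^ 2 * ρ (m j + i) / l0))) else 0 with hb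
  have hl01 : J ≠ 0 → 0 < l1 := by
    intro _
    obtain ⟨c1, c2, -⟩ := hrange a le_rfl (by omega)
    linarith
  have hstep : ∀ j, n j + (g + 1) ≤ n (j + 1) := by
    intro j
    have e : m (j + 1) = m j + D := by
      simp only [hm]
      ring
    have h2 := hnm j
    have h3 := hnm (j + 1)
    omega
  have hrle : ∀ j < J, (1 - ε) * r / l1 ≤ 1 ∧ 0 ≤ (1 - ε) * r / l1 := by
    intro j hj
    have hl1 := hl01 (by omega)
    constructor
    · rw [div_le_one hl1]
      exact hrl
    · have : 0 ≤ 1 - ε := by linarith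
      positivity
  have hb01 : ∀ j < J, ∀ i < g + 1, 0 ≤ b j i ∧ b j i ≤ 1 := by
    intro j hj i _
    simp only [hb]
    split_ifs with h2 h3
    · exact ⟨(hrle j hj).2, (hrle j hj).1⟩
    · refine ⟨(Real.exp_pos _).le, ?_⟩
      rw [Real.exp_le_one_iff]
      have : 0 ≤ (1 + ε) ^ 2 * ρ (m j + i) / l0 := by
        have := hρ (m j + i)
        positivity
      linarith
    · exact ⟨le_rfl, zero_le_one⟩
  set Q : ℝ := ((1 - ε) * r / l1) ^ 2 * Real.exp (-((1 + ε) ^ 2 * R / l0)) with hQ
  have hprod : ∀ j < J, j ∈ S → Q ≤ ∏ i ∈ range (g + 1), b j i := by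
    intro j hj hjS
    obtain ⟨g', hg'⟩ : ∃ g', g = g' + 1 := ⟨g - 1, by omega⟩
    have e0 : b j 0 = (1 - ε) * r / l1 := by
      have : b j 0 = if j ∈ S then (if (0 : ℕ) = 0 ∨ 0 = g then (1 - ε) * r / l1 else
        Real.exp (-((1 + ε) ^ 2 * ρ (m j + 0) / l0))) else 0 := rfl
      rw [this, if_pos hjS, if_pos (Or.inl rfl)]
    have eg : b j g = (1 - ε) * r / l1 := by
      have : b j g = if j ∈ S then (if g = 0 ∨ g = g then (1 - ε) * r / l1 else
        Real.exp (-((1 + ε) ^ 2 * ρ (m j + g) / l0))) else 0 := rfl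
      rw [this, if_pos hjS, if_pos (Or.inr rfl)]
    have e1 : ∏ i ∈ range (g + 1), b j i = (∏ i ∈ range g', b j (i + 1)) * b j 0 * b j g := by
      rw [prod_range_succ]
      congr 1
      rw [hg', prod_range_succ']
    have e2 : ∏ i ∈ range g', b j (i + 1) =
        Real.exp (-((1 + ε) ^ 2 * (∑ i ∈ range g', ρ (m j + (i + 1))) / l0)) := by
      have e3 : ∀ i ∈ range g', b j (i + 1) =
          Real.exp (-((1 + ε) ^ 2 * ρ (m j + (i + 1)) / l0)) := by
        intro i hi
        rw [mem_range] at hi
        have : b j (i + 1) = if j ∈ S then (if i + 1 = 0 ∨ i + 1 = g then (1 - ε) * r / l1 else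
          Real.exp (-((1 + ε) ^ 2 * ρ (m j + (i + 1)) / l0))) else 0 := rfl
        rw [this, if_pos hjS, if_neg (by omega)]
      rw [prod_congr rfl e3, ← Real.exp_sum]
      congr 1
      rw [sum_neg_distrib, ← sum_div, ← mul_sum]
    have e4 : ∑ i ∈ range g', ρ (m j + (i + 1)) = ∑ i ∈ Ioo 0 g, ρ (m j + i) := by
      rw [sum_range (fun i => ρ (m j + (i + 1)))]
      rw [← sum_range (fun i => ρ (m j + (i + 1)))]
      apply sum_bij (fun i _ => i + 1)
      · intro i hi
        rw [mem_range] at hi
        rw [mem_Ioo]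
        omega
      · intro i _ i' _ h5
        omega
      · intro i hi
        rw [mem_Ioo] at hi
        exact ⟨i - 1, by rw [mem_range]; omega, by omega⟩
      · intro i _
        rfl
    rw [e1, e0, eg, e2, e4]
    have h2 := (hwin j hjS).2.2
    have h3 : Real.exp (-((1 + ε) ^ 2 * R / l0)) ≤
        Real.exp (-((1 + ε) ^ 2 * (∑ i ∈ Ioo 0 g, ρ (m j + i)) / l0)) := by
      apply Real.exp_le_exp.2
      have h4 : (1 + ε) ^ 2 * (∑ i ∈ Ioo 0 g, ρ (m j + i)) / l0 ≤ (1 + ε) ^ 2 * R / l0 := by
        apply div_le_div_of_nonneg_right _ hl0.le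
        exact mul_le_mul_of_nonneg_left h2 (by positivity)
      linarith
    calc Q ≤ ((1 - ε) * r / l1) ^ 2 *
          Real.exp (-((1 + ε) ^ 2 * (∑ i ∈ Ioo 0 g, ρ (m j + i)) / l0)) :=
          mul_le_mul_of_nonneg_left h3 (sq_nonneg _)
      _ = _ := by ring
  have hcond : ∀ j < J, ∀ i < g + 1, ∀ ω ∈ B (n j + i),
      b j i ≤ if τ i then q (n j + i + 1) ω else 1 - q (n j + i + 1) ω := by
    intro j hj i hi ω hω
    have ek : n j + i + 1 = m j + i := by
      have := hnm j
      omega
    simp only [hB, Set.mem_setOf_eq] at hω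
    rw [ek] at hω ⊢
    set k := m j + i with hk
    obtain ⟨q0, q1⟩ := h.q01 k ω
    by_cases hjS : j ∈ S
    · have hk1 : a ≤ k := (hma j).trans (Nat.le_add_right _ _)
      have hk2 : k ≤ a + D * J + g := by
        have h2 : D * j ≤ D * J := Nat.mul_le_mul_left _ hj.le
        simp only [hk, hm]
        omega
      obtain ⟨r1, r2, r3⟩ := hrange k hk1 hk2
      have hl1 := hl01 (by omega)
      have hlog0 : 0 < Real.log k := by linarith
      by_cases hi2 : i = 0 ∨ i = g
      · have ebb : b j i = (1 - ε) * r / l1 := by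
          simp only [hb]
          rw [if_pos hjS, if_pos hi2]
        have eτ : τ i = true := by
          simp only [hτ]
          exact decide_eq_true hi2
        rw [ebb, eτ, if_pos rfl]
        have hρk : r ≤ ρ k := by
          rcases hi2 with h2 | h2
          · have : k = a + D * j := by
              simp only [hk, hm]
              omega
            rw [this]
            exact (hwin j hjS).1
          · have : k = a + D * j + g := by
              simp only [hk, hm]
              omega
            rw [this]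
            exact (hwin j hjS).2.1
        rw [div_le_iff₀ hl1]
        have h2 : (1 - ε) * r ≤ (1 - ε) * ρ k := mul_le_mul_of_nonneg_left hρk (by linarith)
        have h3 : Real.log k * q k ω ≤ l1 * q k ω := mul_le_mul_of_nonneg_right r2 q0
        linarith [hω.1, mul_comm l1 (q k ω)]
      · have ebb : b j i = Real.exp (-((1 + ε) ^ 2 * ρ k / l0)) := by
          simp only [hb]
          rw [if_pos hjS, if_neg hi2]
        have eτ : τ i = false := by
          simp only [hτ]
          exact decide_eq_false hi2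
        rw [ebb, eτ]
        simp only [Bool.false_eq_true, if_false]
        have hu0 : 0 ≤ (1 + ε) * ρ k / l0 := by
          have := hρ k
          positivity
        have hu : (1 + ε) * ρ k / l0 ≤ ε / (1 + ε) := by
          rw [div_le_iff₀ hl0]
          exact r3
        have h2 := UppM.exp_le ε _ hε0 hu0 hu
        have h3 : q k ω ≤ (1 + ε) * ρ k / l0 := by
          rw [le_div_iff₀ hl0]
          have h4 : q k ω * l0 ≤ q k ω * Real.log k := mul_le_mul_of_nonneg_left r1 q0
          linarith [hω.2, mul_comm (q k ω) (Real.log k)]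
        have h5 : (1 + ε) ^ 2 * ρ k / l0 = (1 + ε) * ((1 + ε) * ρ k / l0) := by ring
        rw [h5]
        linarith
    · have ebb : b j i = 0 := by
        simp only [hb]
        rw [if_neg hjS]
      rw [ebb]
      split_ifs
      · exact q0
      · linarith
  have hwn := h1 Ω m0 P ℱ X q h B hBm τ b n (g + 1) J hstep hb01 hcond
  have hsub : NoG X q ρ ε a D J g ⊆ {ω | ∀ j < J, (∀ i < g + 1, ω ∈ B (n j + i)) ∧
      ¬ ∀ i < g + 1, X (n j + i + 1) ω = if τ i then 1 else 0} := by
    intro ω hω j hj
    obtain ⟨h2, h3⟩ := hω j hj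
    constructor
    · intro i hi
      have ek : n j + i + 1 = m j + i := by
        have := hnm j
        omega
      simp only [hB, Set.mem_setOf_eq]
      rw [ek]
      exact h2 i hi
    · intro hall
      apply h3
      have ek : ∀ i, n j + i + 1 = m j + i := by
        intro i
        have := hnm j
        omega
      refine ⟨?_, ?_, ?_⟩
      · have h4 := hall 0 (by omega)
        rw [ek 0] at h4
        have : τ 0 = true := by simp [hτ]
        rw [this, if_pos rfl] at h4
        exact h4
      · intro i hi0 hig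
        have h4 := hall i (by omega)
        rw [ek i] at h4
        have : τ i = false := by
          simp only [hτ]
          exact decide_eq_false (by omega)
        rw [this] at h4
        simpa using h4
      · have h4 := hall g (by omega)
        rw [ek g] at h4
        have : τ g = true := by simp [hτ]
        rw [this, if_pos rfl] at h4
        exact h4
  have h2 : P.real (NoG X q ρ ε a D J g) ≤ ∏ j ∈ range J, (1 - ∏ i ∈ range (g + 1), b j i) :=
    (measureReal_mono hsub).trans hwn
  refine h2.trans ?_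
  have hp01 : ∀ j ∈ range J, 0 ≤ 1 - ∏ i ∈ range (g + 1), b j i ∧
      1 - ∏ i ∈ range (g + 1), b j i ≤ 1 := by
    intro j hj
    rw [mem_range] at hj
    have p1 : ∏ i ∈ range (g + 1), b j i ≤ 1 := prod_le_one
      (fun i hi => (hb01 j hj i (mem_range.1 hi)).1) (fun i hi => (hb01 j hj i (mem_range.1 hi)).2)
    have p2 : 0 ≤ ∏ i ∈ range (g + 1), b j i :=
      prod_nonneg fun i hi => (hb01 j hj i (mem_range.1 hi)).1
    constructor <;> linarith
  have h3 : ∏ j ∈ range J, (1 - ∏ i ∈ range (g + 1), b j i) ≤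
      ∏ j ∈ S, (1 - ∏ i ∈ range (g + 1), b j i) := by
    rw [← prod_sdiff hS]
    apply mul_le_of_le_one_left
    · exact prod_nonneg fun j hj => (hp01 j (hS hj)).1
    · exact prod_le_one (fun j hj => (hp01 j (mem_sdiff.1 hj).1).1)
        (fun j hj => (hp01 j (mem_sdiff.1 hj).1).2)
  have h4 : ∏ j ∈ S, (1 - ∏ i ∈ range (g + 1), b j i) ≤ ∏ _j ∈ S, Real.exp (-Q) := by
    apply Finset.prod_le_prod
    · exact fun j hj => (hp01 j (hS hj)).1
    · intro j hj
      have p1 := hprod j (mem_range.1 (hS hj)) hj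
      have p2 := Real.add_one_le_exp (-Q)
      linarith
  have h5 : ∏ _j ∈ S, Real.exp (-Q) = Real.exp (-(S.card * Q)) := by
    rw [prod_const, ← Real.exp_nat_mul]
    congr 1
    ring
  have hg0 : (0 : ℝ) < g := by exact_mod_cast hg
  have h6 : Real.exp (-(S.card * Q)) ≤ 1 / (g : ℝ) ^ 2 := by
    have h7 : Real.exp (-(2 * Real.log g)) = 1 / (g : ℝ) ^ 2 := by
      rw [Real.exp_neg, mul_comm, Real.exp_mul, Real.exp_log hg0, one_div]
      norm_cast
    rw [← h7]
    apply Real.exp_le_exp.2
    linarith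
  exact (h3.trans h4).trans (h5.le.trans h6)

end Pool.Agent.Lib.SHG
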