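import Pool.Agent.Lib.SHG.Spec

/-! MP_9a4459_nt, project SHG, module LB: sums of the weights over blocks, slow `T`. -/

set_option autoImplicit false

namespace Pool.Agent.Lib.SHG

open Finset Filter Topology MeasureTheory
open Pool.Agent.Lib.MP_3ef1ab_nt Pool.Agent.Results.MP_9a4459_nt
open Pool.Agent.Lib.SHR hiding ShanksLaw
open scoped Classical

namespace LBM

theorem rho_nonneg (T : ℕ → ℕ) (k : ℕ) : 0 ≤ rho T k := by
  unfold rho
  split_ifs
  · exact inv_nonneg.2 (VV_pos _).le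
  · exact le_rfl

/-- blocks of length `L` -/
theorem blk (T : ℕ → ℕ) (hT : Monotone T) (B : ℕ) (e A : ℝ) (M L s : ℕ)
    (hF : ∀ z N Y : ℕ, |∑ i ∈ range Y, (if SieveFree z (N + i + 1) then (VV z)⁻¹ else 0) - (Y : ℝ)| ≤
      e * Y + ((z : ℝ) + 1) ^ B)
    (hA : 0 ≤ A) (hA2 : A ≤ (1 - e) * L - ((M : ℝ) + 1) ^ B) : ∀ h : ℕ, T (s + h * L) ≤ M →
    A * ((h : ℝ) - ((T (s + h * L) : ℝ) - T s)) ≤ ∑ i ∈ range (h * L), rho T (s + i + 1) := by
  intro h
  induction h with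
  | zero =>
    intro _
    simp
  | succ h ih =>
    intro hM
    have e1 : s + (h + 1) * L = s + h * L + L := by ring
    have hmono : T (s + h * L) ≤ T (s + h * L + L) := hT (by omega)
    rw [e1] at hM
    have h1 := ih (hmono.trans hM)
    rw [e1, show (h + 1) * L = h * L + L by ring, Finset.sum_range_add]
    have key : A * (1 - ((T (s + h * L + L) : ℝ) - T (s + h * L))) ≤
        ∑ x ∈ range L, rho T (s + (h * L + x) + 1) := by
      rcases Nat.eq_or_lt_of_le hmono with h2 | h2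
      · have h3 : ∑ x ∈ range L, rho T (s + (h * L + x) + 1) =
            ∑ x ∈ range L, (if SieveFree (T (s + h * L)) (s + h * L + x + 1) then
              (VV (T (s + h * L)))⁻¹ else 0) := by
          refine Finset.sum_congr rfl fun x hx => ?_
          have hx' : x < L := Finset.mem_range.1 hx
          have h4 : T (s + (h * L + x) + 1) = T (s + h * L) := by
            apply le_antisymm
            · rw [h2]; exact hT (by omega)
            · exact hT (by omega)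
          unfold rho
          rw [h4, show s + (h * L + x) + 1 = s + h * L + x + 1 by ring]
        have h5 := (abs_le.1 (hF (T (s + h * L)) (s + h * L) L)).1
        have h6 : ((T (s + h * L) : ℝ) + 1) ^ B ≤ ((M : ℝ) + 1) ^ B := by
          have : (T (s + h * L) : ℝ) ≤ M := by exact_mod_cast hmono.trans hM
          exact pow_le_pow_left₀ (by positivity) (by linarith) B
        rw [h3, ← h2]
        have h7 : A * (1 - ((T (s + h * L) : ℝ) - T (s + h * L))) = A := by ring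
        rw [h7]
        linarith
      · have h3 : 0 ≤ ∑ x ∈ range L, rho T (s + (h * L + x) + 1) :=
          Finset.sum_nonneg fun x _ => rho_nonneg T _
        have h4 : (T (s + h * L) : ℝ) + 1 ≤ T (s + h * L + L) := by exact_mod_cast h2
        have h5 : A * (1 - ((T (s + h * L + L) : ℝ) - T (s + h * L))) ≤ 0 :=
          mul_nonpos_of_nonneg_of_nonpos hA (by linarith)
        linarith
    have h8 : A * (((h + 1 : ℕ) : ℝ) - ((T (s + h * L + L) : ℝ) - T s)) =
        A * ((h : ℝ) - ((T (s + h * L) : ℝ) - T s)) +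
          A * (1 - ((T (s + h * L + L) : ℝ) - T (s + h * L))) := by
      push_cast
      ring
    rw [h8]
    linarith

/-- `1 + t^2 ≤ exp t` for `t ≥ 10` -/
theorem exp_ge (t : ℝ) (ht : 10 ≤ t) : 1 + t ^ 2 ≤ Real.exp t := by
  have h1 : Real.exp t = Real.exp (t / 4) ^ 4 := by
    rw [← Real.exp_nat_mul]
    congr 1
    push_cast
    ring
  have h2 : t / 4 + 1 ≤ Real.exp (t / 4) := Real.add_one_le_exp _
  have h3 : (t / 4 + 1) ^ 4 ≤ Real.exp (t / 4) ^ 4 := pow_le_pow_left₀ (by linarith) h2 4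
  have h4 : 1 + t ^ 2 ≤ (t / 4 + 1) ^ 4 := by
    obtain ⟨u, hu, rfl⟩ : ∃ u : ℝ, 0 ≤ u ∧ t = 10 + u := ⟨t - 10, by linarith, by ring⟩
    have : ((10 + u) / 4 + 1) ^ 4 - (1 + (10 + u) ^ 2) =
        (3.5 : ℝ) ^ 4 - 101 + (3.5 ^ 3 - 20) * u + (6 * 3.5 ^ 2 / 16 - 1) * u ^ 2 +
          3.5 * u ^ 3 / 16 + u ^ 4 / 256 := by ring
    have h5 : (0 : ℝ) ≤ (3.5 : ℝ) ^ 4 - 101 + (3.5 ^ 3 - 20) * u + (6 * 3.5 ^ 2 / 16 - 1) * u ^ 2 +
          3.5 * u ^ 3 / 16 + u ^ 4 / 256 := by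
      norm_num
      positivity
    linarith
  rw [h1]
  linarith

/-- the sieving limit is small: `(M + 1)^(B+1) ≤ 2^(B+1) √x` if `M ≤ x^(1/(2(B+1)))` -/
theorem small (B : ℕ) (M x : ℝ) (hM0 : 0 ≤ M) (hx : 1 ≤ x)
    (hM : M ≤ x ^ (1 / (2 * ((B : ℝ) + 1)))) : (M + 1) ^ (B + 1) ≤ 2 ^ (B + 1) * √x := by
  have hB : (0 : ℝ) < (B : ℝ) + 1 := by positivity
  have h1 : 1 ≤ x ^ (1 / (2 * ((B : ℝ) + 1))) := Real.one_le_rpow hx (by positivity)
  have h2 : M + 1 ≤ 2 * x ^ (1 / (2 * ((B : ℝ) + 1))) := by linarith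
  have h3 : (M + 1) ^ (B + 1) ≤ (2 * x ^ (1 / (2 * ((B : ℝ) + 1)))) ^ (B + 1) :=
    pow_le_pow_left₀ (by linarith) h2 _
  have h4 : (x ^ (1 / (2 * ((B : ℝ) + 1)))) ^ (B + 1) = √x := by
    rw [← Real.rpow_natCast, ← Real.rpow_mul (by linarith), Real.sqrt_eq_rpow]
    congr 1
    push_cast
    field_simp
  rw [mul_pow, h4] at h3
  exact h3

/-- numbers -/
theorem num (e t n L h M G : ℝ) (he : 0 < e) (he1 : e ≤ 1 / 4)
    (hL0 : 0 ≤ L) (ht : t / 4 ≤ L) (hLh : L ≤ h) (hn : n ≤ h * L + L) (hLn : L * L ≤ n)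
    (hM : M ≤ e * (t / 4)) (h1e : 1 ≤ e * (t / 4)) (hG : (1 - 2 * e) * L * (h - M) ≤ G) :
    (1 - 4 * e) * n ≤ G := by
  have h1 : M ≤ e * h := hM.trans (mul_le_mul_of_nonneg_left (ht.trans hLh) he.le)
  have h2 : (1 - 2 * e) * L * ((1 - e) * h) ≤ (1 - 2 * e) * L * (h - M) := by
    refine mul_le_mul_of_nonneg_left (by linarith) (mul_nonneg (by linarith) hL0)
  have h0 : 0 ≤ h * L := mul_nonneg (hL0.trans hLh) hL0
  have h3 : (1 - 3 * e) * (h * L) ≤ (1 - 2 * e) * L * ((1 - e) * h) := by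
    have : (1 - 2 * e) * L * ((1 - e) * h) - (1 - 3 * e) * (h * L) = 2 * e ^ 2 * (h * L) := by ring
    have h5 : 0 ≤ 2 * e ^ 2 * (h * L) := by positivity
    linarith
  have h4 : L ≤ e * n := by
    have h5 : 1 ≤ e * L := h1e.trans (mul_le_mul_of_nonneg_left ht he.le)
    have h6 : L * 1 ≤ L * (e * L) := mul_le_mul_of_nonneg_left h5 hL0
    have h7 : e * (L * L) ≤ e * n := mul_le_mul_of_nonneg_left hLn he.le
    linarith
  have hn0 : 0 ≤ n := le_trans (mul_nonneg hL0 hL0) hLn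
  have h5 : (1 - e) * n ≤ h * L := by linarith
  have h6 : (1 - 3 * e) * ((1 - e) * n) ≤ (1 - 3 * e) * (h * L) :=
    mul_le_mul_of_nonneg_left h5 (by linarith)
  have h7 : (1 - 3 * e) * ((1 - e) * n) - (1 - 4 * e) * n = 3 * e ^ 2 * n := by ring
  have h8 : 0 ≤ 3 * e ^ 2 * n := by positivity
  linarith

end LBM

open LBM

theorem tLB : S_LB := by
  intro hF T hT hS ε c hε hε1 hc
  obtain ⟨B, hB⟩ := hF (ε / 4) (by positivity)
  have hδ : 0 < 1 / (2 * ((B : ℝ) + 1)) := by positivity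
  have hsq : Tendsto (fun g : ℕ => √(g : ℝ)) atTop atTop :=
    Real.tendsto_sqrt_atTop.comp tendsto_natCast_atTop_atTop
  have hy : Tendsto (fun g : ℕ => ⌊Real.exp ((c + 1) * √(g : ℝ))⌋₊) atTop atTop :=
    tendsto_nat_floor_atTop.comp (Real.tendsto_exp_atTop.comp (hsq.const_mul_atTop (by linarith)))
  filter_upwards [hy.eventually (hS _ hδ), hsq.eventually_ge_atTop 10,
    hsq.eventually_ge_atTop (4 / (ε / 4)),
    hsq.eventually_ge_atTop (16 * (2 ^ (B + 1)) ^ 2 * (c + 1) / (ε / 4) ^ 2)] with g h1 h2 h3 h4 s hs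
  set t : ℝ := √(g : ℝ) with ht
  set y : ℕ := ⌊Real.exp ((c + 1) * t)⌋₊ with hyy
  set n : ℕ := nb g with hn
  set e : ℝ := ε / 4 with he
  have he0 : 0 < e := by positivity
  have hg : t ^ 2 = g := Real.sq_sqrt (Nat.cast_nonneg g)
  have hx1 : 1 ≤ (c + 1) * t := by nlinarith
  have hx0 : 0 ≤ (c + 1) * t := by linarith
  -- the point y
  have hy1 : (y : ℝ) ≤ Real.exp ((c + 1) * t) := Nat.floor_le (Real.exp_pos _).le
  have hy0 : 1 ≤ y := by
    apply Nat.le_floor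
    push_cast
    exact Real.one_le_exp hx0
  have hlog : Real.log (y : ℝ) ≤ (c + 1) * t := by
    rw [Real.log_le_iff_le_exp (by exact_mod_cast hy0)]
    exact hy1
  have hM : (T y : ℝ) ≤ ((c + 1) * t) ^ (1 / (2 * ((B : ℝ) + 1))) :=
    h1.trans (Real.rpow_le_rpow (Real.log_natCast_nonneg y) hlog hδ.le)
  have hpow := small B (T y) ((c + 1) * t) (Nat.cast_nonneg _) hx1 hM
  have hsx : 2 ^ (B + 1) * √((c + 1) * t) ≤ e * (t / 4) := by
    have h5 : √((c + 1) * t) ≤ e * (t / 4) / 2 ^ (B + 1) := by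
      rw [Real.sqrt_le_left (by positivity)]
      rw [div_pow, le_div_iff₀ (by positivity)]
      have h6 : 16 * (2 ^ (B + 1)) ^ 2 * (c + 1) ≤ t * e ^ 2 := by
        rwa [div_le_iff₀ (by positivity)] at h4
      have h7 : 16 * (2 ^ (B + 1)) ^ 2 * (c + 1) * t ≤ t * e ^ 2 * t :=
        mul_le_mul_of_nonneg_right h6 (by linarith)
      nlinarith
    calc 2 ^ (B + 1) * √((c + 1) * t) ≤ 2 ^ (B + 1) * (e * (t / 4) / 2 ^ (B + 1)) :=
          mul_le_mul_of_nonneg_left h5 (by positivity)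
      _ = e * (t / 4) := by field_simp
  have hM1 : ((T y : ℝ) + 1) ^ (B + 1) ≤ e * (t / 4) := hpow.trans hsx
  have hTy : (1 : ℝ) ≤ (T y : ℝ) + 1 := by
    have : (0 : ℝ) ≤ T y := Nat.cast_nonneg _
    linarith
  have hMB : ((T y : ℝ) + 1) ^ B ≤ e * (t / 4) :=
    (pow_le_pow_right₀ hTy (Nat.le_succ B)).trans hM1
  have hMM : (T y : ℝ) ≤ e * (t / 4) := by
    have : ((T y : ℝ) + 1) ^ 1 ≤ ((T y : ℝ) + 1) ^ (B + 1) := pow_le_pow_right₀ hTy (by omega)
    rw [pow_one] at this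
    linarith
  -- the length n
  have hgg : 100 ≤ g := by
    have : (100 : ℝ) ≤ g := by rw [← hg]; nlinarith
    exact_mod_cast this
  have hsg : (Nat.sqrt g : ℝ) ≤ t := Real.nat_sqrt_le_real_sqrt
  have hsg' : Nat.sqrt g + 1 ≤ g := by
    have : (Nat.sqrt g : ℝ) + 1 ≤ g := by rw [← hg]; nlinarith
    exact_mod_cast this
  have hnr : (n : ℝ) = g - 1 - Nat.sqrt g := by
    have : n + 1 + Nat.sqrt g = g := by rw [hn]; unfold nb; omega
    have h5 : ((n + 1 + Nat.sqrt g : ℕ) : ℝ) = g := by rw [this]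
    push_cast at h5
    linarith
  have hn4 : t ^ 2 / 4 ≤ n := by rw [hnr, ← hg]; nlinarith
  have hng : (n : ℝ) ≤ t ^ 2 := by
    rw [hnr, hg]
    have : (0 : ℝ) ≤ Nat.sqrt g := Nat.cast_nonneg _
    linarith
  -- the block length
  set L : ℕ := Nat.sqrt n with hL
  have hLn : L * L ≤ n := Nat.sqrt_le n
  have hL1 : n < (L + 1) * (L + 1) := Nat.lt_succ_sqrt n
  have hL1r : (n : ℝ) < ((L : ℝ) + 1) * ((L : ℝ) + 1) := by exact_mod_cast hL1
  have hLt : t / 4 ≤ L := by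
    by_contra hcon
    push Not at hcon
    have hL0 : (0 : ℝ) ≤ L := Nat.cast_nonneg _
    nlinarith
  have hL0 : 0 < L := by
    have : (0 : ℝ) < L := by linarith
    exact_mod_cast this
  have hLh : L ≤ n / L := (Nat.le_div_iff_mul_le hL0).2 hLn
  have hhL : n / L * L ≤ n := Nat.div_mul_le_self n L
  have hhL2 : n ≤ n / L * L + L := by
    have h5 := Nat.div_add_mod n L
    have h6 := Nat.mod_lt n hL0
    nlinarith
  -- the end of the block
  have hsy : s + n ≤ y := by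
    apply Nat.le_floor
    push_cast
    have h5 : Real.exp ((c + 1) * t) = Real.exp (c * t) * Real.exp t := by
      rw [← Real.exp_add]; congr 1; ring
    have h6 := exp_ge t h2
    have h7 : 1 ≤ Real.exp (c * t) := Real.one_le_exp (by nlinarith)
    rw [h5]
    have h8 : Real.exp (c * t) * (1 + t ^ 2) ≤ Real.exp (c * t) * Real.exp t :=
      mul_le_mul_of_nonneg_left h6 (by linarith)
    nlinarith [sq_nonneg t]
  have hTs : T (s + n / L * L) ≤ T y := hT (by omega)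
  have hA : (0 : ℝ) ≤ (1 - 2 * e) * L := mul_nonneg (by linarith) (Nat.cast_nonneg _)
  have hA2 : (1 - 2 * e) * L ≤ (1 - e) * L - ((T y : ℝ) + 1) ^ B := by
    have : e * (t / 4) ≤ e * L := mul_le_mul_of_nonneg_left hLt he0.le
    linarith
  have hblk := blk T hT B e ((1 - 2 * e) * L) (T y) L s hB hA hA2 (n / L) hTs
  have hsum : ∑ i ∈ range (n / L * L), rho T (s + i + 1) ≤ ∑ i ∈ range n, rho T (s + i + 1) :=
    Finset.sum_le_sum_of_subset_of_nonneg (Finset.range_subset_range.2 hhL)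
      (fun i _ _ => rho_nonneg T _)
  have hG : (1 - 2 * e) * (L : ℝ) * (((n / L : ℕ) : ℝ) - T y) ≤
      ∑ i ∈ range n, rho T (s + i + 1) := by
    refine le_trans (mul_le_mul_of_nonneg_left ?_ hA) (hblk.trans hsum)
    have h5 : (T (s + n / L * L) : ℝ) ≤ T y := by exact_mod_cast hTs
    have h6 : (0 : ℝ) ≤ T s := Nat.cast_nonneg _
    linarith
  have h1e : 1 ≤ e * (t / 4) := by
    have h5 : 4 / e ≤ t := h3
    rw [div_le_iff₀ he0] at h5
    linarith
  have hfin := num e t n L ((n / L : ℕ) : ℝ) (T y) _ he0 (by rw [he]; linarith)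
    (Nat.cast_nonneg _) hLt (by exact_mod_cast hLh) (by exact_mod_cast hhL2)
    (by exact_mod_cast hLn) hMM h1e hG
  have h9 : 1 - ε = 1 - 4 * e := by rw [he]; ring
  rw [h9]
  exact hfin

end Pool.Agent.Lib.SHG
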