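import Pool.Agent.Lib.SHG.Spec
import Pool.Agent.Lib.SHR.Lowd

/-! MP_9a4459_nt, part SHG, module LD2: the deterministic lower part. -/

set_option autoImplicit false

namespace Pool.Agent.Lib.SHG

open Finset Filter Topology MeasureTheory
open Pool.Agent.Lib.MP_3ef1ab_nt Pool.Agent.Results.MP_9a4459_nt
open Pool.Agent.Lib.SHR hiding ShanksLaw
open scoped Classical

theorem tLD2 : S_LD2 := by
  intro ρ x q ε c hρ0 hq0 hε0 hε1 hc0 hc hN hsum hev
  have hgap : 0 < (1 - ε) ^ 3 - c ^ 2 := by linarith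
  have hc1 : c < 1 := by
    have h1 : (1 - ε) ^ 3 ≤ 1 := pow_le_one₀ (by linarith) (by linarith)
    by_contra h2
    rw [not_lt] at h2
    nlinarith
  obtain ⟨N, hN⟩ := eventually_atTop.1 hN
  set κ : ℝ := ((1 - ε) ^ 3 - c ^ 2) / 4 with hκ
  have hκ0 : 0 < κ := div_pos hgap (by norm_num)
  have hκe : 4 * κ = (1 - ε) ^ 3 - c ^ 2 := by
    rw [hκ]
    ring
  have hsq : ∀ᶠ g : ℕ in atTop, max N 2 ≤ Nat.sqrt g := by
    filter_upwards [eventually_ge_atTop (max N 2 * max N 2)] with g hg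
    exact Nat.le_sqrt.2 hg
  filter_upwards [hev, hsum, LowdM.ev_small κ hκ0, hsq, eventually_ge_atTop 4] with g h1 h1' h2 h3 h4
  intro m hm
  by_contra hcon
  rw [not_lt] at hcon
  obtain ⟨b1, b2, b3⟩ := h2
  have hg : (0 : ℝ) < g := by
    have : 0 < g := by omega
    exact_mod_cast this
  have hs0 : 0 < √(g : ℝ) := Real.sqrt_pos.2 hg
  have hss : √(g : ℝ) * √(g : ℝ) = g := Real.mul_self_sqrt hg.le
  have hL : 0 < c * √(g : ℝ) := by positivity
  have hmg : (m : ℝ) + g ≤ Real.exp (c * √(g : ℝ)) := by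
    rw [← Real.log_le_iff_le_exp (by positivity)]
    exact hcon
  set r := Nat.sqrt g with hr
  have hrg : r * r ≤ g := Nat.sqrt_le g
  have hr2 : 2 ≤ r := (le_max_right _ _).trans h3
  have hrN : N ≤ r := (le_max_left _ _).trans h3
  have hrg1 : r + 1 ≤ g := by nlinarith
  set s := max m r with hs
  have hsm : m ≤ s := le_max_left _ _
  have hsr : r ≤ s := le_max_right _ _
  have hsub : s ≤ m + r := max_le (by omega) (by omega)
  have hsg : (s : ℝ) ≤ m + g := by
    have : s ≤ m + g := by omega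
    exact_mod_cast this
  have h5 := h1 s (hsg.trans hmg)
  have h9 := h1' s (hsg.trans hmg)
  have hnb : nb g + 1 + r = g := by
    unfold nb
    rw [← hr]
    omega
  have hlow : ∀ i ∈ range (nb g), (1 - ε) ^ 2 * (ρ (s + i + 1) / (c * √(g : ℝ))) ≤
      Real.log ε * x (s + i + 1) - (ε - 1) * q (s + i + 1) := by
    intro i hi
    rw [mem_range] at hi
    set k := s + i + 1 with hk
    have hk1 : m < k := by omega
    have hk2 : k < m + g := by
      rcases le_total m r with h6 | h6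
      · have : s = r := max_eq_right h6
        omega
      · have : s = m := max_eq_left h6
        omega
    rw [hm k hk1 hk2, mul_zero, zero_sub]
    have hk3 : N ≤ k := by omega
    have hk4 : (1 : ℝ) < k := by
      have : 1 < k := by omega
      exact_mod_cast this
    have hlogk : 0 < Real.log k := Real.log_pos hk4
    have hlogk2 : Real.log k ≤ c * √(g : ℝ) := by
      refine le_trans ?_ hcon
      apply Real.log_le_log (by linarith)
      have : k ≤ m + g := hk2.le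
      exact_mod_cast this
    have hab := hN k hk3
    have hq : (1 - ε) * (ρ k / (c * √(g : ℝ))) ≤ q k := by
      rw [← mul_div_assoc, div_le_iff₀ hL]
      have : Real.log k * q k ≤ q k * (c * √(g : ℝ)) := by
        rw [mul_comm]
        exact mul_le_mul_of_nonneg_left hlogk2 (hq0 k)
      linarith
    have := mul_le_mul_of_nonneg_left hq (show (0 : ℝ) ≤ 1 - ε by linarith)
    have h6 : (1 - ε) * ((1 - ε) * (ρ k / (c * √(g : ℝ)))) =
        (1 - ε) ^ 2 * (ρ k / (c * √(g : ℝ))) := by ring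
    linarith
  have h6 := sum_le_sum hlow
  have h7 : ∑ i ∈ range (nb g), (1 - ε) ^ 2 * (ρ (s + i + 1) / (c * √(g : ℝ))) =
      ((1 - ε) ^ 2 * ∑ i ∈ range (nb g), ρ (s + i + 1)) / (c * √(g : ℝ)) := by
    rw [← mul_sum, ← sum_div, mul_div_assoc]
  rw [h7] at h6
  have h8 := lt_of_le_of_lt h6 h5
  rw [div_lt_iff₀ hL] at h8
  have hrr : (r : ℝ) ≤ √(g : ℝ) := Real.nat_sqrt_le_real_sqrt
  have hnbr : (nb g : ℝ) = g - 1 - r := by
    have : ((nb g + 1 + r : ℕ) : ℝ) = g := by rw [hnb]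
    push_cast at this
    linarith
  have h11 : (1 - ε) ^ 3 * (g - 1 - √(g : ℝ)) ≤ (1 - ε) ^ 2 * ∑ i ∈ range (nb g), ρ (s + i + 1) := by
    have h12 : (1 - ε) ^ 2 * ((1 - ε) * (nb g : ℝ)) ≤
        (1 - ε) ^ 2 * ∑ i ∈ range (nb g), ρ (s + i + 1) :=
      mul_le_mul_of_nonneg_left h9 (by positivity)
    have h13 : (1 - ε) ^ 3 * (g - 1 - √(g : ℝ)) ≤ (1 - ε) ^ 3 * (nb g : ℝ) := by
      apply mul_le_mul_of_nonneg_left _ (pow_nonneg (by linarith) 3)
      rw [hnbr]
      linarith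
    have h14 : (1 - ε) ^ 3 * (nb g : ℝ) = (1 - ε) ^ 2 * ((1 - ε) * (nb g : ℝ)) := by ring
    linarith
  have h12 : (c * √(g : ℝ) + 2 * Real.log g) * (c * √(g : ℝ)) =
      c ^ 2 * g + 2 * c * (√(g : ℝ) * Real.log g) := by
    have : (c * √(g : ℝ) + 2 * Real.log g) * (c * √(g : ℝ)) =
        c ^ 2 * (√(g : ℝ) * √(g : ℝ)) + 2 * c * (√(g : ℝ) * Real.log g) := by ring
    rw [this, hss]
  rw [h12] at h8
  have h13 : 2 * c * (√(g : ℝ) * Real.log g) ≤ 2 * c * (κ * g) :=
    mul_le_mul_of_nonneg_left b3 (by linarith)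
  have h14 : (1 - ε) ^ 3 * (1 + √(g : ℝ)) ≤ 2 * (κ * g) := by
    have h15 : (1 - ε) ^ 3 ≤ 1 := pow_le_one₀ (by linarith) (by linarith)
    have h16 : (1 - ε) ^ 3 * (1 + √(g : ℝ)) ≤ 1 * (1 + √(g : ℝ)) :=
      mul_le_mul_of_nonneg_right h15 (by linarith)
    linarith
  have h20 : 2 * c * (κ * g) ≤ 2 * (κ * g) := by
    have h21 : 0 < κ * (g : ℝ) := by positivity
    nlinarith
  have h21 : ((1 - ε) ^ 3 - c ^ 2) * g = 4 * κ * g := by rw [hκe]
  have h22 : (1 - ε) ^ 3 * (g - 1 - √(g : ℝ)) =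
      (1 - ε) ^ 3 * g - (1 - ε) ^ 3 * (1 + √(g : ℝ)) := by ring
  linarith

end Pool.Agent.Lib.SHG
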