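import Pool.Agent.Lib.SHG.Spec

/-! MP_9a4459_nt, directory Lib/SHG, module MDL: the model. -/

set_option autoImplicit false

namespace Pool.Agent.Lib.SHG

open Finset Filter Topology MeasureTheory
open Pool.Agent.Lib.MP_3ef1ab_nt Pool.Agent.Results.MP_9a4459_nt
open Pool.Agent.Lib.SHR hiding ShanksLaw
open scoped Classical

theorem tMDL.{u} : S_MDL.{u} := by
  intro Ω m0 P _ ℱ A T hM
  refine ⟨mod_of hM.meas, ?_⟩
  intro ε hε
  have h1 : ∀ᵐ ω ∂P, ∀ k : ℕ, (P[Xi A (k + 1) | ℱ k]) ω = Qc P ℱ A (k + 1) ω :=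
    ae_all_iff.2 (fun k => Qc_ae hM.meas k)
  have h2 : ∀ᵐ ω ∂P, ∀ k : ℕ, ¬ SieveFree (T (k + 1)) (k + 1) →
      (P[Xi A (k + 1) | ℱ k]) ω = 0 := by
    rw [ae_all_iff]
    intro k
    by_cases hk : SieveFree (T (k + 1)) (k + 1)
    · exact Eventually.of_forall (fun ω h => absurd hk h)
    · have hX : Xi A (k + 1) = 0 := by
        funext ω
        unfold Xi
        rw [hM.free _ hk]
        simp
      have h0 : P[Xi A (k + 1) | ℱ k] = 0 := by
        rw [hX]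
        exact condExp_zero
      exact Eventually.of_forall (fun ω _ => by rw [h0]; rfl)
  filter_upwards [h1, h2, hM.dens] with ω k1 k2 k3
  obtain ⟨K, hK⟩ := eventually_atTop.1 (k3 ε hε)
  rw [eventually_atTop]
  refine ⟨K + 1, fun k hk => ?_⟩
  obtain ⟨n, rfl⟩ : ∃ n, k = n + 1 := ⟨k - 1, by omega⟩
  have hn := hK n (by omega)
  unfold rho
  by_cases hf : SieveFree (T (n + 1)) (n + 1)
  · rw [if_pos hf]
    have h4 := hn hf
    have h5 : 0 < VV (T (n + 1)) := VV_pos _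
    change |VV (T (n + 1)) * Real.log ((n + 1 : ℕ) : ℝ) * (P[Xi A (n + 1) | ℱ n]) ω - 1| ≤ ε at h4
    rw [k1 n, abs_le] at h4
    obtain ⟨h6, h7⟩ := h4
    constructor
    · rw [← div_eq_mul_inv, div_le_iff₀ h5]
      nlinarith [h6]
    · rw [← div_eq_mul_inv, le_div_iff₀ h5]
      nlinarith [h7]
  · rw [if_neg hf, ← k1 n, k2 n hf]
    simp

end Pool.Agent.Lib.SHG
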