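import Pool.Agent.Lib.SHG.Spec

/-! MP_9a4459_nt, project SHG: module NM1, the numerics for windows with slow `T`. -/

set_option autoImplicit false

namespace Pool.Agent.Lib.SHG

open Finset Filter Topology MeasureTheory
open Pool.Agent.Lib.MP_3ef1ab_nt Pool.Agent.Results.MP_9a4459_nt
open Pool.Agent.Lib.SHR hiding ShanksLaw
open scoped Classical

namespace NM1M

theorem sqrt_tends : Tendsto (fun g : ℕ => √(g : ℝ)) atTop atTop :=
  Real.tendsto_sqrt_atTop.comp tendsto_natCast_atTop_atTop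

/-- a polynomial is at most an exponential -/
theorem poly_exp (C a : ℝ) (ha : 0 < a) : ∀ᶠ x : ℝ in atTop, C * x ^ 4 ≤ Real.exp (a * x) := by
  have h1 := (isLittleO_pow_exp_pos_mul_atTop 4 ha).bound
    (show (0 : ℝ) < 1 / (|C| + 1) by positivity)
  filter_upwards [h1, eventually_ge_atTop (0 : ℝ)] with x hx hx0
  rw [Real.norm_of_nonneg (by positivity), Real.norm_of_nonneg (Real.exp_pos _).le,
    div_mul_eq_mul_div, one_mul, le_div_iff₀ (by positivity)] at hx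
  have h2 : C ≤ |C| + 1 := (le_abs_self C).trans (by linarith)
  calc C * x ^ 4 ≤ (|C| + 1) * x ^ 4 := mul_le_mul_of_nonneg_right h2 (by positivity)
    _ = x ^ 4 * (|C| + 1) := mul_comm _ _
    _ ≤ Real.exp (a * x) := hx

/-- the main comparison -/
theorem main_exp (c0 c1 : ℝ) (h0 : 0 ≤ c0) (h : c0 < c1) : ∀ᶠ x : ℝ in atTop,
    6 * (x ^ 2 + 1) ^ 2 * Real.exp (c0 * x + 2 * √x) + 1 ≤ Real.exp (c1 * x) := by
  have ha : 0 < (c1 - c0) / 2 := by linarith
  filter_upwards [poly_exp 25 ((c1 - c0) / 2) ha, eventually_ge_atTop (1 : ℝ),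
    Real.tendsto_sqrt_atTop.eventually_ge_atTop (4 / (c1 - c0))] with x h1 hx1 h2
  have hpos : 0 < c1 - c0 := by linarith
  rw [div_le_iff₀ hpos] at h2
  have hs : √x * √x = x := Real.mul_self_sqrt (by linarith)
  have hs0 : 0 ≤ √x := Real.sqrt_nonneg x
  have h3 : 2 * √x ≤ (c1 - c0) / 2 * x := by
    nlinarith [mul_le_mul_of_nonneg_right h2 hs0]
  have h5 : 1 ≤ x ^ 2 := one_le_pow₀ hx1
  have h5' : 1 ≤ x ^ 4 := one_le_pow₀ hx1
  have h4 : 6 * (x ^ 2 + 1) ^ 2 ≤ 24 * x ^ 4 := by nlinarith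
  have h6 : Real.exp (c0 * x + 2 * √x) ≤ Real.exp (c0 * x + (c1 - c0) / 2 * x) :=
    Real.exp_le_exp.2 (by linarith)
  have h7 : Real.exp (c1 * x) =
      Real.exp ((c1 - c0) / 2 * x) * Real.exp (c0 * x + (c1 - c0) / 2 * x) := by
    rw [← Real.exp_add]
    congr 1
    ring
  have hE1 : 1 ≤ Real.exp (c0 * x + (c1 - c0) / 2 * x) := by
    apply Real.one_le_exp
    have h8 : 0 ≤ c0 * x := mul_nonneg h0 (by linarith)
    have h9 : 0 ≤ (c1 - c0) / 2 * x := mul_nonneg ha.le (by linarith)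
    linarith
  set E := Real.exp (c0 * x + (c1 - c0) / 2 * x) with hE
  calc 6 * (x ^ 2 + 1) ^ 2 * Real.exp (c0 * x + 2 * √x) + 1
      ≤ 24 * x ^ 4 * E + x ^ 4 * E :=
        add_le_add (mul_le_mul h4 h6 (Real.exp_pos _).le (by positivity))
          (one_le_mul_of_one_le_of_one_le h5' hE1)
    _ = 25 * x ^ 4 * E := by ring
    _ ≤ Real.exp ((c1 - c0) / 2 * x) * E := mul_le_mul_of_nonneg_right h1 (by linarith)
    _ = Real.exp (c1 * x) := h7.symm

/-- `M + 1 ≤ (√g)^κ` -/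
theorem small_M (T : ℕ → ℕ) (hT : Slow T) (c c1 κ : ℝ) (hκ : 0 < κ) (h1 : 1 ≤ c1) (hc : c1 < c) :
    ∀ᶠ g : ℕ in atTop, ∀ v M : ℕ, v = ⌊Real.exp (c1 * √(g : ℝ))⌋₊ → M = T (2 * v) →
      (M : ℝ) + 1 ≤ √(g : ℝ) ^ κ := by
  obtain ⟨K, hK⟩ := eventually_atTop.1 (hT (κ / 2) (by linarith))
  have e1 : ∀ᶠ x : ℝ in atTop, c ^ (κ / 2) + 1 ≤ x ^ (κ / 2) :=
    (tendsto_rpow_atTop (by linarith : 0 < κ / 2)).eventually_ge_atTop _
  filter_upwards [sqrt_tends.eventually (e1.and ((eventually_ge_atTop (Real.log 2 / (c - c1))).and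
    ((eventually_ge_atTop (K : ℝ)).and (eventually_ge_atTop (1 : ℝ)))))]
    with g hg v M hv hM
  obtain ⟨g1, g2, g3, g4⟩ := hg
  set s := √(g : ℝ) with hs
  rw [div_le_iff₀ (by linarith)] at g2
  have hexp : s ≤ Real.exp (c1 * s) := by
    have h2 : s ≤ c1 * s := le_mul_of_one_le_left (by linarith) h1
    have h3 := Real.add_one_le_exp (c1 * s)
    linarith
  have hKv : K ≤ v := by
    rw [hv]
    exact Nat.le_floor (g3.trans hexp)
  have hv1 : 1 ≤ v := by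
    rw [hv]
    apply Nat.le_floor
    rw [Nat.cast_one]
    linarith
  have h4 := hK (2 * v) (by omega)
  rw [← hM] at h4
  have hvle : (v : ℝ) ≤ Real.exp (c1 * s) := by
    rw [hv]
    exact Nat.floor_le (Real.exp_pos _).le
  have hv1' : (1 : ℝ) ≤ v := by exact_mod_cast hv1
  have h5 : Real.log ((2 * v : ℕ) : ℝ) ≤ c * s := by
    rw [Real.log_le_iff_le_exp (by push_cast; linarith)]
    push_cast
    calc 2 * (v : ℝ) ≤ Real.exp (Real.log 2) * Real.exp (c1 * s) := by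
          rw [Real.exp_log (by norm_num)]
          linarith
      _ = Real.exp (Real.log 2 + c1 * s) := (Real.exp_add _ _).symm
      _ ≤ Real.exp (c * s) := Real.exp_le_exp.2 (by linarith)
  have h6 : 0 ≤ Real.log ((2 * v : ℕ) : ℝ) := Real.log_natCast_nonneg _
  have h7 : Real.log ((2 * v : ℕ) : ℝ) ^ (κ / 2) ≤ (c * s) ^ (κ / 2) :=
    Real.rpow_le_rpow h6 h5 (by linarith)
  rw [Real.mul_rpow (by linarith) (by linarith)] at h7
  have h8 : s ^ κ = s ^ (κ / 2) * s ^ (κ / 2) := by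
    rw [← Real.rpow_add (by linarith)]
    congr 1
    ring
  have h9 : 0 ≤ c ^ (κ / 2) := Real.rpow_nonneg (by linarith) _
  have h10 : 1 ≤ s ^ (κ / 2) := by linarith
  rw [h8]
  have h11 : (c ^ (κ / 2) + 1) * s ^ (κ / 2) ≤ s ^ (κ / 2) * s ^ (κ / 2) :=
    mul_le_mul_of_nonneg_right g1 (by linarith)
  rw [add_mul, one_mul] at h11
  linarith

theorem four_le : (4 : ℝ) ≤ Real.exp 2 := by
  have h5 := Real.add_one_le_exp (1 : ℝ)
  have h6 : Real.exp 2 = Real.exp 1 * Real.exp 1 := by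
    rw [← Real.exp_add]
    norm_num
  nlinarith

/-- the number of windows -/
theorem six (v M W g : ℕ) (E Z : ℝ) (hE : 1 ≤ E) (hW1 : 1 ≤ W) (hWZ : (W : ℝ) ≤ Z) (hMg : M ≤ g)
    (hX : 6 * ((g : ℝ) + 1) ^ 2 * (E * Z) ≤ v) :
    E ≤ (((v / (M + 1) - 2 * W - g) / (W * (g + 1)) : ℕ) : ℝ) := by
  have hg0 : (0 : ℝ) ≤ g := Nat.cast_nonneg g
  have hM0 : (0 : ℝ) ≤ M := Nat.cast_nonneg M
  have hMg' : (M : ℝ) ≤ g := Nat.cast_le.2 hMg
  have hW1' : (1 : ℝ) ≤ W := by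
    rw [← Nat.cast_one]
    exact Nat.cast_le.2 hW1
  have h1 : v < (v / (M + 1)) * (M + 1) + (M + 1) := Nat.lt_div_mul_add (Nat.succ_pos M)
  have h2 : v / (M + 1) ≤ (v / (M + 1) - 2 * W - g) + 2 * W + g := by omega
  have h3 : v / (M + 1) - 2 * W - g < (v / (M + 1) - 2 * W - g) / (W * (g + 1)) * (W * (g + 1)) +
      W * (g + 1) := Nat.lt_div_mul_add (Nat.mul_pos hW1 (Nat.succ_pos g))
  generalize (v / (M + 1) - 2 * W - g) / (W * (g + 1)) = J at *
  generalize v / (M + 1) - 2 * W - g = d at *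
  generalize v / (M + 1) = q at *
  have r1 : (v : ℝ) < (q : ℝ) * (M + 1) + (M + 1) := by exact_mod_cast h1
  have r2 : (q : ℝ) ≤ (d : ℝ) + 2 * W + g := by exact_mod_cast h2
  have r3 : (d : ℝ) < (J : ℝ) * (W * (g + 1)) + W * (g + 1) := by exact_mod_cast h3
  by_contra hcon
  rw [not_le] at hcon
  have hWg : 1 ≤ (W : ℝ) * (g + 1) := one_le_mul_of_one_le_of_one_le hW1' (by linarith)
  have hWg1 : (W : ℝ) ≤ W * (g + 1) := le_mul_of_one_le_right (by linarith) (by linarith)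
  have hWg2 : (g : ℝ) + 1 ≤ W * (g + 1) := le_mul_of_one_le_left (by linarith) hW1'
  have hEW : (W : ℝ) * (g + 1) ≤ E * (W * (g + 1)) := le_mul_of_one_le_left (by linarith) hE
  have n4 : (J : ℝ) * (W * (g + 1)) ≤ E * (W * (g + 1)) :=
    mul_le_mul_of_nonneg_right hcon.le (by linarith)
  have n5 : (q : ℝ) + 1 < 6 * (E * (W * (g + 1))) := by linarith
  have n6 : ((q : ℝ) + 1) * (M + 1) ≤ (6 * (E * (W * (g + 1)))) * (g + 1) :=
    mul_le_mul n5.le (by linarith) (by linarith) (by linarith)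
  have n7 : E * (W * ((g : ℝ) + 1)) ≤ E * (Z * (g + 1)) :=
    mul_le_mul_of_nonneg_left (mul_le_mul_of_nonneg_right hWZ (by linarith)) (by linarith)
  have n8 : (6 * (E * (W * ((g : ℝ) + 1)))) * (g + 1) ≤ (6 * (E * (Z * (g + 1)))) * (g + 1) :=
    mul_le_mul_of_nonneg_right (by linarith) (by linarith)
  have n9 : (6 * (E * (Z * ((g : ℝ) + 1)))) * (g + 1) = 6 * ((g : ℝ) + 1) ^ 2 * (E * Z) := by ring
  have n10 : (q : ℝ) * (M + 1) + (M + 1) = ((q : ℝ) + 1) * (M + 1) := by ring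
  linarith

/-- the numerical inequality at the end -/
theorem seven (ε c c0 s G : ℝ) (he1 : ε < 1) (hc0 : 1 < c0) (hc : 1 < c) (hs : 1 ≤ s)
    (hG : G = s * s) (hlog : Real.log G ≤ G)
    (a7 : 2 * c ^ 2 / (1 - ε) ^ 2 * s ^ 4 ≤ Real.exp ((c0 - (1 + ε) ^ 3 / c0) * s)) :
    2 * Real.log G ≤ Real.exp (c0 * s) * (((1 - ε) / (c * s)) ^ 2 *
      Real.exp (-((1 + ε) ^ 2 * ((1 + ε) * G) / (c0 * s)))) := by
  have s0 : s ≠ 0 := by linarith
  have c00 : c0 ≠ 0 := by linarith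
  have cc0 : c ≠ 0 := by linarith
  have e0 : 1 - ε ≠ 0 := by linarith
  have h1 : (1 + ε) ^ 2 * ((1 + ε) * G) / (c0 * s) = (1 + ε) ^ 3 / c0 * s := by
    rw [hG]
    field_simp
  rw [h1]
  have h2 : Real.exp (c0 * s) * (((1 - ε) / (c * s)) ^ 2 * Real.exp (-((1 + ε) ^ 3 / c0 * s))) =
      ((1 - ε) / (c * s)) ^ 2 * Real.exp ((c0 - (1 + ε) ^ 3 / c0) * s) := by
    rw [show (c0 - (1 + ε) ^ 3 / c0) * s = c0 * s + -((1 + ε) ^ 3 / c0 * s) by ring, Real.exp_add]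
    ring
  rw [h2]
  have h3 : ((1 - ε) / (c * s)) ^ 2 * (2 * c ^ 2 / (1 - ε) ^ 2 * s ^ 4) = 2 * (s * s) := by
    field_simp
  calc 2 * Real.log G ≤ 2 * G := by linarith
    _ = ((1 - ε) / (c * s)) ^ 2 * (2 * c ^ 2 / (1 - ε) ^ 2 * s ^ 4) := by rw [h3, ← hG]
    _ ≤ _ := mul_le_mul_of_nonneg_left a7 (sq_nonneg _)

end NM1M

open NM1M

theorem tNM1 : S_NM1 := by
  intro B T _ hT ε c he he1 hc
  have hc1 : 1 < c := by
    have h : (1 : ℝ) ≤ (1 + ε) ^ 3 := one_le_pow₀ (by linarith)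
    linarith
  have hc0 : 1 < √c := by
    rw [show (1 : ℝ) = √1 by rw [Real.sqrt_one]]
    exact Real.sqrt_lt_sqrt (by norm_num) hc1
  have hcc : √c * √c = c := Real.mul_self_sqrt (by linarith)
  have hc0c : √c < c := by nlinarith
  set c0 := √c with hc0def
  set c1 := (c0 + c) / 2 with hc1def
  have k1 : c0 < c1 := by rw [hc1def]; linarith
  have k2 : c1 < c := by rw [hc1def]; linarith
  have hβ : (1 + ε) ^ 3 / c0 < c0 := by
    rw [div_lt_iff₀ (by linarith)]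
    linarith
  have f1 := small_M T hT c c1 (1 / (B + 1)) (by positivity) (by linarith) k2
  have f2 := small_M T hT c c1 (1 / 2) (by norm_num) (by linarith) k2
  have e1 : ∀ᶠ x : ℝ in atTop, 2 / ε ≤ x := eventually_ge_atTop _
  have e3 : ∀ᶠ x : ℝ in atTop, Real.log 2 / (c - c1) ≤ x := eventually_ge_atTop _
  have e4 : ∀ᶠ x : ℝ in atTop, (1 + ε) ^ 2 / (ε * c0) ≤ √x :=
    Real.tendsto_sqrt_atTop.eventually_ge_atTop _
  have e6 := main_exp c0 c1 (by linarith) k1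
  have e7 := poly_exp (2 * c ^ 2 / (1 - ε) ^ 2) (c0 - (1 + ε) ^ 3 / c0) (by linarith)
  filter_upwards [f1, f2, sqrt_tends.eventually (e1.and (e3.and (e4.and (e6.and (e7.and
    (eventually_ge_atTop (1 : ℝ)))))))] with g g1 g2 hg v M hv hM
  obtain ⟨a1, a3, a4, a6, a7, a8⟩ := hg
  replace g1 := g1 v M hv hM
  replace g2 := g2 v M hv hM
  have hgs : (g : ℝ) = √(g : ℝ) * √(g : ℝ) := (Real.mul_self_sqrt (Nat.cast_nonneg g)).symm
  have hg1 : (1 : ℝ) ≤ g := by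
    rw [hgs]
    exact one_le_mul_of_one_le_of_one_le a8 a8
  have hsq := Real.nat_sqrt_le_real_sqrt (a := g)
  have hlogg : Real.log (g : ℝ) ≤ g := 
    (Real.log_le_sub_one_of_pos (by linarith)).trans (by linarith)
  set s := √(g : ℝ) with hs
  have hM0 : (0 : ℝ) ≤ M := Nat.cast_nonneg M
  have hexp : s ≤ Real.exp (c1 * s) := by
    have h2 : s ≤ c1 * s := le_mul_of_one_le_left (by linarith) (by linarith)
    have h3 := Real.add_one_le_exp (c1 * s)
    linarith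
  have hvle : (v : ℝ) ≤ Real.exp (c1 * s) := by
    rw [hv]
    exact Nat.floor_le (Real.exp_pos _).le
  have hvge : Real.exp (c1 * s) - 1 < v := by
    rw [hv]
    exact Nat.sub_one_lt_floor _
  have hv1 : 1 ≤ v := by
    rw [hv]
    apply Nat.le_floor
    rw [Nat.cast_one]
    linarith
  have hv1' : (1 : ℝ) ≤ v := by exact_mod_cast hv1
  have hsq1 : s ^ (1 / 2 : ℝ) = √s := (Real.sqrt_eq_rpow s).symm
  rw [hsq1] at g2
  have hss : √s * √s = s := Real.mul_self_sqrt (by linarith)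
  have hs1 : 1 ≤ √s := by
    rw [show (1 : ℝ) = √1 by rw [Real.sqrt_one]]
    exact Real.sqrt_le_sqrt a8
  have hsle : √s ≤ s := (le_mul_of_one_le_left (by linarith) hs1).trans_eq hss
  have hE0 : 1 ≤ Real.exp (c0 * s) := Real.one_le_exp (by positivity)
  have hE2 : 1 ≤ Real.exp (2 * √s) := Real.one_le_exp (by positivity)
  have hs2 : 1 ≤ (s ^ 2 + 1) ^ 2 := one_le_pow₀ (by linarith [sq_nonneg s])
  refine ⟨?_, ?_, ?_, ?_, ?_, ?_, ?_, ?_, ?_⟩
  · -- (1)
    have h1 : ((M : ℝ) + 1) ^ B ≤ (s ^ (1 / ((B : ℝ) + 1))) ^ B :=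
      pow_le_pow_left₀ (by linarith) g1 B
    have h2 : (s ^ (1 / ((B : ℝ) + 1))) ^ B = s ^ (1 / ((B : ℝ) + 1) * B) := by
      rw [Real.rpow_mul (by linarith), Real.rpow_natCast]
    have h3 : s ^ (1 / ((B : ℝ) + 1) * B) ≤ s ^ (1 : ℝ) := by
      apply Real.rpow_le_rpow_of_exponent_le a8
      rw [one_div, inv_mul_le_iff₀ (by positivity)]
      linarith
    rw [Real.rpow_one] at h3
    rw [div_le_iff₀ he] at a1
    rw [hgs]
    calc ((M : ℝ) + 1) ^ B ≤ s := h1.trans (h2.trans_le h3)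
      _ = 1 * s := (one_mul s).symm
      _ ≤ (s * ε / 2) * s := mul_le_mul_of_nonneg_right (by linarith) (by linarith)
      _ = ε / 2 * (s * s) := by ring
  · -- (2)
    rw [Real.le_log_iff_exp_le (by linarith)]
    have h1 : Real.exp (c0 * s) ≤ Real.exp (c0 * s + 2 * √s) :=
      Real.exp_le_exp.2 (by linarith)
    have h2 : Real.exp (c0 * s + 2 * √s) ≤ 6 * (s ^ 2 + 1) ^ 2 * Real.exp (c0 * s + 2 * √s) :=
      le_mul_of_one_le_left (Real.exp_pos _).le (by linarith)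
    linarith
  · -- (3)
    rw [div_le_iff₀ (by linarith)] at a3
    rw [Real.log_le_iff_le_exp (by linarith)]
    calc 2 * (v : ℝ) ≤ Real.exp (Real.log 2) * Real.exp (c1 * s) := by
          rw [Real.exp_log (by norm_num)]
          linarith
      _ = Real.exp (Real.log 2 + c1 * s) := (Real.exp_add _ _).symm
      _ ≤ Real.exp (c * s) := Real.exp_le_exp.2 (by linarith)
  · -- (4)
    rw [div_le_iff₀ (by positivity)] at a4
    rw [div_mul_eq_mul_div, le_div_iff₀ (by linarith)]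
    calc (1 + ε) * ((M : ℝ) + 1) * (1 + ε) = (1 + ε) ^ 2 * ((M : ℝ) + 1) := by ring
      _ ≤ √s * (ε * c0) * √s := mul_le_mul a4 g2 (by linarith) (by positivity)
      _ = ε * (c0 * (√s * √s)) := by ring
      _ = ε * (c0 * s) := by rw [hss]
  · -- (5)
    exact g2.trans (hsle.trans (le_mul_of_one_le_left (by linarith) hc1.le))
  · -- (6)
    intro W hW1 hW
    have hW1' : (1 : ℝ) ≤ W := by exact_mod_cast hW1
    have hWle : (W : ℝ) ≤ Real.exp (2 * √s) := by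
      have h1 : (W : ℝ) ≤ (4 : ℝ) ^ M := by exact_mod_cast hW
      have h2 : (4 : ℝ) ^ M ≤ Real.exp (2 * M) := by
        rw [mul_comm, Real.exp_nat_mul]
        exact pow_le_pow_left₀ (by norm_num) four_le M
      exact h1.trans (h2.trans (Real.exp_le_exp.2 (by linarith)))
    have n8 : M ≤ g := by
      have h1 : (M : ℝ) ≤ g := by
        have h2 : s ≤ s * s := le_mul_of_one_le_left (by linarith) a8
        linarith
      exact Nat.cast_le.1 h1
    refine six v M W g _ _ hE0 hW1 hWle n8 ?_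
    have hg2 : (g : ℝ) + 1 = s ^ 2 + 1 := by rw [hgs]; ring
    rw [hg2, ← Real.exp_add]
    linarith
  · -- (7)
    exact seven ε c c0 s g he1 hc0 hc1 a8 hgs hlogg a7
  · -- (8)
    rw [hv]
    exact Nat.le_floor (hsq.trans hexp)
  · -- (9)
    exact_mod_cast hg1

end Pool.Agent.Lib.SHG
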