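import Pool.Agent.Lib.SHG.Spec
import Pool.Agent.Lib.SHK.NumA

/-! MP_9a4459_nt, project SHG, module NM3: numerics for (R3). -/

set_option autoImplicit false

namespace Pool.Agent.Lib.SHG

open Finset Filter Topology MeasureTheory
open Pool.Agent.Lib.MP_3ef1ab_nt Pool.Agent.Results.MP_9a4459_nt
open Pool.Agent.Lib.SHR hiding ShanksLaw
open scoped Classical

namespace NM3M

theorem prim (y : ℕ) (t : ℝ) (h : (y : ℝ) ≤ t) :
    ((primorial y : ℕ) : ℝ) ≤ Real.exp (7 / 5 * t) := by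
  have h0 : (0 : ℝ) ≤ y := Nat.cast_nonneg y
  have h1 : ((primorial y : ℕ) : ℝ) ≤ (4 : ℝ) ^ y := by
    exact_mod_cast primorial_le_four_pow y
  have h2 : (4 : ℝ) ^ y = Real.exp (y * Real.log 4) := by
    rw [Real.exp_nat_mul, Real.exp_log (by norm_num)]
  have h3 : Real.log 4 ≤ 7 / 5 := by
    have : (4 : ℝ) = 2 ^ 2 := by norm_num
    rw [this, Real.log_pow]
    have := Real.log_two_lt_d9
    push_cast
    linarith
  refine h1.trans ?_
  rw [h2]
  apply Real.exp_le_exp.mpr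
  have h4 := mul_le_mul_of_nonneg_left h3 h0
  linarith only [h4, h]

/-- polynomials are smaller than exponential functions -/
theorem ev (k : ℕ) (b C : ℝ) (hb : 0 < b) (hC : 0 < C) :
    ∀ᶠ s : ℝ in atTop, s ^ k ≤ C * Real.exp (b * s) := by
  have := (isLittleO_pow_exp_pos_mul_atTop (k := k) (b := b) hb).bound (c := C) hC
  filter_upwards [this, eventually_ge_atTop (0 : ℝ)] with s hs hs0
  rwa [Real.norm_of_nonneg (by positivity), Real.norm_of_nonneg (Real.exp_pos _).le] at hs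

/-- the choice of `ε` -/
theorem eps (K c0 : ℝ) (hK : 0 < K) (h : K < c0 ^ 2) :
    ∃ ε : ℝ, 0 < ε ∧ ε < 1 / 2 ∧ (1 + ε) ^ 5 * K < c0 ^ 2 := by
  refine ⟨min (1 / 4) ((c0 ^ 2 - K) / (62 * K)),
    lt_min (by norm_num) (div_pos (by linarith) (by positivity)),
    lt_of_le_of_lt (min_le_left _ _) (by norm_num), ?_⟩
  set ε : ℝ := min (1 / 4) ((c0 ^ 2 - K) / (62 * K)) with hε
  have h1 : ε ≤ 1 / 4 := min_le_left _ _
  have h2 : ε ≤ (c0 ^ 2 - K) / (62 * K) := min_le_right _ _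
  have h0 : 0 < ε := lt_min (by norm_num) (div_pos (by linarith) (by positivity))
  have h3 : ε * (62 * K) ≤ c0 ^ 2 - K := by rwa [le_div_iff₀ (by positivity)] at h2
  have h4 : (1 + ε) ^ 5 ≤ 1 + 31 * ε := by
    have e2 : ε ^ 2 ≤ ε := by nlinarith
    have e3 : ε ^ 3 ≤ ε := by nlinarith [sq_nonneg ε]
    have e4 : ε ^ 4 ≤ ε := by nlinarith [sq_nonneg ε, pow_pos h0 3]
    have e5 : ε ^ 5 ≤ ε := by nlinarith [sq_nonneg ε, pow_pos h0 3, pow_pos h0 4]
    have e6 : (1 + ε) ^ 5 = 1 + 5 * ε + 10 * ε ^ 2 + 10 * ε ^ 3 + 5 * ε ^ 4 + ε ^ 5 := by ring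
    linarith
  have h5 := mul_le_mul_of_nonneg_right h4 hK.le
  nlinarith

/-- the quotient -/
theorem quot (c1 η s : ℝ) (g M y v : ℕ) (hg : (g : ℝ) = s ^ 2) (hM : M ≤ g ^ 5)
    (hy : (y : ℝ) ≤ η * s) (hv : Real.exp (c1 * s) / 2 ≤ v)
    (q1 : (s ^ 10 + 1) * Real.exp ((c1 - 3 / 5 * η) * s) ≤ Real.exp (c1 * s) / 8)
    (q2 : (s ^ 10 + 1) * (3 * Real.exp (7 / 5 * (η * s))) ≤ Real.exp (c1 * s) / 8)
    (q3 : (s ^ 10 + 1) * s ^ 2 ≤ Real.exp (c1 * s) / 8) :
    Real.exp ((c1 - 2 * η) * s) ≤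
      (((v / (M + 1) - 2 * primorial y - g) / primorial y : ℕ) : ℝ) := by
  by_contra hcon
  rw [not_le] at hcon
  set P : ℕ := primorial y with hP
  have hPpos : 0 < P := primorial_pos _
  have hPle : (P : ℝ) ≤ Real.exp (7 / 5 * (η * s)) := prim _ _ hy
  set q : ℕ := v / (M + 1) with hq
  set N : ℕ := (q - 2 * P - g) / P with hN
  have n1 : v < (M + 1) * (q + 1) := Nat.lt_mul_div_succ v (Nat.succ_pos M)
  have n2 : q - 2 * P - g < P * (N + 1) := Nat.lt_mul_div_succ _ hPpos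
  have n3 : q + 1 ≤ P * (N + 1) + 2 * P + g := by omega
  have n4 : v ≤ (M + 1) * (P * (N + 3) + g) := by
    have : (M + 1) * (q + 1) ≤ (M + 1) * (P * (N + 3) + g) := by
      apply Nat.mul_le_mul_left
      have : P * (N + 3) = P * (N + 1) + 2 * P := by ring
      omega
    omega
  have r1 : (v : ℝ) ≤ ((M : ℝ) + 1) * ((P : ℝ) * ((N : ℝ) + 3) + g) := by exact_mod_cast n4
  have r2 : (M : ℝ) ≤ s ^ 10 := by
    have : (M : ℝ) ≤ (g : ℝ) ^ 5 := by exact_mod_cast hM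
    rw [hg] at this
    calc (M : ℝ) ≤ (s ^ 2) ^ 5 := this
      _ = s ^ 10 := by ring
  have r3 : (P : ℝ) * ((N : ℝ) + 3) ≤
      Real.exp ((c1 - 3 / 5 * η) * s) + 3 * Real.exp (7 / 5 * (η * s)) := by
    have e1 : (P : ℝ) * ((N : ℝ) + 3) ≤
        Real.exp (7 / 5 * (η * s)) * (Real.exp ((c1 - 2 * η) * s) + 3) := by
      have : (0 : ℝ) ≤ (N : ℝ) := Nat.cast_nonneg _
      gcongr
    have e2 : Real.exp (7 / 5 * (η * s)) * Real.exp ((c1 - 2 * η) * s) =
        Real.exp ((c1 - 3 / 5 * η) * s) := by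
      rw [← Real.exp_add]
      congr 1
      ring
    linarith
  have r4 : ((M : ℝ) + 1) * ((P : ℝ) * ((N : ℝ) + 3) + g) ≤
      (s ^ 10 + 1) * ((Real.exp ((c1 - 3 / 5 * η) * s) + 3 * Real.exp (7 / 5 * (η * s))) + s ^ 2) := by
    rw [← hg]
    have : (0 : ℝ) ≤ (P : ℝ) * ((N : ℝ) + 3) := by positivity
    gcongr
  have r5 := Real.exp_pos (c1 * s)
  linarith

/-- the last inequality -/
theorem fin (c0 c1 ε η K c' s D : ℝ) (g : ℕ) (hg : (g : ℝ) = s ^ 2) (hs : 1 ≤ s) (hc0 : 0 < c0)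
    (hε0 : 0 < ε) (hε : ε < 1 / 2) (hc' : 0 < c') (hD : D = c1 - 2 * η - (1 + ε) ^ 5 * K / c0)
    (h : s ^ 3 ≤ c' / 16 * Real.exp (D * s)) :
    2 * Real.log g ≤ c' * Real.exp ((c1 - 2 * η) * s) * (((1 - ε) / s) ^ 2 *
      Real.exp (-((1 + ε) ^ 5 * K * g / (c0 * s)))) := by
  have hs0 : 0 < s := by linarith
  have e1 : -((1 + ε) ^ 5 * K * g / (c0 * s)) = -((1 + ε) ^ 5 * K / c0 * s) := by
    rw [hg]
    field_simp
  have e2 : Real.exp ((c1 - 2 * η) * s) * Real.exp (-((1 + ε) ^ 5 * K / c0 * s)) =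
      Real.exp (D * s) := by
    rw [← Real.exp_add, hD]
    congr 1
    ring
  have e3 : c' * Real.exp ((c1 - 2 * η) * s) * (((1 - ε) / s) ^ 2 *
      Real.exp (-((1 + ε) ^ 5 * K * g / (c0 * s)))) = c' * Real.exp (D * s) * ((1 - ε) / s) ^ 2 := by
    rw [e1, ← e2]
    ring
  rw [e3]
  have e4 : 1 / 4 / s ^ 2 ≤ ((1 - ε) / s) ^ 2 := by
    rw [div_pow]
    gcongr
    nlinarith
  have e5 : Real.log g ≤ 2 * s := by
    rw [hg, Real.log_pow]
    have := Real.log_le_sub_one_of_pos hs0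
    push_cast
    linarith
  have e6 : 0 < Real.exp (D * s) := Real.exp_pos _
  calc 2 * Real.log g ≤ 4 * s := by linarith
    _ = 16 * s ^ 3 * (1 / 4 / s ^ 2) := by
        field_simp
        norm_num
    _ ≤ c' * Real.exp (D * s) * (1 / 4 / s ^ 2) :=
        mul_le_mul_of_nonneg_right (by linarith) (by positivity)
    _ ≤ c' * Real.exp (D * s) * ((1 - ε) / s) ^ 2 := by gcongr

end NM3M

open NM3M in
theorem tNM3 : S_NM3 := by
  intro a c ha hκ hc1
  set K : ℝ := Real.exp Real.eulerMascheroniConstant / 2 with hK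
  have hK2 : 1 / 2 < K := by
    have h1 := Real.one_half_lt_eulerMascheroniConstant
    have h2 := Real.add_one_le_exp Real.eulerMascheroniConstant
    rw [hK]
    linarith
  have hK0 : 0 < K := by linarith
  have hκ2 : 1 / 2 < √K := by
    rw [Real.lt_sqrt (by norm_num)]
    linarith
  obtain ⟨c0, h0a, h0b⟩ := exists_between hκ
  obtain ⟨c1, h1a, h1b⟩ := exists_between h0b
  have hc0 : 1 / 2 < c0 := by linarith
  have hKc : K < c0 ^ 2 := by
    have := Real.lt_sq_of_sqrt_lt h0a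
    exact this
  obtain ⟨ε, hε0, hε, hε5⟩ := eps K c0 hK0 hKc
  obtain ⟨η, hη0, hη1, hη2, hη3⟩ : ∃ η : ℝ, 0 < η ∧ η ≤ 1 / 10 ∧ η ≤ a * c0 ∧ η ≤ (c1 - c0) / 8 :=
    ⟨min (1 / 10) (min (a * c0) ((c1 - c0) / 8)),
      lt_min (by norm_num) (lt_min (by positivity) (by linarith)), min_le_left _ _,
      (min_le_right _ _).trans (min_le_left _ _), (min_le_right _ _).trans (min_le_right _ _)⟩
  refine ⟨c0, c1, ε, η, hc0, h1a, h1b, hε0, hε, hη0, hη1, hη2, fun c' R0 y0 hc' => ?_⟩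
  obtain ⟨D, hD⟩ : ∃ D : ℝ, D = c1 - 2 * η - (1 + ε) ^ 5 * K / c0 := ⟨_, rfl⟩
  have hDpos : 0 < D := by
    have : (1 + ε) ^ 5 * K / c0 < c0 := by
      rw [div_lt_iff₀ (by linarith)]
      nlinarith
    rw [hD]
    linarith
  have hsq : Tendsto (fun g : ℕ => √(g : ℝ)) atTop atTop :=
    Real.tendsto_sqrt_atTop.comp tendsto_natCast_atTop_atTop
  have t0 := hsq.eventually (eventually_ge_atTop (1 : ℝ))
  have t1 := hsq.eventually ((tendsto_id.const_mul_atTop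
    (show 0 < c1 - c0 by linarith)).eventually_ge_atTop (1 : ℝ))
  have t2 := hsq.eventually ((tendsto_id.const_mul_atTop
    (show 0 < c - c1 by linarith)).eventually_ge_atTop (1 : ℝ))
  have t3 := hsq.eventually (ev 10 (3 / 5 * η) (1 / 16) (by positivity) (by norm_num))
  have t4 := hsq.eventually (ev 0 (3 / 5 * η) (1 / 16) (by positivity) (by norm_num))
  have t5 := hsq.eventually (ev 10 (c1 - 7 / 5 * η) (1 / 48) (by linarith) (by norm_num))
  have t6 := hsq.eventually (ev 0 (c1 - 7 / 5 * η) (1 / 48) (by linarith) (by norm_num))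
  have t7 := hsq.eventually (ev 12 c1 (1 / 16) (by linarith) (by norm_num))
  have t8 := hsq.eventually (ev (10 * R0) (c1 - 2 * η) 1 (by linarith) one_pos)
  have t9 := hsq.eventually (ev 3 D (c' / 16) hDpos (by positivity))
  have t10 := hsq.eventually (ev 0 c1 (1 / 2) (by linarith) (by norm_num))
  obtain ⟨g0, hg0⟩ := Pool.Agent.Lib.SHK.tNumA c1 η (by linarith) (by linarith) hη0 hη1 0 y0
  filter_upwards [t0, t1, t2, t3, t4, t5, t6, t7, t8, t9, t10, eventually_ge_atTop g0] with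
    g s0 s1 s2 s3 s4 s5 s6 s7 s8 s9 s10 hg
  obtain ⟨a1, a2, a3, a4, a5, a6, a7, a8, a9, a10, a11, a12⟩ := hg0 g hg
  have hgs : (g : ℝ) = √(g : ℝ) ^ 2 := (Real.sq_sqrt (Nat.cast_nonneg g)).symm
  have hfin := fin c0 c1 ε η K c' (√(g : ℝ)) D g hgs s0 (by linarith) hε0 hε hc' hD s9
  refine ⟨a1, a2, a3, a4, a5, a7, a10, ?_, ?_, ?_, ?_, hfin⟩
  all_goals
    clear hfin a1 a2 a3 a4 a5 a6 a7 a8 a9 a10 a11 a12 hg hg0
  all_goals
    generalize hs : √(g : ℝ) = s at *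
    simp only [id_eq, pow_zero] at s0 s1 s2 s3 s4 s5 s6 s7 s8 s9 s10
    have hs0 : 0 < s := by linarith
    have hfl : Real.exp (c1 * s) / 2 ≤ (⌊Real.exp (c1 * s)⌋₊ : ℝ) := by
      have := Nat.lt_floor_add_one (Real.exp (c1 * s))
      linarith
    have hfu : (⌊Real.exp (c1 * s)⌋₊ : ℝ) ≤ Real.exp (c1 * s) := Nat.floor_le (Real.exp_pos _).le
    have hl2 := Real.log_two_lt_d9
    have hepos := Real.exp_pos (c1 * s)
  · have := Real.log_le_log (by positivity) hfl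
    rw [Real.log_div hepos.ne' (by norm_num), Real.log_exp] at this
    linarith
  · have := Real.log_le_log (by linarith) (mul_le_mul_of_nonneg_left hfu (by norm_num : (0 : ℝ) ≤ 2))
    rw [Real.log_mul (by norm_num) hepos.ne', Real.log_exp] at this
    linarith
  · intro M hM
    refine quot c1 η s g M _ _ hgs hM (Nat.floor_le (by positivity)) hfl ?_ ?_ ?_
    · have e1 : Real.exp (c1 * s) = Real.exp (3 / 5 * η * s) * Real.exp ((c1 - 3 / 5 * η) * s) := by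
        rw [← Real.exp_add]
        congr 1
        ring
      have e2 := mul_le_mul_of_nonneg_right (show s ^ 10 + 1 ≤ 1 / 8 * Real.exp (3 / 5 * η * s) by
        linarith) (Real.exp_pos ((c1 - 3 / 5 * η) * s)).le
      rw [e1]
      linarith
    · have e1 : Real.exp (c1 * s) = Real.exp ((c1 - 7 / 5 * η) * s) * Real.exp (7 / 5 * (η * s)) := by
        rw [← Real.exp_add]
        congr 1
        ring
      have e2 := mul_le_mul_of_nonneg_right
        (show s ^ 10 + 1 ≤ 1 / 24 * Real.exp ((c1 - 7 / 5 * η) * s) by linarith)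
        (Real.exp_pos (7 / 5 * (η * s))).le
      rw [e1]
      linarith
    · have e1 : s ^ 2 ≤ s ^ 12 := pow_le_pow_right₀ s0 (by norm_num)
      have e2 : (s ^ 10 + 1) * s ^ 2 = s ^ 12 + s ^ 2 := by ring
      linarith
  · rw [hgs, ← pow_mul, ← pow_mul]
    have : 2 * (5 * R0) = 10 * R0 := by ring
    rw [this]
    linarith

end Pool.Agent.Lib.SHG
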