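import Pool.Agent.Lib.SHG.Spec

/-! MP_9a4459_nt, part SHG, module UP2: Borel-Cantelli for the upper part. -/

set_option autoImplicit false

namespace Pool.Agent.Lib.SHG

open Finset Filter Topology MeasureTheory
open Pool.Agent.Lib.MP_3ef1ab_nt Pool.Agent.Results.MP_9a4459_nt
open Pool.Agent.Lib.SHR hiding ShanksLaw
open scoped Classical ENNReal

theorem tUP2.{u} (h1 : S_GW.{u}) : S_UP2.{u} := by
  intro Ω m0 P _ ℱ X q h ρ ε c Adm hρ hε0 hε1 hlim hwin
  obtain ⟨G0, hG0⟩ := eventually_atTop.1 hwin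
  have hdata : ∀ g : ℕ, ∃ V : Set Ω, P V ≤ ENNReal.ofReal (1 / (g : ℝ) ^ 2) ∧
      (max G0 1 ≤ g → Adm g → ∃ a D J : ℕ, Nat.sqrt g ≤ a ∧
        V = NoG X q ρ ε a D J g ∧
        Real.log ((a + D * J + g : ℕ) : ℝ) ≤ c * √(g : ℝ)) := by
    intro g
    by_cases hg : max G0 1 ≤ g ∧ Adm g
    · obtain ⟨hg1, hg2⟩ := hg
      obtain ⟨a, D, J, S, r, R, l0, l1, w1, w2, w3, w4, w5, w6, w7, w8, w9, w10⟩ :=
        hG0 g ((le_max_left _ _).trans hg1) hg2
      have hgp : 1 ≤ g := (le_max_right _ _).trans hg1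
      have hsq : 1 ≤ Nat.sqrt g := Nat.le_sqrt.2 (by omega)
      refine ⟨NoG X q ρ ε a D J g, ?_, fun _ _ => ⟨a, D, J, w1, rfl, w10⟩⟩
      have h2 := h1 Ω m0 P ℱ X q h ρ ε g a D J S r R l0 l1 hρ hε0 hε1 hgp (hsq.trans w1) w2 w3 w4 w5
        w6 w7 w8 w9
      rw [← ofReal_measureReal]
      exact ENNReal.ofReal_le_ofReal h2
    · refine ⟨∅, ?_, fun h2 h3 => absurd ⟨h2, h3⟩ hg⟩
      rw [measure_empty]
      exact zero_le
  choose V hV1 hV2 using hdata
  have hs : (∑' g : ℕ, P (V g)) ≠ ∞ := by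
    have h2 : (∑' g : ℕ, ENNReal.ofReal (1 / (g : ℝ) ^ 2)) ≠ ∞ :=
      (Real.summable_one_div_nat_pow.2 (by norm_num)).tsum_ofReal_ne_top
    exact ne_top_of_le_ne_top h2 (ENNReal.tsum_le_tsum hV1)
  filter_upwards [ae_eventually_notMem hs, hlim] with ω hω hl
  obtain ⟨N, hN⟩ := eventually_atTop.1 hl
  have hsqN : ∀ᶠ g : ℕ in atTop, N ≤ Nat.sqrt g := by
    filter_upwards [eventually_ge_atTop (N * N)] with g hg
    exact Nat.le_sqrt.2 hg
  filter_upwards [hω, hsqN, eventually_ge_atTop (max G0 1)] with g h2 h3 h4 hadm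
  obtain ⟨a, D, J, w1, w2, w3⟩ := hV2 g h4 hadm
  rw [w2] at h2
  simp only [NoG, Set.mem_setOf_eq, not_forall] at h2
  obtain ⟨j, hj, h5⟩ := h2
  have h6 : ∀ i < g + 1, (1 - ε) * ρ (a + D * j + i) ≤
      Real.log ((a + D * j + i : ℕ) : ℝ) * q (a + D * j + i) ω ∧
      Real.log ((a + D * j + i : ℕ) : ℝ) * q (a + D * j + i) ω ≤
        (1 + ε) * ρ (a + D * j + i) := by
    intro i _
    have h7 : N ≤ a + D * j + i := by
      have : N ≤ a := h3.trans w1
      omega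
    exact hN _ h7
  have h8 : X (a + D * j) ω = 1 ∧ (∀ i, 0 < i → i < g → X (a + D * j + i) ω = 0) ∧
      X (a + D * j + g) ω = 1 := by
    by_contra hcon
    exact h5 ⟨h6, hcon⟩
  obtain ⟨b1, b2, b3⟩ := h8
  have hg1 : 1 ≤ g := (le_max_right _ _).trans h4
  refine ⟨a + D * j, b1, ?_, b3, ?_⟩
  · intro k hk1 hk2
    obtain ⟨i, rfl⟩ : ∃ i, k = a + D * j + i := ⟨k - (a + D * j), by omega⟩
    exact b2 i (by omega) (by omega)
  · refine le_trans ?_ w3
    apply Real.log_le_log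
    · have : 0 < a + D * j + g := by omega
      exact_mod_cast this
    · have h9 : D * j ≤ D * J := Nat.mul_le_mul_left _ hj.le
      have h10 : a + D * j + g ≤ a + D * J + g := by omega
      exact_mod_cast h10

end Pool.Agent.Lib.SHG
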