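import Pool.Agent.Lib.SHG.Spec

/-! MP_9a4459_nt, SHG, module VB: `1 ≤ (VV z)⁻¹ ≤ z + 1` and `(VV z)⁻¹ ≤ C (1 + log (z+1))`. -/

set_option autoImplicit false

namespace Pool.Agent.Lib.SHG

open Finset Filter Topology MeasureTheory
open Pool.Agent.Lib.MP_3ef1ab_nt Pool.Agent.Results.MP_9a4459_nt
open Pool.Agent.Lib.SHR hiding ShanksLaw
open scoped Classical

namespace VBM

theorem VV_le_one (z : ℕ) : VV z ≤ 1 := by
  unfold VV
  apply prod_le_one
  · intro p hp
    simp only [mem_filter] at hp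
    have h2 : (2 : ℝ) ≤ p := by exact_mod_cast hp.2.two_le
    have : 1 / (p : ℝ) ≤ 1 / 2 := one_div_le_one_div_of_le (by norm_num) h2
    linarith
  · intro p hp
    have : (0 : ℝ) ≤ 1 / (p : ℝ) := by positivity
    linarith

theorem VV_zero : VV 0 = 1 := by
  unfold VV
  simp

theorem VV_one : VV 1 = 1 := by
  unfold VV
  have : (Icc 1 1).filter Nat.Prime = ∅ := by
    ext k
    simp only [mem_filter, mem_Icc, notMem_empty, iff_false]
    rintro ⟨h1, h2⟩
    have := h2.two_le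
    omega
  rw [this, prod_empty]

theorem VV_succ (z : ℕ) : VV (z + 1) = VV z ∨
    VV (z + 1) = (1 - 1 / ((z + 1 : ℕ) : ℝ)) * VV z := by
  have h1 : Icc 1 (z + 1) = insert (z + 1) (Icc 1 z) := by
    ext k
    simp only [mem_Icc, mem_insert]
    omega
  by_cases hp : Nat.Prime (z + 1)
  · right
    have h2 : (z + 1) ∉ (Icc 1 z).filter Nat.Prime := by
      simp only [mem_filter, mem_Icc]
      omega
    unfold VV
    rw [h1, filter_insert, if_pos hp, prod_insert h2]
  · left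
    unfold VV
    rw [h1, filter_insert, if_neg hp]

theorem VV_ge (z : ℕ) (hz : 1 ≤ z) : 1 / (z : ℝ) ≤ VV z := by
  induction z, hz using Nat.le_induction with
  | base => rw [VV_one]; norm_num
  | succ z hz ih =>
    have hz0 : (1 : ℝ) ≤ z := by exact_mod_cast hz
    rcases VV_succ z with h | h
    · rw [h]
      refine le_trans ?_ ih
      push_cast
      apply one_div_le_one_div_of_le <;> linarith
    · rw [h]
      have h3 : (0 : ℝ) ≤ 1 - 1 / ((z + 1 : ℕ) : ℝ) := by
        have : 1 / ((z + 1 : ℕ) : ℝ) ≤ 1 := by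
          rw [div_le_one (by positivity)]
          push_cast
          linarith
        linarith
      have h4 : (1 - 1 / ((z + 1 : ℕ) : ℝ)) * (1 / (z : ℝ)) ≤
          (1 - 1 / ((z + 1 : ℕ) : ℝ)) * VV z := mul_le_mul_of_nonneg_left ih h3
      refine le_trans (le_of_eq ?_) h4
      push_cast
      field_simp
      ring

theorem inv_le (z : ℕ) : (VV z)⁻¹ ≤ (z : ℝ) + 1 := by
  rcases Nat.eq_zero_or_pos z with h | h
  · rw [h, VV_zero]; norm_num
  · have h1 := VV_ge z h
    have h2 : (1 : ℝ) ≤ z := by exact_mod_cast h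
    have h3 : (VV z)⁻¹ ≤ (1 / (z : ℝ))⁻¹ := inv_anti₀ (by positivity) h1
    rw [one_div, inv_inv] at h3
    linarith

end VBM

theorem tVB : S_VB := by
  intro hM
  refine ⟨fun z => ⟨(one_le_inv₀ (VV_pos z)).2 (VBM.VV_le_one z), VBM.inv_le z⟩, ?_⟩
  obtain ⟨c, hc, hlim⟩ := hM
  have h1 : ∀ᶠ z : ℕ in atTop, c / 2 < VV z * Real.log z :=
    hlim.eventually (lt_mem_nhds (by linarith))
  obtain ⟨Z, hZ⟩ := eventually_atTop.1 h1
  refine ⟨2 / c + Z + 1, by positivity, ?_⟩
  intro z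
  have hz0 : (0 : ℝ) ≤ z := Nat.cast_nonneg z
  have hZ0 : (0 : ℝ) ≤ Z := Nat.cast_nonneg Z
  have hl0 : 0 ≤ Real.log ((z : ℝ) + 1) := Real.log_nonneg (by linarith)
  have hc2 : 0 < 2 / c := by positivity
  rcases lt_or_ge z Z with h | h
  · have h2 := VBM.inv_le z
    have h3 : (z : ℝ) + 1 ≤ Z := by exact_mod_cast h
    nlinarith [mul_nonneg hc2.le hl0, mul_nonneg hZ0 hl0]
  · have h2 := hZ z h
    have hp := VV_pos z
    have h3 : (VV z)⁻¹ ≤ 2 / c * Real.log z := by
      rw [inv_le_iff_one_le_mul₀ hp]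
      have h4 : 2 / c * (c / 2) ≤ 2 / c * (VV z * Real.log z) :=
        mul_le_mul_of_nonneg_left h2.le hc2.le
      have h5 : 2 / c * (c / 2) = 1 := by field_simp
      nlinarith
    have h6 : Real.log z ≤ Real.log ((z : ℝ) + 1) := by
      rcases Nat.eq_zero_or_pos z with h7 | h7
      · rw [h7]; simp
      · exact Real.log_le_log (by exact_mod_cast h7) (by linarith)
    have h7 : 2 / c * Real.log z ≤ 2 / c * Real.log ((z : ℝ) + 1) :=
      mul_le_mul_of_nonneg_left h6 hc2.le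
    nlinarith [mul_nonneg hc2.le hl0, mul_nonneg hZ0 hl0]

end Pool.Agent.Lib.SHG
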