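import Pool.Agent.Lib.SHG.Spec

/-! MP_9a4459_nt, SHG, module WA (helper64): windows for a slow sieving limit. -/

set_option autoImplicit false

namespace Pool.Agent.Lib.SHG

open Finset Filter Topology MeasureTheory
open Pool.Agent.Lib.MP_3ef1ab_nt Pool.Agent.Results.MP_9a4459_nt
open Pool.Agent.Lib.SHR hiding ShanksLaw
open scoped Classical

namespace WAM

theorem dvd_primorial {p z : ℕ} (hp : p.Prime) (hz : p ≤ z) : p ∣ primorial z := by
  unfold primorial
  exact Finset.dvd_prod_of_mem _ (Finset.mem_filter.2 ⟨Finset.mem_range.2 (by omega), hp⟩)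

/-- a class for each prime -/
def cl (g p : ℕ) : ℕ := if p ∣ 1 + g then 2 else 1

theorem cl_ok {g p : ℕ} (hg : Even g) (hp : p.Prime) : ¬ p ∣ cl g p ∧ ¬ p ∣ cl g p + g := by
  unfold cl
  have h1 : ¬ p ∣ 1 := hp.one_lt.ne' ∘ Nat.dvd_one.1
  split_ifs with h
  · have h2 : p ≠ 2 := by
      rintro rfl
      obtain ⟨m, hm⟩ := hg
      omega
    refine ⟨fun h3 => ?_, fun h3 => ?_⟩
    · exact h2 ((Nat.prime_dvd_prime_iff_eq hp Nat.prime_two).1 h3)
    · have h4 : p ∣ (2 + g) - (1 + g) := Nat.dvd_sub h3 h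
      have h5 : (2 + g) - (1 + g) = 1 := by omega
      rw [h5] at h4
      exact h1 h4
  · exact ⟨h1, h⟩

theorem exists_b (z g : ℕ) (h : Even g ∨ z ≤ 1) :
    ∃ b < primorial z, ∀ p : ℕ, p.Prime → p ≤ z → ¬ p ∣ b ∧ ¬ p ∣ b + g := by
  rcases h with hg | hz
  · have hs : ∀ p ∈ (range (z + 1)).filter Nat.Prime, (fun p : ℕ => p) p ≠ 0 := by
      intro p hp
      exact (Finset.mem_filter.1 hp).2.ne_zero
    have pp : Set.Pairwise (((range (z + 1)).filter Nat.Prime : Finset ℕ) : Set ℕ)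
        (Function.onFun Nat.Coprime (fun p : ℕ => p)) := by
      intro p hp q hq hpq
      have hp' := (Finset.mem_filter.1 (Finset.mem_coe.1 hp)).2
      have hq' := (Finset.mem_filter.1 (Finset.mem_coe.1 hq)).2
      exact (Nat.coprime_primes hp' hq').2 hpq
    refine ⟨Nat.chineseRemainderOfFinset (cl g) (fun p : ℕ => p)
      ((range (z + 1)).filter Nat.Prime) hs pp, ?_, ?_⟩
    · exact Nat.chineseRemainderOfFinset_lt_prod (cl g) (fun p : ℕ => p) hs pp
    · intro p hp hz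
      have h1 := (Nat.chineseRemainderOfFinset (cl g) (fun p : ℕ => p)
        ((range (z + 1)).filter Nat.Prime) hs pp).2 p
        (Finset.mem_filter.2 ⟨Finset.mem_range.2 (by omega), hp⟩)
      obtain ⟨h2, h3⟩ := cl_ok hg hp
      refine ⟨fun h4 => h2 ?_, fun h4 => h3 ?_⟩
      · exact (h1.dvd_iff dvd_rfl).1 h4
      · exact ((h1.add_right g).dvd_iff dvd_rfl).1 h4
  · refine ⟨0, primorial_pos z, fun p hp hpz => ?_⟩
    exact absurd hp.two_le (by omega)

theorem free_add {z b n : ℕ} (h : ∀ p : ℕ, p.Prime → p ≤ z → ¬ p ∣ b) (hn : primorial z ∣ n) :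
    SieveFree z (n + b) := by
  intro p hp hz h1
  have h2 : p ∣ n := (dvd_primorial hp hz).trans hn
  exact h p hp hz ((Nat.dvd_add_right h2).1 h1)

end WAM

open WAM in
theorem tWA (h1 : S_CB) (h2 : S_VB) (h3 : S_NM1) : S_WA := by
  intro hFL hMer T hT hS ε c hε hε1 hc
  obtain ⟨B, hB⟩ := hFL (ε / 2) (by positivity)
  obtain ⟨hVB, -⟩ := h2 hMer
  have hc1 : 1 < c := by
    have : (1 : ℝ) ≤ (1 + ε) ^ 3 := one_le_pow₀ (by linarith)
    linarith
  filter_upwards [h3 B T hT hS ε c hε hε1 hc] with g hg hor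
  obtain ⟨v, hv⟩ : ∃ v : ℕ, v = ⌊Real.exp ((√c + c) / 2 * √(g : ℝ))⌋₊ := ⟨_, rfl⟩
  obtain ⟨M, hM⟩ : ∃ M : ℕ, M = T (2 * v) := ⟨_, rfl⟩
  obtain ⟨n1, n2, n3, n4, n5, n6, n7, n8, n9⟩ := hg v M hv hM
  obtain ⟨l, hl⟩ : ∃ l : ℕ, l = v / (M + 1) := ⟨_, rfl⟩
  have hlv : (M + 1) * l ≤ v := by
    rw [hl]
    exact Nat.mul_div_le v (M + 1)
  have hTM : T (v + (M + 1) * l) ≤ T (2 * v) := hT (by omega)
  obtain ⟨i, hiM, hconst⟩ := h1 T hT v l M (hTM.trans hM.ge)
  have hil : (i + 1) * l ≤ (M + 1) * l := Nat.mul_le_mul_right _ (by omega)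
  have hil' : (i + 1) * l = i * l + l := by ring
  obtain ⟨u, hu⟩ : ∃ u, u = v + i * l := ⟨_, rfl⟩
  have huv : v ≤ u := by omega
  have hul : u + l ≤ 2 * v := by omega
  have hTu : ∀ k, u ≤ k → k ≤ u + l → T k = T u := by
    intro k hk1 hk2
    rw [hu]
    exact hconst k (by omega) (by omega)
  obtain ⟨z, hz⟩ : ∃ z, z = T u := ⟨_, rfl⟩
  have hTu2 : T u ≤ T (2 * v) := hT (by omega)
  have hzM : z ≤ M := by
    rw [hz]
    exact hTu2.trans hM.ge
  have hW1 : 1 ≤ primorial z := primorial_pos z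
  have hW2 : primorial z ≤ 4 ^ M :=
    (primorial_le_four_pow z).trans (Nat.pow_le_pow_right (by norm_num) hzM)
  obtain ⟨b, hbW, hb⟩ := exists_b z g (hor.imp_right fun h => by rw [hz]; exact h u)
  obtain ⟨W, hWdef⟩ : ∃ W, W = primorial z := ⟨_, rfl⟩
  rw [← hWdef] at hW1 hW2 hbW
  have hJr := n6 W hW1 hW2
  obtain ⟨D, hD⟩ : ∃ D, D = W * (g + 1) := ⟨_, rfl⟩
  rw [← hl, ← hD] at hJr
  obtain ⟨J, hJ⟩ : ∃ J, J = (l - 2 * W - g) / D := ⟨_, rfl⟩
  rw [← hJ] at hJr
  have hJ0 : 0 < J := by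
    have : (0 : ℝ) < (J : ℝ) := lt_of_lt_of_le (Real.exp_pos _) hJr
    exact_mod_cast this
  have hDJ : D * J ≤ l - 2 * W - g := by
    rw [hJ]
    exact Nat.mul_div_le _ _
  have hgD : g < D := by
    rw [hD]
    nlinarith
  have hDJ0 : 0 < D * J := Nat.mul_pos (by omega) hJ0
  obtain ⟨a, ha⟩ : ∃ a, a = W * (u / W + 1) + b := ⟨_, rfl⟩
  have hua : u ≤ a := by
    have := Nat.lt_mul_div_succ u hW1
    rw [ha]
    omega
  have hau : a ≤ u + 2 * W := by
    have := Nat.mul_div_le u W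
    rw [ha, Nat.mul_add, Nat.mul_one]
    omega
  have hend : a + D * J + g ≤ u + l := by omega
  -- the logarithms
  have hg1 : (1 : ℝ) ≤ (g : ℝ) := by exact_mod_cast n9
  have hsg : 0 < √(g : ℝ) := Real.sqrt_pos.2 (by linarith)
  have hsc : 0 < √c := Real.sqrt_pos.2 (by linarith)
  have hl0 : 0 < √c * √(g : ℝ) := by positivity
  have hv0 : 0 < v := by
    rcases Nat.eq_zero_or_pos v with h | h
    · rw [h] at n2
      simp at n2
      linarith
    · exact h
  have hlog : ∀ k : ℕ, a ≤ k → k ≤ a + D * J + g →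
      √c * √(g : ℝ) ≤ Real.log k ∧ Real.log k ≤ c * √(g : ℝ) := by
    intro k hk1 hk2
    have hvk : v ≤ k := by omega
    have hk2v : k ≤ 2 * v := by omega
    have e1 : Real.log v ≤ Real.log k :=
      Real.log_le_log (by exact_mod_cast hv0) (by exact_mod_cast hvk)
    have e2 : Real.log k ≤ Real.log (2 * (v : ℝ)) :=
      Real.log_le_log (by exact_mod_cast (lt_of_lt_of_le hv0 hvk)) (by exact_mod_cast hk2v)
    exact ⟨n2.trans e1, e2.trans n3⟩
  have hVz1 := (hVB z).1
  have hVzM : (VV z)⁻¹ ≤ (M : ℝ) + 1 := by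
    have h5 := (hVB z).2
    have h6 : (z : ℝ) ≤ M := by exact_mod_cast hzM
    linarith
  have hrho : ∀ k, u ≤ k → k ≤ u + l →
      rho T k = if SieveFree z k then (VV z)⁻¹ else 0 := by
    intro k hk1 hk2
    unfold rho
    rw [hTu k hk1 hk2, ← hz]
  have hrhole : ∀ k, u ≤ k → k ≤ u + l → rho T k ≤ (M : ℝ) + 1 := by
    intro k hk1 hk2
    rw [hrho k hk1 hk2]
    split_ifs
    · exact hVzM
    · positivity
  have hjJ : ∀ j ∈ range J, a + D * j + g ≤ u + l := by
    intro j hj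
    have : D * j ≤ D * J := Nat.mul_le_mul_left _ (Finset.mem_range.1 hj).le
    omega
  refine ⟨a, D, J, range J, (VV z)⁻¹, (1 + ε) * g, √c * √(g : ℝ), c * √(g : ℝ),
    n8.trans (huv.trans hua), hgD, Finset.Subset.refl _, by linarith, hl0, ?_, ?_, ?_, ?_, ?_⟩
  · intro j hj
    have hjl := hjJ j hj
    have hWd : primorial z ∣ W * (u / W + 1) + D * j := by
      rw [← hWdef, hD]
      exact dvd_add (dvd_mul_right _ _) ((dvd_mul_right _ _).mul_right _)
    refine ⟨?_, ?_, ?_⟩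
    · have h5 : SieveFree z (a + D * j) := by
        have := free_add (b := b) (fun p hp hpz => (hb p hp hpz).1) hWd
        have e : a + D * j = W * (u / W + 1) + D * j + b := by rw [ha]; ring
        rw [e]
        exact this
      rw [hrho _ (by omega) (by omega), if_pos h5]
    · have h5 : SieveFree z (a + D * j + g) := by
        have := free_add (b := b + g) (fun p hp hpz => (hb p hp hpz).2) hWd
        have e : a + D * j + g = W * (u / W + 1) + D * j + (b + g) := by rw [ha]; ring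
        rw [e]
        exact this
      rw [hrho _ (by omega) (by omega), if_pos h5]
    · have e1 : Ioo 0 g = Ico 1 g := by
        ext x
        simp only [Finset.mem_Ioo, Finset.mem_Ico]
        omega
      rw [e1, Finset.sum_Ico_eq_sum_range]
      have e2 : ∑ i ∈ range (g - 1), rho T (a + D * j + (1 + i)) =
          ∑ i ∈ range (g - 1), (if SieveFree z (a + D * j + i + 1) then (VV z)⁻¹ else 0) := by
        apply Finset.sum_congr rfl
        intro i hi
        have hi' := Finset.mem_range.1 hi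
        have e3 : a + D * j + (1 + i) = a + D * j + i + 1 := by ring
        rw [e3, hrho _ (by omega) (by omega)]
      rw [e2]
      have h5 := (abs_le.1 (hB z (a + D * j) (g - 1))).2
      have h6 : ((g - 1 : ℕ) : ℝ) ≤ g := by exact_mod_cast Nat.sub_le g 1
      have h7 : ((z : ℝ) + 1) ^ B ≤ ((M : ℝ) + 1) ^ B := by
        have : (z : ℝ) ≤ M := by exact_mod_cast hzM
        gcongr
      have h8 : (0 : ℝ) ≤ ((g - 1 : ℕ) : ℝ) := Nat.cast_nonneg _
      nlinarith
  · intro k hk1 hk2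
    refine ⟨(hlog k hk1 hk2).1, (hlog k hk1 hk2).2, ?_⟩
    have h5 := hrhole k (by omega) (by omega)
    have h6 : (1 + ε) * rho T k ≤ (1 + ε) * ((M : ℝ) + 1) :=
      mul_le_mul_of_nonneg_left h5 (by linarith)
    exact h6.trans n4
  · have h5 : (1 - ε) * (VV z)⁻¹ ≤ 1 * (VV z)⁻¹ :=
      mul_le_mul_of_nonneg_right (by linarith) (by linarith)
    linarith
  · rw [Finset.card_range]
    refine n7.trans ?_
    have h5 : (1 - ε) / (c * √(g : ℝ)) ≤ (1 - ε) * (VV z)⁻¹ / (c * √(g : ℝ)) := by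
      have hpos : 0 < c * √(g : ℝ) := by positivity
      apply div_le_div_of_nonneg_right _ hpos.le
      nlinarith
    have h6 : 0 ≤ (1 - ε) / (c * √(g : ℝ)) := by
      have hpos : 0 < c * √(g : ℝ) := by positivity
      exact div_nonneg (by linarith) hpos.le
    gcongr
  · exact (hlog (a + D * J + g) (by omega) le_rfl).2

end Pool.Agent.Lib.SHG
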