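import Pool.Agent.Lib.SHG.Spec
import Pool.Agent.Lib.SHR.Pat

/-! MP_9a4459_nt, part SHG, module WNB: windows with different bounds. -/

set_option autoImplicit false

namespace Pool.Agent.Lib.SHG

open Finset Filter Topology MeasureTheory
open Pool.Agent.Lib.MP_3ef1ab_nt Pool.Agent.Results.MP_9a4459_nt
open Pool.Agent.Lib.SHR hiding ShanksLaw
open scoped Classical

theorem tWNB.{u} : S_WNB.{u} := by
  intro Ω m0 P _ ℱ X q h B hB τ b n L J hn hb01 hb
  have hmono : ∀ j, n j ≤ n (j + 1) := fun j => (Nat.le_add_right _ _).trans (hn j)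
  set E : ℕ → Set Ω := fun j => {ω | (∀ i < L, ω ∈ B (n j + i)) ∧
    ¬ ∀ i < L, X (n j + i + 1) ω = if τ i then 1 else 0} with hE
  have hEm : ∀ j m, n j + L ≤ m → MeasurableSet[ℱ m] (E j) := by
    intro j m hm
    have e : E j = {ω | ∀ i < L, ω ∈ B (n j + i)} ∩
        {ω | ∀ i < L, X (n j + i + 1) ω = if τ i then 1 else 0}ᶜ := by
      ext ω
      rfl
    rw [e]
    exact (PatM.all_meas hB (n j) L m (by omega)).inter (PatM.pat_meas h τ (n j) L m hm).compl
  have key : ∀ J', J' ≤ J → MeasurableSet[ℱ (n J')] {ω | ∀ j < J', ω ∈ E j} ∧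
      P.real {ω | ∀ j < J', ω ∈ E j} ≤ ∏ j ∈ range J', (1 - ∏ i ∈ range L, b j i) := by
    intro J'
    induction J' with
    | zero =>
      intro _
      have e : {ω : Ω | ∀ j < 0, ω ∈ E j} = Set.univ := by
        ext ω
        simp
      rw [e]
      refine ⟨MeasurableSet.univ, ?_⟩
      simp
    | succ j ih =>
      intro hj
      obtain ⟨i1, i2⟩ := ih (by omega)
      have e : {ω | ∀ j' < j + 1, ω ∈ E j'} = {ω | ∀ j' < j, ω ∈ E j'} ∩ E j := by
        ext ω
        simp only [Set.mem_setOf_eq, Set.mem_inter_iff]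
        constructor
        · intro h1
          exact ⟨fun j' hj' => h1 j' (by omega), h1 j (by omega)⟩
        · rintro ⟨h1, h2⟩ j' hj'
          rcases Nat.lt_succ_iff_lt_or_eq.1 hj' with h3 | h3
          · exact h1 j' h3
          · rw [h3]
            exact h2
      rw [e]
      constructor
      · exact (ℱ.mono (hmono j) _ i1).inter (hEm j _ (hn j))
      · have h1 := tPAT Ω m0 P ℱ X q h B hB τ (b j) (n j) L _ i1 (hb01 j (by omega))
          (hb j (by omega))
        have h2 : ∏ i ∈ range L, b j i ≤ 1 := by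
          apply prod_le_one
          · intro i hi
            exact (hb01 j (by omega) i (mem_range.1 hi)).1
          · intro i hi
            exact (hb01 j (by omega) i (mem_range.1 hi)).2
        rw [prod_range_succ]
        calc _ ≤ (1 - ∏ i ∈ range L, b j i) * P.real {ω | ∀ j' < j, ω ∈ E j'} := h1
          _ ≤ (1 - ∏ i ∈ range L, b j i) * ∏ j' ∈ range j, (1 - ∏ i ∈ range L, b j' i) :=
              mul_le_mul_of_nonneg_left i2 (by linarith)
          _ = _ := by ring
  exact (key J le_rfl).2

end Pool.Agent.Lib.SHG
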