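import Pool.Agent.Lib.SHG.CB
import Pool.Agent.Lib.SHG.WNB
import Pool.Agent.Lib.SHG.GW
import Pool.Agent.Lib.SHG.UP2
import Pool.Agent.Lib.SHG.LD2
import Pool.Agent.Lib.SHG.VB
import Pool.Agent.Lib.SHG.FLW
import Pool.Agent.Lib.SHG.LB
import Pool.Agent.Lib.SHG.NM1
import Pool.Agent.Lib.SHG.WA
import Pool.Agent.Lib.SHG.MDL
import Pool.Agent.Lib.SHG.FNA
import Pool.Agent.Lib.SHG.NM3
import Pool.Agent.Lib.SHG.WC
import Pool.Agent.Lib.SHG.FNC
import Pool.Agent.Lib.SHR.Lowp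
import Pool.Agent.Lib.SHK.All
import Pool.Agent.Lib.MP_3ef1ab_nt.F.Main

/-! MP_9a4459_nt, directory Lib/SHG (helper82): assembly of the two parts (R1) and (R3). -/

set_option autoImplicit false

namespace Pool.Agent.Lib.SHG

open Finset Filter Topology MeasureTheory
open Pool.Agent.Lib.MP_3ef1ab_nt Pool.Agent.Results.MP_9a4459_nt
open Pool.Agent.Lib.SHR hiding ShanksLaw
open scoped Classical

theorem aFLW : FLWStmt := tFLW tVB flI mer

theorem aUP2.{u} : S_UP2.{u} := tUP2 (tGW tWNB)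

theorem aFNA.{u} : S_FNA.{u} :=
  tFNA tMDL aUP2 tLOWP tLD2 tLB (tWA tCB tVB tNM1) aFLW mer

theorem aFNC.{u} : S_FNC.{u} :=
  tFNC tMDL aUP2 (tWC tCB tVB tNM3) Pool.Agent.Lib.SHK.aSml Pool.Agent.Lib.SHK.aMed
    Pool.Agent.Lib.SHK.aMtc mer

end Pool.Agent.Lib.SHG
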