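import Pool.Agent.Lib.SHG.Spec

/-! MP_9a4459_nt, part SHG, module CB: a block on which T is constant. -/

set_option autoImplicit false

namespace Pool.Agent.Lib.SHG

theorem tCB : S_CB := by
  intro T hT y l M hM
  by_contra hcon
  push Not at hcon
  have key : ∀ i, i ≤ M + 1 → i ≤ T (y + i * l) := by
    intro i
    induction i with
    | zero => intro _; exact Nat.zero_le _
    | succ i ih =>
      intro hi
      have h1 := ih (by omega)
      obtain ⟨k, hk1, hk2, hk3⟩ := hcon i (by omega)
      have h2 : T (y + i * l) ≤ T k := hT hk1
      have h3 : T k ≤ T (y + (i + 1) * l) := hT hk2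
      omega
  have := key (M + 1) le_rfl
  omega

end Pool.Agent.Lib.SHG
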