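import Pool.Agent.Lib.SHK.Defs

/-! MP_9a4459_nt: the Cramér-Granville model; Shanks's law for a set of integers. -/

set_option autoImplicit false

namespace Pool.Agent.Results.MP_9a4459_nt

open Finset Filter Topology MeasureTheory

/-- no prime `p ≤ z` divides `n` -/
def SieveFree (z n : ℕ) : Prop := ∀ p : ℕ, p.Prime → p ≤ z → ¬ p ∣ n

/-- The Cramér-Granville model with sieving limit `T`: `A k` is the event that `k` belongs to the
random set. `T` is nondecreasing; `k` can belong to the set only if it has no prime factor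
`p ≤ T k`; and almost surely, for the `k` without prime factors `p ≤ T k`, the conditional
probability of `A k` given the first `k - 1` steps, multiplied by `log k` and by the product of
`1 - 1/p` over the primes `p ≤ T k`, tends to `1`. -/
structure CGModel {Ω : Type*} {m0 : MeasurableSpace Ω} (P : Measure Ω) (ℱ : Filtration ℕ m0)
    (A : ℕ → Set Ω) (T : ℕ → ℕ) : Prop where
  mono : Monotone T
  meas : ∀ k, MeasurableSet[ℱ k] (A k)
  free : ∀ k, ¬ SieveFree (T k) k → A k = ∅
  dens : ∀ᵐ ω ∂P, ∀ ε : ℝ, 0 < ε → ∀ᶠ k : ℕ in atTop, SieveFree (T (k + 1)) (k + 1) →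
    |(∏ p ∈ (Icc 1 (T (k + 1))).filter Nat.Prime, (1 - 1 / (p : ℝ))) *
      Real.log ((k + 1 : ℕ) : ℝ) *
      (P[(A (k + 1)).indicator (fun _ => (1 : ℝ)) | ℱ k]) ω - 1| ≤ ε

/-- Shanks's law for the set `Q`: for every `ε > 0` there is `G` such that for every gap size
`g ≥ G` that occurs in `Q`, the first element `q` of `Q` whose preceding element is `q - g`
satisfies `|log q / √g - 1| < ε` (S17861 is this statement for the set of primes). -/
def ShanksLaw (Q : ℕ → Prop) : Prop :=
  ∀ ε : ℝ, 0 < ε → ∃ G : ℕ, ∀ g q : ℕ, G ≤ g →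
    Q q →
    (∃ p : ℕ, Q p ∧ p + g = q ∧ ∀ m : ℕ, p < m → m < q → ¬ Q m) →
    (∀ q' : ℕ, q' < q → Q q' →
      ¬ ∃ p' : ℕ, Q p' ∧ p' + g = q' ∧ ∀ m : ℕ, p' < m → m < q' → ¬ Q m) →
    |Real.log (q : ℝ) / Real.sqrt (g : ℝ) - 1| < ε

end Pool.Agent.Results.MP_9a4459_nt
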