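import Pool.Agent.Lib.SHR.Spec
import Pool.Agent.Lib.SHG.Defs
import Pool.Agent.Lib.SHK.Spec
import Pool.Agent.Lib.MP_3ef1ab_nt.F.Fl
import Pool.Agent.Lib.MP_3ef1ab_nt.F.Mer

/-! MP_9a4459_nt (Shanks: log p(g) ~ √g), directory Lib/SHG (architect helper82). THRESHOLD THEOREM
for the Cramér-Granville model with sieving limit `T` (structure `CGModel`, SHG/Defs.lean):
(R1) if `T k = (log k)^(o(1))` then almost surely Shanks's law holds, and every large even `g` occurs;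
(R3) if `a log k ≤ T k ≤ (log k)^10` then almost surely every large even `g` occurs with
`log p(g) < c √g`, every `c > √(e^γ/2) = 0.9437`, so Shanks's law is false.

RULES. Module X: file Pool/Agent/Lib/SHG/X.lean, first line `import Pool.Agent.Lib.SHG.Spec` (and the
modules of SHR / SHK named in the docstring), then `set_option autoImplicit false`,
`namespace Pool.Agent.Lib.SHG`, and open the same namespaces as the Spec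
(`open Pool.Agent.Lib.SHR hiding ShanksLaw`); auxiliary lemmas in `namespace XM`; final theorem `theorem tX : S_X`
(for universe-polymorphic statements `theorem tX.{u} : S_X.{u}`). The docstring contains a complete
proof. Never use congr! / convert!. Every module below 60 s.

Notation: `Mod P ℱ X q` (MP_3ef1ab_nt/M/Exp.lean): `X k` adapted with values 0, 1, conditional densities
`q k ∈ [0,1]` (`q (k+1)` is `ℱ k`-measurable, `Mod.mq`). `VV z = ∏_{p ≤ z} (1 - 1/p)`. -/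

set_option autoImplicit false

namespace Pool.Agent.Lib.SHG

open Finset Filter Topology MeasureTheory
open Pool.Agent.Lib.MP_3ef1ab_nt Pool.Agent.Results.MP_9a4459_nt
open Pool.Agent.Lib.SHR hiding ShanksLaw
open scoped Classical

/-- the weights of the Cramér-Granville model -/
noncomputable def rho (T : ℕ → ℕ) (k : ℕ) : ℝ := if SieveFree (T k) k then (VV (T k))⁻¹ else 0

/-- `T k = (log k)^(o(1))` -/
def Slow (T : ℕ → ℕ) : Prop := ∀ δ : ℝ, 0 < δ → ∀ᶠ k : ℕ in atTop, (T k : ℝ) ≤ Real.log k ^ δ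

/-- `a log k ≤ T k ≤ (log k)^10` -/
def Gran (T : ℕ → ℕ) : Prop := ∃ a : ℝ, 0 < a ∧ ∀ᶠ k : ℕ in atTop,
  a * Real.log k ≤ T k ∧ (T k : ℝ) ≤ Real.log k ^ (10 : ℕ)

/-- good windows for the gap size `g`: starts `a + D j`, `j ∈ S`, all within `[a, a + D J + g]` -/
def Win (ρ : ℕ → ℝ) (ε c : ℝ) (g : ℕ) : Prop :=
  ∃ (a D J : ℕ) (S : Finset ℕ) (r R l0 l1 : ℝ),
    Nat.sqrt g ≤ a ∧ g < D ∧ S ⊆ range J ∧ 0 < r ∧ 0 < l0 ∧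
    (∀ j ∈ S, r ≤ ρ (a + D * j) ∧ r ≤ ρ (a + D * j + g) ∧
      ∑ i ∈ Ioo 0 g, ρ (a + D * j + i) ≤ R) ∧
    (∀ k : ℕ, a ≤ k → k ≤ a + D * J + g → l0 ≤ Real.log k ∧ Real.log k ≤ l1 ∧
      (1 + ε) * ρ k ≤ ε / (1 + ε) * l0) ∧
    (1 - ε) * r ≤ l1 ∧
    2 * Real.log g ≤ S.card * (((1 - ε) * r / l1) ^ 2 * Real.exp (-((1 + ε) ^ 2 * R / l0))) ∧
    Real.log ((a + D * J + g : ℕ) : ℝ) ≤ c * √(g : ℝ)

/-! ### CB (20 lines): a block on which T is constant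
If `T (y + i l) < T (y + (i+1) l)` for all `i ≤ M` then `T (y + (M+1) l) ≥ M + 1`, a contradiction; so
`T (y + i l) = T (y + (i+1) l)` for some `i ≤ M`, and `T` is monotone. -/
def S_CB : Prop := ∀ (T : ℕ → ℕ), Monotone T → ∀ y l M : ℕ, T (y + (M + 1) * l) ≤ M →
  ∃ i ≤ M, ∀ k, y + i * l ≤ k → k ≤ y + (i + 1) * l → T k = T (y + i * l)

/-! ### WNB (40 lines, import Pool.Agent.Lib.SHR.Pat): windows with different bounds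
The same as `tWIN` of SHR/Pat.lean (S_WIN), with the product on the right: in the last step of its proof
use `P(D (j+1)) ≤ (1 - ∏ b j i) P(D j)` and the induction hypothesis (copy the proof of tWIN). -/
def S_WNB.{u} : Prop := ∀ (Ω : Type u) (m0 : MeasurableSpace Ω) (P : Measure Ω)
  [IsProbabilityMeasure P] (ℱ : Filtration ℕ m0) (X q : ℕ → Ω → ℝ), Mod P ℱ X q →
  ∀ (B : ℕ → Set Ω), (∀ k, MeasurableSet[ℱ k] (B k)) →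
  ∀ (τ : ℕ → Bool) (b : ℕ → ℕ → ℝ) (n : ℕ → ℕ) (L J : ℕ),
  (∀ j, n j + L ≤ n (j + 1)) →
  (∀ j < J, ∀ i < L, 0 ≤ b j i ∧ b j i ≤ 1) →
  (∀ j < J, ∀ i < L, ∀ ω ∈ B (n j + i),
    b j i ≤ if τ i then q (n j + i + 1) ω else 1 - q (n j + i + 1) ω) →
  P.real {ω | ∀ j < J, (∀ i < L, ω ∈ B (n j + i)) ∧
    ¬ ∀ i < L, X (n j + i + 1) ω = if τ i then 1 else 0} ≤
    ∏ j ∈ range J, (1 - ∏ i ∈ range L, b j i)

/-! ### GW (130 lines, uses S_WNB; model: SHR/Upp.lean, copy from there): one `g`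
The event `NoG`: in all windows `[a + D j, a + D j + g]`, `j < J`, the densities are within the factor
`1 ± ε` of `ρ k / log k`, and no window realises the gap `(a + D j, a + D j + g)`.
PROOF. S_WNB with `n j = a + D j - 1` (`a ≥ 1`), `L = g + 1`, `τ i = (i = 0 ∨ i = g)`,
`B k = {ω | (1-ε) ρ (k+1) ≤ log (k+1) * q (k+1) ω ≤ (1+ε) ρ (k+1)} ∈ ℱ k`, `b j i = 0` if `j ∉ S`, and for
`j ∈ S`: `b j 0 = b j g = (1-ε) r / l1`, `b j i = exp (-((1+ε)^2 ρ (a+Dj+i)/l0))` for `0 < i < g`. On `B`: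
`q k ≥ (1-ε) ρ k/log k ≥ (1-ε) r/l1` at the two ends, and `q k ≤ (1+ε) ρ k/l0 =: u ≤ ε/(1+ε)` inside, so
`1 - q k ≥ 1 - u ≥ exp (-((1+ε) u))` (`UppM.exp_le` of SHR/Upp.lean with `η = ε`). For `j ∈ S` the product of
the `b j i` is `≥ Q := ((1-ε) r/l1)^2 exp (-((1+ε)^2 R/l0))`, for `j ∉ S` it is `0` (`L ≥ 1`). So the product in
S_WNB is `≤ (1-Q)^(card S) ≤ exp (-(card S * Q)) ≤ exp (-(2 log g)) = 1/g^2`. -/
def NoG {Ω : Type*} (X q : ℕ → Ω → ℝ) (ρ : ℕ → ℝ) (ε : ℝ) (a D J g : ℕ) : Set Ω :=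
  {ω | ∀ j < J, (∀ i < g + 1, (1 - ε) * ρ (a + D * j + i) ≤
      Real.log ((a + D * j + i : ℕ) : ℝ) * q (a + D * j + i) ω ∧
      Real.log ((a + D * j + i : ℕ) : ℝ) * q (a + D * j + i) ω ≤ (1 + ε) * ρ (a + D * j + i)) ∧
    ¬ (X (a + D * j) ω = 1 ∧ (∀ i, 0 < i → i < g → X (a + D * j + i) ω = 0) ∧
      X (a + D * j + g) ω = 1)}

def S_GW.{u} : Prop := ∀ (Ω : Type u) (m0 : MeasurableSpace Ω) (P : Measure Ω)
  [IsProbabilityMeasure P] (ℱ : Filtration ℕ m0) (X q : ℕ → Ω → ℝ), Mod P ℱ X q →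
  ∀ (ρ : ℕ → ℝ) (ε : ℝ) (g a D J : ℕ) (S : Finset ℕ) (r R l0 l1 : ℝ),
  (∀ k, 0 ≤ ρ k) → 0 < ε → ε < 1 → 1 ≤ g → 1 ≤ a → g < D → S ⊆ range J → 0 < r → 0 < l0 →
  (∀ j ∈ S, r ≤ ρ (a + D * j) ∧ r ≤ ρ (a + D * j + g) ∧
    ∑ i ∈ Ioo 0 g, ρ (a + D * j + i) ≤ R) →
  (∀ k : ℕ, a ≤ k → k ≤ a + D * J + g → l0 ≤ Real.log k ∧ Real.log k ≤ l1 ∧
    (1 + ε) * ρ k ≤ ε / (1 + ε) * l0) →
  (1 - ε) * r ≤ l1 →
  2 * Real.log g ≤ S.card * (((1 - ε) * r / l1) ^ 2 * Real.exp (-((1 + ε) ^ 2 * R / l0))) →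
  P.real (NoG X q ρ ε a D J g) ≤ 1 / (g : ℝ) ^ 2

/-! ### UP2 (90 lines, uses S_GW; model: SHR/Up.lean): Borel-Cantelli
For all large `g` with `Adm g` choose the data of `Win ρ ε c g` (choice; `Nat.sqrt g ≥ 1` gives `a ≥ 1`).
`P(NoG ..) ≤ 1/g^2` (S_GW), so almost surely `NoG` fails for all large admissible `g`; for such an `ω` with
`(1-ε) ρ k ≤ log k q k ≤ (1+ε) ρ k` for `k ≥ N`, and `Nat.sqrt g ≥ N`, all `k ≥ a` satisfy this, so some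
`j < J` gives the gap, `m = a + D j ≤ a + D J`. -/
def S_UP2.{u} : Prop := ∀ (Ω : Type u) (m0 : MeasurableSpace Ω) (P : Measure Ω)
  [IsProbabilityMeasure P] (ℱ : Filtration ℕ m0) (X q : ℕ → Ω → ℝ), Mod P ℱ X q →
  ∀ (ρ : ℕ → ℝ) (ε c : ℝ) (Adm : ℕ → Prop), (∀ k, 0 ≤ ρ k) → 0 < ε → ε < 1 →
  (∀ᵐ ω ∂P, ∀ᶠ k : ℕ in atTop, (1 - ε) * ρ k ≤ Real.log k * q k ω ∧
    Real.log k * q k ω ≤ (1 + ε) * ρ k) →
  (∀ᶠ g : ℕ in atTop, Adm g → Win ρ ε c g) →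
  ∀ᵐ ω ∂P, ∀ᶠ g : ℕ in atTop, Adm g → ∃ m : ℕ, X m ω = 1 ∧
    (∀ k : ℕ, m < k → k < m + g → X k ω = 0) ∧ X (m + g) ω = 1 ∧
    Real.log ((m : ℝ) + g) ≤ c * √(g : ℝ)

/-! ### LD2 (90 lines; model: SHR/Lowd.lean, `LowdM.ev_small` there): lower part, deterministic
As S_LOWD: suppose `log (m+g) ≤ c √g`, `s = max m (Nat.sqrt g)`; for `i < nb g`, `k = s+i+1` one has
`m < k < m+g`, `x k = 0`, `0 < log k ≤ c √g` and `q k ≥ (1-ε) ρ k/(c √g)`. The sum of the last hypothesis is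
`(1-ε) ∑ q (s+i+1) ≥ (1-ε)^2 ∑ ρ(s+i+1)/(c √g) ≥ (1-ε)^3 nb g/(c √g)` and `nb g ≥ g - 1 - √g`;
`(1-ε)^3 (g - 1 - √g) ≥ c^2 g + 2 c √g log g` for large `g` as `c^2 < (1-ε)^3`. Contradiction. -/
def S_LD2 : Prop := ∀ (ρ x q : ℕ → ℝ) (ε c : ℝ), (∀ k, 0 ≤ ρ k) → (∀ k, 0 ≤ q k) →
  0 < ε → ε < 1 → 0 < c → c ^ 2 < (1 - ε) ^ 3 →
  (∀ᶠ k : ℕ in atTop, (1 - ε) * ρ k ≤ Real.log k * q k) →
  (∀ᶠ g : ℕ in atTop, ∀ s : ℕ, (s : ℝ) ≤ Real.exp (c * √(g : ℝ)) →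
    (1 - ε) * (nb g : ℝ) ≤ ∑ i ∈ range (nb g), ρ (s + i + 1)) →
  (∀ᶠ g : ℕ in atTop, ∀ s : ℕ, (s : ℝ) ≤ Real.exp (c * √(g : ℝ)) →
    ∑ i ∈ range (nb g), (Real.log ε * x (s + i + 1) - (ε - 1) * q (s + i + 1)) <
      c * √(g : ℝ) + 2 * Real.log g) →
  ∀ᶠ g : ℕ in atTop, ∀ m : ℕ, (∀ k : ℕ, m < k → k < m + g → x k = 0) →
    c * √(g : ℝ) < Real.log ((m : ℝ) + g)

/-! ### VB (40 lines): `1 ≤ (VV z)⁻¹ ≤ z + 1`, and `(VV z)⁻¹ ≤ C (1 + log (z+1))`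
`VV z ≤ 1`; `VV z ≥ ∏_{2 ≤ n ≤ z} (1 - 1/n) = 1/z` for `z ≥ 1` (the missing factors are in `(0,1)`);
the second from `MerStmt` (`VV z log z → c > 0`; finitely many `z`, `VV z > 0` (`VV_pos`)). -/
def S_VB : Prop := MerStmt → (∀ z : ℕ, 1 ≤ (VV z)⁻¹ ∧ (VV z)⁻¹ ≤ (z : ℝ) + 1) ∧
  ∃ C : ℝ, 0 < C ∧ ∀ z : ℕ, (VV z)⁻¹ ≤ C * (1 + Real.log ((z : ℝ) + 1))

/-! ### FLW (60 lines, uses S_VB): rough numbers in intervals, relative form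
`z ≤ 1`: no primes, the sum is `Y`. `z ≥ 2`: the sum is `rg z N Y (VV z)⁻¹` (`rg` counts the `n` in
`(N, N+Y]` with `BV.Rough z n`, the same as `SieveFree z n`). FlIStmt:
`|rg z N Y - Y VV z| ≤ C (e^(-b)/log z) Y + z^(16 b)`; divide by `VV z`: `(VV z)⁻¹ ≤ C' (1 + log (z+1)) ≤
C'' log z`, so the error is `≤ C C'' e^(-b) Y + (z+1) z^(16 b)` (S_VB); `b` with `C C'' e^(-b) ≤ ε`, and
`B = 16 b + 1`. -/
def FLWStmt : Prop := ∀ ε : ℝ, 0 < ε → ∃ B : ℕ, ∀ z N Y : ℕ,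
  |∑ i ∈ range Y, (if SieveFree z (N + i + 1) then (VV z)⁻¹ else 0) - (Y : ℝ)| ≤
    ε * Y + ((z : ℝ) + 1) ^ B

def S_FLW : Prop := FlIStmt → MerStmt → FLWStmt

/-! ### LB (110 lines): sums of the weights over blocks, slow T
`n = nb g ≥ g/2` for large `g`. `ε' = ε/4`, `B` from FLWStmt for `ε'`. Let `M = T (s + n + 1)`; as
`s + n + 1 ≤ exp (2 c √g)` for large `g` (or `≤ exp ((c+1) √g)`) and `T` is monotone and slow,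
`M + 1 ≤ g^(1/(8 (B+1)))` for large `g`: precisely, for a suitable `δ > 0` and `K` with `T k ≤ (log k)^δ` for
`k ≥ K`, `T (s+n+1) ≤ T (⌊exp ((c+1) √g)⌋ + K) ≤ ((c+2) √g)^δ` for large `g`. Put `L = Nat.sqrt n`
(`≥ g^(1/3)`), `h = n / L`. For `i < h` let `σ_i` be the sum of `rho T k` over the `L` integers
`k` in `(s + i L, s + (i+1) L]`, `d_i = T (s + (i+1) L) - T (s + i L) ≥ 0`. If `d_i = 0` then `T` is constant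
on the piece and `σ_i ≥ (1 - ε') L - (M+1)^B ≥ (1 - 2ε') L` (FLWStmt); if `d_i ≥ 1` then
`σ_i ≥ 0 ≥ (1 - 2ε') L (1 - d_i)`. So always `σ_i ≥ (1 - 2ε') L (1 - d_i)`, and
`∑ σ_i ≥ (1 - 2ε') L (h - M)` (telescoping `∑ d_i ≤ M`), `≥ (1 - 2ε')(n - L - L M) ≥ (1 - ε) n` for large `g`
as `L (M+1) ≤ √g g^(1/8) = o(n)`; the terms of the sum over `(s, s+n]` outside the pieces are `≥ 0`. -/
def S_LB : Prop := FLWStmt → ∀ T : ℕ → ℕ, Monotone T → Slow T → ∀ ε c : ℝ, 0 < ε → ε < 1 → 0 < c →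
  ∀ᶠ g : ℕ in atTop, ∀ s : ℕ, (s : ℝ) ≤ Real.exp (c * √(g : ℝ)) →
    (1 - ε) * (nb g : ℝ) ≤ ∑ i ∈ range (nb g), rho T (s + i + 1)

/-! ### NM1 (120 lines): numerics for WA, slow T
`T` monotone and slow: for every `κ > 0`: `M + 1 ≤ g^κ` for large `g`, `M = T (2 v)`: take `δ = κ` in `Slow`,
`T k ≤ (log k)^δ` for `k ≥ K`, `log (2v) ≤ c √g ≤ g`... (`2v ≥ K` for large `g`), so
`M ≤ (c √g)^κ`, and `(c √g)^κ + 1 ≤ g^κ`. (1) `κ = 1/(2 (B+1))`: `(M+1)^B ≤ √g ≤ (ε/2) g`. (2), (3):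
`√c < c1 = (√c + c)/2 < c`, `exp (c1 √g) - 1 < v ≤ exp (c1 √g)`. (4), (5): `M + 1 ≤ g^(1/4)`. (6) `W ≤ 4^M ≤
exp (2 g^(1/4))`, `v/(M+1) ≥ v/g - 1`; natural divisions and subtractions cost at most
`v/(M+1) - 1 - 2W - g` and `- 1`: the quotient is `≥ (exp (c1 √g)/(2 g) - ..)/(exp (2 g^(1/4)) (g+1)) - 1 ≥
exp (√c √g)` as `c1 > √c`. (7) `(1+ε)^3 g/(√c √g) = ((1+ε)^3/√c) √g` and `(1+ε)^3/√c < c/√c = √c`, exponential against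
polynomial. -/
def S_NM1 : Prop := ∀ (B : ℕ) (T : ℕ → ℕ), Monotone T → Slow T → ∀ ε c : ℝ, 0 < ε → ε < 1 →
  (1 + ε) ^ 3 < c → ∀ᶠ g : ℕ in atTop, ∀ v M : ℕ, v = ⌊Real.exp ((√c + c) / 2 * √(g : ℝ))⌋₊ →
    M = T (2 * v) →
    ((M : ℝ) + 1) ^ B ≤ ε / 2 * g ∧
    √c * √(g : ℝ) ≤ Real.log v ∧
    Real.log (2 * (v : ℝ)) ≤ c * √(g : ℝ) ∧
    (1 + ε) * ((M : ℝ) + 1) ≤ ε / (1 + ε) * (√c * √(g : ℝ)) ∧
    (M : ℝ) + 1 ≤ c * √(g : ℝ) ∧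
    (∀ W : ℕ, 1 ≤ W → W ≤ 4 ^ M → Real.exp (√c * √(g : ℝ)) ≤
      (((v / (M + 1) - 2 * W - g) / (W * (g + 1)) : ℕ) : ℝ)) ∧
    2 * Real.log g ≤ Real.exp (√c * √(g : ℝ)) * (((1 - ε) / (c * √(g : ℝ))) ^ 2 *
      Real.exp (-((1 + ε) ^ 2 * ((1 + ε) * g) / (√c * √(g : ℝ))))) ∧
    Nat.sqrt g ≤ v ∧ 1 ≤ g

/-! ### WA (130 lines, uses S_CB, S_VB, S_NM1): windows, slow T
`c0 = √c` (so `1 < c0 < c`, `c0^2 = c > (1+ε)^3`), `c1 = (c0 + c)/2`, `B` from FLWStmt for `ε/2`. For large `g`: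
`y = ⌊exp (c1 √g)⌋₊`, `M = T (2 y)` (`M + 1 ≤ g^(1/(8(B+1)))` as in LB), `l = y/(M+1)`, S_CB: `u = y + i l`, `T = z`
constant on `[u, u + l]`, `u + l ≤ 2y`. `W = primorial z ≤ 4^M`. There is `b < W` with `b`, `b + g` prime to
all `p ≤ z`: if `g` is even, Chinese remainder theorem (class `1` mod 2, for `p ≥ 3` a class different from
`0` and `-g`); if `z ≤ 1`, `b = 0` (no primes; `SieveFree` is trivial). `a = W (u/W + 1) + b ∈ [u, u + 2W]`,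
`D = W (g+1)`, `J = (l - 2W - g)/D` (natural division; for large `g` `J ≥ exp (c0 √g)`·.. see below),
`S = range J`. Then `a + D J + g ≤ u + l`. `r = (VV z)⁻¹ ≥ 1`, `R = (1+ε) g`, `l0 = c0 √g`, `l1 = c √g`:
`a + D j` and `a + D j + g` are `z`-free (`D` and `W` are divisible by all `p ≤ z`), and the sum over
`0 < i < g` is `≤ (1 + ε/2) g + (M+1)^B ≤ (1+ε) g` (FLWStmt, `N = a + D j`, `Y = g - 1`). `log k` for `k` in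
`[u, u+l]`: between `log y ≥ c0 √g` and `log (2y) ≤ c √g`. `(1+ε) rho T k ≤ (1+ε)(M+1) ≤ ε/(1+ε) c0 √g` and
`(1-ε) r ≤ M+1 ≤ c √g` for large `g` (S_VB). Number: `J ≥ (y/(M+1) - 1 - 2·4^M - g)/(4^M (g+1)) - 1 ≥ exp (c0 √g)`
for large `g` (`4^M ≤ exp (2 g^(1/8))`), `((1-ε) r/l1)^2 ≥ ((1-ε)/(c √g))^2`,
`exp (-((1+ε)^2 R/l0)) = exp (-((1+ε)^3 √g/c0))` and `(1+ε)^3/c0 < c0`: the right side is
`≥ ((1-ε)/(c √g))^2 exp ((c0 - (1+ε)^3/c0) √g) ≥ 2 log g` for large `g`. -/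
def S_WA : Prop := FLWStmt → MerStmt → ∀ T : ℕ → ℕ, Monotone T → Slow T → ∀ ε c : ℝ, 0 < ε → ε < 1 →
  (1 + ε) ^ 3 < c → ∀ᶠ g : ℕ in atTop, (Even g ∨ ∀ k, T k ≤ 1) → Win (rho T) ε c g

/-! ### MDL (60 lines, import Pool.Agent.Lib.MP_3ef1ab_nt.M.Gen is in the Spec): the model
`X = Xi A`, `q = Qc P ℱ A`, `mod_of`, `Qc_ae`. For `k + 1` not free `A (k+1) = ∅`, so the conditional expectation
of its indicator is `0` a.s. and `q (k+1) = 0`; for `k+1` free `|VV · log · q - 1| ≤ ε` eventually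
(`CGModel.dens`; the product there is `VV (T (k+1))`), and `rho = (VV ..)⁻¹`, `VV > 0` (`VV_pos`): so
`(1-ε) rho ≤ log q ≤ (1+ε) rho`. -/
def S_MDL.{u} : Prop := ∀ (Ω : Type u) (m0 : MeasurableSpace Ω) (P : Measure Ω)
  [IsProbabilityMeasure P] (ℱ : Filtration ℕ m0) (A : ℕ → Set Ω) (T : ℕ → ℕ), CGModel P ℱ A T →
  Mod P ℱ (Xi A) (Qc P ℱ A) ∧ (∀ ε : ℝ, 0 < ε → ∀ᵐ ω ∂P, ∀ᶠ k : ℕ in atTop,
    (1 - ε) * rho T k ≤ Real.log k * Qc P ℱ A k ω ∧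
    Real.log k * Qc P ℱ A k ω ≤ (1 + ε) * rho T k)

/-! ### FNA (130 lines, uses S_MDL, S_UP2, S_LOWP (SHR), S_LD2, S_LB, S_WA; model SHR/Fin.lean): (R1)
For `j : ℕ`: `c = 1 + 1/(j+1)` and `ε` with `(1+ε)^3 < c` for the upper part (S_UP2 with
`Adm g = (Even g ∨ ∀ k, T k ≤ 1)`, S_WA), `c = 1 - 1/(j+2)` and `ε` with `c^2 < (1-ε)^3` for the lower part
(S_LOWP with `θ = log ε`, `exp θ = ε`; S_LB; S_LD2). Shanks's law for an `ω` good for all `j`: let `(p, p+g)` be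
the first gap of size `g ≥ G`, given `ε`; choose `j` with `1/(j+1) < ε`. `A p`, `A (p+g)` are not empty, so
`p`, `p+g` are `T`-free. If `T k ≤ 1` for all `k` or `g` is even, the upper part gives a gap `(m, m+g)` with
`log (m+g) ≤ (1 + 1/(j+1)) √g` and `p + g ≤ m + g`. Otherwise `g` is odd and `T k0 ≥ 2` for some `k0`: if
`p ≥ k0` then `2` divides neither `p` nor `p+g`, contradiction to `g` odd; so `p < k0`, and the lower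
part (for `m = p`) gives `(1 - 1/(j+2)) √g < log (p+g) ≤ log (k0 + g)`, false for `g ≥ G` (`G` depends on `k0`).
Lower bound of `log (p+g)`: lower part. Use strict/nonstrict: `|log q/√g - 1| ≤ 1/(j+1) < ε`. -/
def S_FNA.{u} : Prop := ∀ (Ω : Type u) (m0 : MeasurableSpace Ω) (P : Measure Ω)
  [IsProbabilityMeasure P] (ℱ : Filtration ℕ m0) (A : ℕ → Set Ω) (T : ℕ → ℕ), CGModel P ℱ A T →
  Slow T → ∀ᵐ ω ∂P, ShanksLaw (fun k => ω ∈ A k) ∧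
    ∃ G : ℕ, ∀ g : ℕ, G ≤ g → (Even g ∨ ∀ k, T k ≤ 1) →
      ∃ m : ℕ, Consec (fun k => ω ∈ A k) m (m + g)

/-! ### NM3 (150 lines; uses SHK.tNumA (SHK/NumA.lean: `NumAStmt`) if convenient): numerics for (R3)
`K = e^γ/2`, `κ = √K < c ≤ 1`. Choose `κ < c0 < c1 < c`, then `ε ∈ (0, 1/2)` with `(1+ε)^5 K/c0 < c0`
(possible as `K < c0^2`), then `η ∈ (0, 1/10)` with `η ≤ a c0` and `(1+ε)^5 K/c0 + 4 η < c1`. With
`y = ⌊η √g⌋₊`, `v = ⌊exp (c1 √g)⌋₊`: (1) elementary (compare NumA); (2) `log v ≥ c0 √g`, `log (2 v) ≤ c √g`;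
(3) `primorial y ≤ 4^y ≤ exp (1.4 η √g)`, so `(v/(M+1) - 2 primorial y - g)/primorial y` (natural divisions,
`M ≤ g^5`) is `≥ exp ((c1 - 2 η) √g)`, also `≥ (g^5)^R0`; (4)
`c' exp ((c1 - 2η) √g) ((1-ε)/√g)^2 exp (-((1+ε)^5 K √g/c0)) ≥ 2 log g`, as
`c1 - 2η - (1+ε)^5 K/c0 ≥ 2 η > 0`. -/
def S_NM3 : Prop := ∀ a c : ℝ, 0 < a → √(Real.exp Real.eulerMascheroniConstant / 2) < c → c ≤ 1 →
  ∃ c0 c1 ε η : ℝ, 1 / 2 < c0 ∧ c0 < c1 ∧ c1 < c ∧ 0 < ε ∧ ε < 1 / 2 ∧ 0 < η ∧ η ≤ 1 / 10 ∧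
    η ≤ a * c0 ∧ ∀ (c' : ℝ) (R0 y0 : ℕ), 0 < c' → ∀ᶠ g : ℕ in atTop,
    100 ≤ g ∧ y0 ≤ ⌊η * √(g : ℝ)⌋₊ ∧ ⌊η * √(g : ℝ)⌋₊ ≤ g ∧
    (g : ℝ) ≤ 2 / η ^ 2 * (⌊η * √(g : ℝ)⌋₊ : ℝ) ^ 2 ∧ g ≤ ⌊η * √(g : ℝ)⌋₊ ^ 3 ∧
    g ^ 5 ≤ ⌊η * √(g : ℝ)⌋₊ ^ 12 ∧ 2 * g < primorial ⌊η * √(g : ℝ)⌋₊ ∧
    c0 * √(g : ℝ) ≤ Real.log (⌊Real.exp (c1 * √(g : ℝ))⌋₊ : ℝ) ∧
    Real.log (2 * (⌊Real.exp (c1 * √(g : ℝ))⌋₊ : ℝ)) ≤ c * √(g : ℝ) ∧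
    (∀ M : ℕ, M ≤ g ^ 5 → Real.exp ((c1 - 2 * η) * √(g : ℝ)) ≤
      (((⌊Real.exp (c1 * √(g : ℝ))⌋₊ / (M + 1) - 2 * primorial ⌊η * √(g : ℝ)⌋₊ - g) /
        primorial ⌊η * √(g : ℝ)⌋₊ : ℕ) : ℝ)) ∧
    ((g : ℝ) ^ 5) ^ R0 ≤ Real.exp ((c1 - 2 * η) * √(g : ℝ)) ∧
    2 * Real.log g ≤ c' * Real.exp ((c1 - 2 * η) * √(g : ℝ)) * (((1 - ε) / √(g : ℝ)) ^ 2 *
      Real.exp (-((1 + ε) ^ 5 * (Real.exp Real.eulerMascheroniConstant / 2) * g /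
        (c0 * √(g : ℝ)))))

/-! ### WC (200 lines, uses S_CB, S_VB, S_NM3, SmlStmt, MedStmt, MtcStmt of SHK): windows for (R3)
`c0, c1, ε, η` from S_NM3 (`a` from `Gran T`); the conclusion is for this `ε`. SmlStmt with `δ = ε`,
`C1 = 2/η^2` and `a p = 0`; MedStmt with `δ = ε`: `c'`, `R0`, `y0`. For large even `g`: `y = ⌊η √g⌋₊`,
`v = ⌊exp (c1 √g)⌋₊`, `M = T (2 v) ≤ (log (2 v))^10 ≤ (√g)^10 = g^5`, `l = v/(M+1)`, S_CB: `u = v + i l`, `T = w`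
constant on `[u, u+l]`, `u + l ≤ 2 v`. `w ≥ a log u ≥ a c0 √g ≥ η √g`, so `y ≤ w ≤ M ≤ g^5 ≤ y^12`.
Sml: `b`, `S0 ⊆ Ioo 0 g`, `card S0 ≤ (1+ε) g/log g`. `D = primorial y > 2g`, `A0 = D (u/D + 1) + b % D`, in
`[u, u + 2D]`, `A0 = b` mod `D`; `N = (l - 2D - g)/D`, so `A0 + D N + g ≤ u + l`. Med (`n0 = A0`, `w^R0 ≤ N` by NM3):
the set `S` of the `t < N` with `A0 + D t`, `A0 + D t + g` not divisible by the primes in `(y, w]` and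
`#{j ∈ S0 : A0 + D t + j not divisible by p ∈ (y,w]} ≤ (1+ε) card S0 Vk 1 y w` has `card S ≥ c' N`. For `t ∈ S`:
`A0 + D t` and `A0 + D t + g` are `w`-free (primes `≤ y`: Sml, as `A0 + D t = b` mod `D`), and the `w`-free
`A0 + D t + i`, `0 < i < g`, have `i ∈ S0` (Sml) and are counted by Med. So with `r = (VV w)⁻¹`:
`∑_{0<i<g} rho ≤ (VV w)⁻¹ (1+ε)^2 (g/log g) Vk 1 y w = (1+ε)^2 (g/log g) (VV y)⁻¹ ≤ (1+ε)^3 (g/log g) e^γ log y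
≤ R := (1+ε)^3 (e^γ/2) g` (`VV w = VV y * Vk 1 y w`, `VV y = Vk 1 0 y`; MtcStmt: `(VV y)⁻¹ ≤ (1+ε) e^γ log y` for large
`y`; `log y ≤ (1/2) log g` as `y ≤ √g`). `l0 = c0 √g`, `l1 = c √g`: `log k` for `k` in `[u, u+l]` by NM3;
`(1+ε) rho T k ≤ (1+ε) C (1 + log (g^5 + 1)) ≤ ε/(1+ε) c0 √g` and `(1-ε) r ≤ c √g` for large `g` (S_VB).
Last inequality: `card S ≥ c' exp ((c1 - 2η) √g)`, `r ≥ 1`, `l1 ≤ √g`, `(1+ε)^2 R/l0 = (1+ε)^5 (e^γ/2) g/(c0 √g)`: NM3. -/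
def S_WC : Prop := Pool.Agent.Lib.SHK.SmlStmt → Pool.Agent.Lib.SHK.MedStmt →
  Pool.Agent.Lib.SHK.MtcStmt → MerStmt → ∀ T : ℕ → ℕ, Monotone T → Gran T → ∀ c : ℝ,
  √(Real.exp Real.eulerMascheroniConstant / 2) < c → c ≤ 1 → ∃ ε : ℝ, 0 < ε ∧ ε < 1 ∧
    ∀ᶠ g : ℕ in atTop, Even g → Win (rho T) ε c g

/-! ### FNC (90 lines, uses S_MDL, S_UP2, S_WC; model SHR/Fin.lean): (R3)
`κ < 1` (`SHK.tFin`/`aFin`: `(aFin).1`). For `j : ℕ` the constant `c_j = κ + (1-κ)/(j+1)·(1/1) ≤ 1`, decreasing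
to `κ`: S_WC gives `ε_j`, S_UP2 with `Adm = Even`; almost surely for all `j`. Given `c > κ` choose `j` with
`c_j < c`, then `log (m+g) ≤ c_j √g < c √g`. Shanks's law is false: with `c = (κ+1)/2 < 1` and
`ε = (1-κ)/2·(1/2)`: for even `g ≥ G` the first gap `(p, p+g)` of size `g` (it exists, `Nat.find` on the end
point) has `log (p+g) ≤ log (m+g) < c √g`, so `log (p+g)/√g - 1 < c - 1 = -(1-κ)/2`, contradiction to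
`|..| < (1-κ)/4`. -/
def S_FNC.{u} : Prop := ∀ (Ω : Type u) (m0 : MeasurableSpace Ω) (P : Measure Ω)
  [IsProbabilityMeasure P] (ℱ : Filtration ℕ m0) (A : ℕ → Set Ω) (T : ℕ → ℕ), CGModel P ℱ A T →
  Gran T → ∀ᵐ ω ∂P, (∀ c : ℝ, √(Real.exp Real.eulerMascheroniConstant / 2) < c →
    ∃ G : ℕ, ∀ g : ℕ, G ≤ g → Even g →
      ∃ m : ℕ, Consec (fun k => ω ∈ A k) m (m + g) ∧ Real.log ((m : ℝ) + g) < c * √(g : ℝ)) ∧
    ¬ ShanksLaw (fun k => ω ∈ A k)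

end Pool.Agent.Lib.SHG
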