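import Pool.Agent.Lib.SHG.Spec

/-! MP_9a4459_nt, SHG, module NV: the Cramér-Granville model exists for every nondecreasing
`T k ≤ (log k)^B`. -/

set_option autoImplicit false

namespace Pool.Agent.Lib.SHG

open Finset Filter Topology MeasureTheory
open Pool.Agent.Lib.MP_3ef1ab_nt Pool.Agent.Results.MP_9a4459_nt
open Pool.Agent.Lib.SHR hiding ShanksLaw
open scoped Classical

/-! ### NV (120 lines; `theorem tNV (h1 : S_VB) (h2 : MerStmt) : S_NV`)
(a) `(VV z)⁻¹ ≤ C (1 + log (z+1))` (S_VB, second part); as `T k ≤ (log k)^B` for large `k`, `(VV (T k))⁻¹ ≤ log k` for large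
`k` (`log ((log k)^B + 1) = o(log k)`). (b) `r k = (VV (T k))⁻¹/log k` if `SieveFree (T k) k`, `(VV (T k))⁻¹ ≤ log k` and
`2 ≤ k`, else `0`: `r k ∈ [0,1]` (`VV_pos`). (c) `exists_hasLaw_indepFun` (Mathlib; used in SHK/Nv.lean `nvP`) gives a
probability space and independent measurable `X k : Ω → ℕ` (or `Bool`) with `P (X k = 1) = r k`, `P (X k = 0) = 1 - r k`
(law e.g. `(PMF.bernoulli ..).toMeasure` or `ofReal (r k) • dirac 1 + ofReal (1 - r k) • dirac 0`).
`ℱ = Filtration.natural X`, `A k = {ω | X k ω = 1}` if `SieveFree (T k) k`, else `∅`. `dens`: for `k + 1` free and large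
the set `A (k+1)` is independent of `ℱ k` (`iIndepFun.indep_comap_natural_of_lt`), so by `condExp_indep_eq` the
conditional expectation of its indicator is almost surely the constant `P (A (k+1)) = r (k+1)`, and
`VV (T (k+1)) * log (k+1) * r (k+1) = 1`; countably many `k`: `ae_all_iff`. (The product in `CGModel.dens` is
`VV (T (k+1))` by definition.) -/
def S_NV : Prop := ∀ T : ℕ → ℕ, Monotone T →
  (∃ B : ℕ, ∀ᶠ k : ℕ in atTop, (T k : ℝ) ≤ Real.log k ^ B) →
  ∃ (Ω : Type) (m0 : MeasurableSpace Ω) (P : Measure Ω) (ℱ : Filtration ℕ m0) (A : ℕ → Set Ω),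
    IsProbabilityMeasure P ∧ CGModel P ℱ A T

end Pool.Agent.Lib.SHG
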